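import Pool.Agent.BDT.Res
import Pool.Agent.BDN.RPE

/-!
# BDL-LAvg (1.4h): the lattice bound by averaging

(`nzf_eq` of Pool/Agent/BDN/RPE.lean: `nzf` is the cardinality of a subset of `range p`.)
Polynomials `h` of degree `< e` with coefficients in `[0, B)`: `h : Fin e → Fin B`. For `h ≠ h'` let `g = h - h' ≠ 0`, `deg g < e`, `l1 g ≤ e B`; `res_bound f g` gives `R ≠ 0`, and for every `p ∈ P` with `k_p` = number of `a < p`
with `p ∣ f(a)`, `p ∣ g(a)`: `p^(k_p) ∣ R`, hence `∑_{p ∈ P} k_p log p ≤ log |R| ≤ (e-1) log l1 f + e log(e B)` (coprime prime powers). Average over the `B^e (B^e - 1)` ordered pairs `h ≠ h'` (if `B = 1` the claim is trivial: the left side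
is `≤ 0`, the right side `≥ 0`, as `l1 f ≥ 1`). For each zero `a` of `f` modulo `p` the number of ordered pairs `(h, h')` with `h(a) = h'(a)` modulo `p` is at least `B^(2e)/p` (Cauchy-Schwarz over the `p` values), so the number
with `h ≠ h'` is at least `B^(2e)/p - B^e ≥ B^e (B^e - 1) (1/p - 1/B^e)` if `1/p ≥ 1/B^e`, and it is `≥ 0` otherwise. So the average of `k_p` is at least `nzf f p (1/p - 1/B^e)`.
-/

open Polynomial Finset Pool.Agent.BDN

namespace Pool.Agent.BDT

private noncomputable def hp {e B : ℕ} (h : Fin e → Fin B) : ℤ[X] :=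
  ∑ i : Fin e, C (((h i : ℕ) : ℤ)) * X ^ (i : ℕ)

private theorem hp_coeff {e B : ℕ} (h : Fin e → Fin B) (j : ℕ) :
    (hp h).coeff j = if hj : j < e then (((h ⟨j, hj⟩ : ℕ) : ℤ)) else 0 := by
  unfold hp
  rw [finsetSum_coeff]
  simp only [coeff_C_mul, coeff_X_pow]
  split_ifs with hj
  · rw [Finset.sum_eq_single (⟨j, hj⟩ : Fin e)]
    · simp
    · intro b _ hb
      have : j ≠ (b : ℕ) := by
        intro h1
        apply hb
        ext
        exact h1.symm
      simp [this]
    · intro h1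
      exact absurd (Finset.mem_univ _) h1
  · apply Finset.sum_eq_zero
    intro b _
    have : j ≠ (b : ℕ) := by
      intro h1
      exact hj (h1 ▸ b.2)
    simp [this]

private theorem hp_inj {e B : ℕ} {h h' : Fin e → Fin B} (hh : h ≠ h') : hp h - hp h' ≠ 0 := by
  intro h0
  apply hh
  funext i
  have h1 := congrArg (fun q : ℤ[X] => q.coeff (i : ℕ)) h0
  simp only [coeff_sub, coeff_zero, hp_coeff, Fin.is_lt, dif_pos, Fin.eta] at h1
  have h2 : (((h i : ℕ) : ℤ)) = ((h' i : ℕ) : ℤ) := by linarith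
  ext
  exact_mod_cast h2

private theorem hp_deg {e B : ℕ} {h h' : Fin e → Fin B} (hh : h ≠ h') :
    (hp h - hp h').natDegree < e := by
  rw [natDegree_lt_iff_degree_lt (hp_inj hh), degree_lt_iff_coeff_zero]
  intro m hm
  rw [coeff_sub, hp_coeff, hp_coeff, dif_neg (not_lt.2 hm), dif_neg (not_lt.2 hm)]
  simp

private theorem hp_l1 {e B : ℕ} {h h' : Fin e → Fin B} (hh : h ≠ h') :
    l1 (hp h - hp h') ≤ (e : ℝ) * B := by
  unfold l1
  calc ∑ i ∈ range ((hp h - hp h').natDegree + 1), |(((hp h - hp h').coeff i : ℤ) : ℝ)|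
      ≤ ∑ i ∈ range e, |(((hp h - hp h').coeff i : ℤ) : ℝ)| := by
        apply Finset.sum_le_sum_of_subset_of_nonneg
        · intro x hx
          rw [Finset.mem_range] at hx ⊢
          have := hp_deg hh
          omega
        · intro x _ _
          exact abs_nonneg _
    _ ≤ ∑ i ∈ range e, (B : ℝ) := by
        apply Finset.sum_le_sum
        intro i hi
        rw [Finset.mem_range] at hi
        rw [coeff_sub, hp_coeff, hp_coeff, dif_pos hi, dif_pos hi]
        have h1 : (((h ⟨i, hi⟩ : ℕ) : ℝ)) ≤ B := by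
          exact_mod_cast (h ⟨i, hi⟩).2.le
        have h2 : (((h' ⟨i, hi⟩ : ℕ) : ℝ)) ≤ B := by
          exact_mod_cast (h' ⟨i, hi⟩).2.le
        have h3 : (0 : ℝ) ≤ ((h ⟨i, hi⟩ : ℕ) : ℝ) := Nat.cast_nonneg _
        have h4 : (0 : ℝ) ≤ ((h' ⟨i, hi⟩ : ℕ) : ℝ) := Nat.cast_nonneg _
        push_cast
        rw [abs_le]
        constructor <;> linarith
    _ = (e : ℝ) * B := by
        rw [Finset.sum_const, Finset.card_range, nsmul_eq_mul]

private theorem one_le_l1 {g : ℤ[X]} (hg : g ≠ 0) : 1 ≤ l1 g := by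
  unfold l1
  calc (1 : ℝ) ≤ |((g.coeff g.natDegree : ℤ) : ℝ)| := by
        have h1 : g.coeff g.natDegree ≠ 0 := by
          rw [coeff_natDegree]
          exact leadingCoeff_ne_zero.2 hg
        have h2 := Int.one_le_abs h1
        have h3 : ((1 : ℤ) : ℝ) ≤ ((|g.coeff g.natDegree| : ℤ) : ℝ) := by exact_mod_cast h2
        simpa using h3
    _ ≤ _ := by
        apply Finset.single_le_sum (f := fun i => |((g.coeff i : ℤ) : ℝ)|)
        · intro i _
          exact abs_nonneg _
        · exact Finset.mem_range.2 (Nat.lt_succ_self _)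

open Classical in
private theorem one_pair (f : ℤ[X]) (e : ℕ) (he : 1 ≤ e) (hfe : f.natDegree = e)
    (hirr : Irreducible (f.map (Int.castRingHom ℚ))) (B : ℕ) (hB : 1 ≤ B) (P : Finset ℕ)
    (hP : ∀ p ∈ P, p.Prime ∧ ¬ (p : ℤ) ∣ f.leadingCoeff) (h h' : Fin e → Fin B) (hh : h ≠ h') :
    ∑ p ∈ P, ((((range p).filter (fun a : ℕ => (p : ℤ) ∣ f.eval (a : ℤ))).filter
      (fun a : ℕ => (p : ℤ) ∣ (hp h - hp h').eval (a : ℤ))).card : ℝ) * Real.log p ≤
      e * Real.log (l1 f) + e * Real.log (e * B) := by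
  have hf0 : f ≠ 0 := by
    rintro rfl
    rw [natDegree_zero] at hfe
    omega
  obtain ⟨R, hR0, hR1, hR2⟩ := res_bound f (hp h - hp h') hirr (hp_inj hh)
    (by rw [hfe]; exact hp_deg hh)
  rw [hfe] at hR1
  set S : ℕ → Finset ℕ := fun p => ((range p).filter (fun a : ℕ => (p : ℤ) ∣ f.eval (a : ℤ))).filter
      (fun a : ℕ => (p : ℤ) ∣ (hp h - hp h').eval (a : ℤ)) with hS
  have hdv : ∀ p ∈ P, ((p : ℤ) ^ (S p).card) ∣ R := by
    intro p hp1
    refine hR2 p (hP p hp1).1 (hP p hp1).2 (S p) ?_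
    intro a ha
    rw [hS] at ha
    simp only [Finset.mem_filter, Finset.mem_range] at ha
    exact ⟨ha.1.1, ha.1.2, ha.2⟩
  have hprod : (∏ p ∈ P, (p : ℤ) ^ (S p).card) ∣ R := by
    apply Finset.prod_dvd_of_coprime
    · intro p hp1 q hq1 hpq
      apply IsCoprime.pow
      exact Nat.isCoprime_iff_coprime.2 ((Nat.coprime_primes (hP p hp1).1 (hP q hq1).1).2 hpq)
    · exact hdv
  have hle : (∏ p ∈ P, (p : ℤ) ^ (S p).card) ≤ |R| :=
    Int.le_of_dvd (abs_pos.2 hR0) ((dvd_abs _ _).2 hprod)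
  have hle2 : (∏ p ∈ P, (p : ℝ) ^ (S p).card) ≤ |(R : ℝ)| := by
    have h1 : (((∏ p ∈ P, (p : ℤ) ^ (S p).card : ℤ)) : ℝ) ≤ ((|R| : ℤ) : ℝ) := by exact_mod_cast hle
    simpa using h1
  have hpos : ∀ p ∈ P, (0 : ℝ) < (p : ℝ) := by
    intro p hp1
    exact_mod_cast (hP p hp1).1.pos
  have hl1f := one_le_l1 hf0
  have hl1g := one_le_l1 (hp_inj hh)
  have hlog : Real.log (∏ p ∈ P, (p : ℝ) ^ (S p).card) = ∑ p ∈ P, ((S p).card : ℝ) * Real.log p := by
    rw [Real.log_prod (fun p hp1 => (pow_pos (hpos p hp1) _).ne')]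
    apply Finset.sum_congr rfl
    intro p _
    rw [Real.log_pow]
  rw [← hlog]
  have hprodpos : 0 < ∏ p ∈ P, (p : ℝ) ^ (S p).card :=
    Finset.prod_pos (fun p hp1 => pow_pos (hpos p hp1) _)
  calc Real.log (∏ p ∈ P, (p : ℝ) ^ (S p).card)
      ≤ Real.log (l1 f ^ (e - 1) * l1 (hp h - hp h') ^ e) :=
        Real.log_le_log hprodpos (hle2.trans hR1)
    _ = ((e - 1 : ℕ) : ℝ) * Real.log (l1 f) + (e : ℝ) * Real.log (l1 (hp h - hp h')) := by
        rw [Real.log_mul (pow_pos (by linarith) _).ne' (pow_pos (by linarith) _).ne',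
          Real.log_pow, Real.log_pow]
    _ ≤ e * Real.log (l1 f) + e * Real.log (e * B) := by
        apply add_le_add
        · apply mul_le_mul_of_nonneg_right _ (Real.log_nonneg hl1f)
          exact_mod_cast Nat.sub_le e 1
        · apply mul_le_mul_of_nonneg_left _ (Nat.cast_nonneg _)
          exact Real.log_le_log (by linarith) (hp_l1 hh)

private theorem pairs_ge {α β : Type*} [Fintype α] [DecidableEq α] [Fintype β] [DecidableEq β]
    (φ : α → β) : (Fintype.card α : ℝ) ^ 2 ≤ (Fintype.card β : ℝ) *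
      (((univ : Finset (α × α)).filter (fun x => φ x.1 = φ x.2)).card : ℝ) := by
  have h1 : ((univ : Finset (α × α)).filter (fun x => φ x.1 = φ x.2)).card =
      ∑ r : β, ((univ : Finset α).filter (fun x => φ x = r)).card ^ 2 := by
    rw [Finset.card_eq_sum_card_fiberwise (f := fun x : α × α => φ x.1) (t := (univ : Finset β))
      (fun x _ => Finset.mem_coe.2 (Finset.mem_univ _))]
    apply Finset.sum_congr rfl
    intro r _
    rw [sq, ← Finset.card_product]
    congr 1
    ext ⟨x, y⟩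
    simp only [Finset.mem_filter, Finset.mem_univ, true_and, Finset.mem_product]
    constructor
    · rintro ⟨h1, h2⟩
      exact ⟨h2, h1 ▸ h2⟩
    · rintro ⟨h1, h2⟩
      exact ⟨h1.trans h2.symm, h1⟩
  have h2 : (Fintype.card α : ℝ) = ∑ r : β, (((univ : Finset α).filter (fun x => φ x = r)).card : ℝ) := by
    have h3 : Fintype.card α = ∑ r : β, ((univ : Finset α).filter (fun x => φ x = r)).card := by
      rw [← Finset.card_univ]
      exact Finset.card_eq_sum_card_fiberwise (f := φ) (t := (univ : Finset β))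
        (fun x _ => Finset.mem_coe.2 (Finset.mem_univ _))
    rw [h3]
    push_cast
    rfl
  rw [h1, h2]
  have h3 := sq_sum_le_card_mul_sum_sq (s := (univ : Finset β))
    (f := fun r : β => (((univ : Finset α).filter (fun x => φ x = r)).card : ℝ))
  rw [Finset.card_univ] at h3
  push_cast
  exact h3

theorem lavg (f : ℤ[X]) (e : ℕ) (he : 1 ≤ e) (hfe : f.natDegree = e)
    (hirr : Irreducible (f.map (Int.castRingHom ℚ))) (B : ℕ) (hB : 1 ≤ B) (P : Finset ℕ)
    (hP : ∀ p ∈ P, p.Prime ∧ ¬ (p : ℤ) ∣ f.leadingCoeff) :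
    ∑ p ∈ P, (nzf f p : ℝ) * Real.log p * (1 / (p : ℝ) - 1 / (B : ℝ) ^ e) ≤
      e * Real.log (l1 f) + e * Real.log (e * B) := by
  classical
  have hf0 : f ≠ 0 := by
    rintro rfl
    rw [natDegree_zero] at hfe
    omega
  have hl1f := one_le_l1 hf0
  set N : ℝ := (B : ℝ) ^ e with hN
  have hN1 : 1 ≤ N := one_le_pow₀ (by exact_mod_cast hB)
  have hrhs : 0 ≤ (e : ℝ) * Real.log (l1 f) + e * Real.log (e * B) := by
    apply add_nonneg
    · exact mul_nonneg (Nat.cast_nonneg _) (Real.log_nonneg hl1f)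
    · apply mul_nonneg (Nat.cast_nonneg _) (Real.log_nonneg _)
      have h1 : 1 ≤ e * B := Nat.mul_pos he hB
      exact_mod_cast h1
  rcases hN1.eq_or_lt with h1 | h1
  · refine le_trans (Finset.sum_nonpos ?_) hrhs
    intro p hp1
    have hp2 := (hP p hp1).1
    have hp3 : (1 : ℝ) ≤ p := by exact_mod_cast hp2.one_lt.le
    apply mul_nonpos_of_nonneg_of_nonpos
    · exact mul_nonneg (Nat.cast_nonneg _) (Real.log_nonneg hp3)
    · rw [← h1, sub_nonpos]
      exact one_div_le_one_div_of_le one_pos hp3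
  set D : Finset ((Fin e → Fin B) × (Fin e → Fin B)) := univ.filter (fun x => x.1 ≠ x.2) with hD
  have hcardα : (Fintype.card (Fin e → Fin B) : ℝ) = N := by
    rw [Fintype.card_fun, Fintype.card_fin, Fintype.card_fin]
    push_cast
    rfl
  have hdiag : (((univ : Finset ((Fin e → Fin B) × (Fin e → Fin B))).filter
      (fun x => x.1 = x.2)).card : ℝ) = N := by
    rw [← hcardα, ← Finset.card_univ]
    congr 1
    symm
    apply Finset.card_bij (fun (a : Fin e → Fin B) _ => (a, a))
    · intro a _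
      simp
    · intro a _ b _ hab
      exact (Prod.mk.inj hab).1
    · rintro ⟨a, b⟩ hab
      simp only [Finset.mem_filter, Finset.mem_univ, true_and] at hab
      exact ⟨a, Finset.mem_univ _, by rw [hab]⟩
  have hDcard : (D.card : ℝ) = N * (N - 1) := by
    have h2 := Finset.card_filter_add_card_filter_not
      (s := (univ : Finset ((Fin e → Fin B) × (Fin e → Fin B)))) (fun x => x.1 = x.2)
    have h3 : (((univ : Finset ((Fin e → Fin B) × (Fin e → Fin B))).filter
      (fun x => x.1 = x.2)).card : ℝ) + (D.card : ℝ) = N * N := by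
      rw [← hcardα]
      have h4 : (univ : Finset ((Fin e → Fin B) × (Fin e → Fin B))).card =
        Fintype.card (Fin e → Fin B) * Fintype.card (Fin e → Fin B) := by
        rw [Finset.card_univ, Fintype.card_prod]
      rw [h4] at h2
      exact_mod_cast h2
    rw [hdiag] at h3
    linarith
  -- the count for one zero
  have hcount : ∀ p ∈ P, ∀ a : ℕ, N * (N - 1) * (1 / (p : ℝ) - 1 / N) ≤
      ((D.filter (fun x => (p : ℤ) ∣ (hp x.1 - hp x.2).eval (a : ℤ))).card : ℝ) := by
    intro p hp1 a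
    have hp2 := (hP p hp1).1
    have : NeZero p := ⟨hp2.ne_zero⟩
    have hp3 : (0 : ℝ) < p := by exact_mod_cast hp2.pos
    have hNpos : 0 < N := by linarith
    rcases le_total N p with h4 | h4
    · refine le_trans ?_ (Nat.cast_nonneg _)
      apply mul_nonpos_of_nonneg_of_nonpos
      · exact mul_nonneg hNpos.le (by linarith)
      · rw [sub_nonpos]
        exact one_div_le_one_div_of_le hNpos h4
    · have h5 := pairs_ge (fun h : Fin e → Fin B => (((hp h).eval (a : ℤ) : ℤ) : ZMod p))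
      rw [hcardα, ZMod.card] at h5
      have h6 : ((univ : Finset ((Fin e → Fin B) × (Fin e → Fin B))).filter
          (fun x => (((hp x.1).eval (a : ℤ) : ℤ) : ZMod p) = (((hp x.2).eval (a : ℤ) : ℤ) : ZMod p))) =
          (univ : Finset ((Fin e → Fin B) × (Fin e → Fin B))).filter
          (fun x => (p : ℤ) ∣ (hp x.1 - hp x.2).eval (a : ℤ)) := by
        apply Finset.filter_congr
        intro x _
        rw [← sub_eq_zero, ← Int.cast_sub, ZMod.intCast_zmod_eq_zero_iff_dvd, eval_sub]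
      rw [h6] at h5
      have h7 := Finset.card_filter_add_card_filter_not
        (s := (univ : Finset ((Fin e → Fin B) × (Fin e → Fin B))).filter
          (fun x => (p : ℤ) ∣ (hp x.1 - hp x.2).eval (a : ℤ))) (fun x => x.1 = x.2)
      have h8 : ((((univ : Finset ((Fin e → Fin B) × (Fin e → Fin B))).filter
          (fun x => (p : ℤ) ∣ (hp x.1 - hp x.2).eval (a : ℤ))).filter (fun x => x.1 = x.2)).card : ℝ)
          ≤ N := by
        rw [← hdiag]
        have h9 : (((univ : Finset ((Fin e → Fin B) × (Fin e → Fin B))).filter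
          (fun x => (p : ℤ) ∣ (hp x.1 - hp x.2).eval (a : ℤ))).filter (fun x => x.1 = x.2)) ⊆
          (univ : Finset ((Fin e → Fin B) × (Fin e → Fin B))).filter (fun x => x.1 = x.2) := by
          intro x hx
          rw [Finset.mem_filter] at hx ⊢
          exact ⟨Finset.mem_univ _, hx.2⟩
        exact_mod_cast Finset.card_le_card h9
      have h10 : (((univ : Finset ((Fin e → Fin B) × (Fin e → Fin B))).filter
          (fun x => (p : ℤ) ∣ (hp x.1 - hp x.2).eval (a : ℤ))).filter (fun x => ¬ x.1 = x.2)) =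
          D.filter (fun x => (p : ℤ) ∣ (hp x.1 - hp x.2).eval (a : ℤ)) := by
        rw [hD, Finset.filter_filter, Finset.filter_filter]
        apply Finset.filter_congr
        intro x _
        exact and_comm
      rw [h10] at h7
      have h11 : ((((univ : Finset ((Fin e → Fin B) × (Fin e → Fin B))).filter
          (fun x => (p : ℤ) ∣ (hp x.1 - hp x.2).eval (a : ℤ))).filter (fun x => x.1 = x.2)).card : ℝ)
          + ((D.filter (fun x => (p : ℤ) ∣ (hp x.1 - hp x.2).eval (a : ℤ))).card : ℝ) =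
          (((univ : Finset ((Fin e → Fin B) × (Fin e → Fin B))).filter
          (fun x => (p : ℤ) ∣ (hp x.1 - hp x.2).eval (a : ℤ))).card : ℝ) := by
        exact_mod_cast h7
      have h12 : N ^ 2 / p ≤ (((univ : Finset ((Fin e → Fin B) × (Fin e → Fin B))).filter
          (fun x => (p : ℤ) ∣ (hp x.1 - hp x.2).eval (a : ℤ))).card : ℝ) := by
        rw [div_le_iff₀ hp3]
        linarith
      have h13 : N * (N - 1) * (1 / (p : ℝ) - 1 / N) = N ^ 2 / p - N - (N / p - 1) := by
        field_simp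
      have h14 : 0 ≤ N / p - 1 := by
        rw [sub_nonneg, one_le_div hp3]
        exact h4
      rw [h13]
      linarith
  -- double counting
  have hT : 0 < N * (N - 1) := mul_pos (by linarith) (by linarith)
  refine le_of_mul_le_mul_left ?_ hT
  have hstep : N * (N - 1) * ∑ p ∈ P, (nzf f p : ℝ) * Real.log p * (1 / (p : ℝ) - 1 / N) ≤
      ∑ x ∈ D, ∑ p ∈ P, ((((range p).filter (fun a : ℕ => (p : ℤ) ∣ f.eval (a : ℤ))).filter
      (fun a : ℕ => (p : ℤ) ∣ (hp x.1 - hp x.2).eval (a : ℤ))).card : ℝ) * Real.log p := by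
    rw [Finset.sum_comm, Finset.mul_sum]
    apply Finset.sum_le_sum
    intro p hp1
    have hp2 := (hP p hp1).1
    have hp3 : (1 : ℝ) ≤ p := by exact_mod_cast hp2.one_lt.le
    rw [← Finset.sum_mul]
    have h2 : N * (N - 1) * ((nzf f p : ℝ) * Real.log p * (1 / (p : ℝ) - 1 / N)) =
        ((nzf f p : ℝ) * (N * (N - 1) * (1 / (p : ℝ) - 1 / N))) * Real.log p := by ring
    rw [h2]
    apply mul_le_mul_of_nonneg_right _ (Real.log_nonneg hp3)
    have h3 : ∀ x : (Fin e → Fin B) × (Fin e → Fin B),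
        ((((range p).filter (fun a : ℕ => (p : ℤ) ∣ f.eval (a : ℤ))).filter
        (fun a : ℕ => (p : ℤ) ∣ (hp x.1 - hp x.2).eval (a : ℤ))).card : ℝ) =
        ∑ a ∈ (range p).filter (fun a : ℕ => (p : ℤ) ∣ f.eval (a : ℤ)),
          (if (p : ℤ) ∣ (hp x.1 - hp x.2).eval (a : ℤ) then (1 : ℝ) else 0) := by
      intro x
      rw [Finset.card_filter]
      push_cast
      rfl
    simp only [h3]
    rw [Finset.sum_comm]
    rw [nzf_eq]
    have h4 : ((((range p).filter (fun a : ℕ => (p : ℤ) ∣ f.eval (a : ℤ))).card : ℝ)) *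
        (N * (N - 1) * (1 / (p : ℝ) - 1 / N)) =
        ∑ a ∈ (range p).filter (fun a : ℕ => (p : ℤ) ∣ f.eval (a : ℤ)),
          (N * (N - 1) * (1 / (p : ℝ) - 1 / N)) := by
      rw [Finset.sum_const, nsmul_eq_mul]
    rw [h4]
    apply Finset.sum_le_sum
    intro a _
    refine (hcount p hp1 a).trans ?_
    rw [Finset.card_filter]
    push_cast
    exact le_refl _
  refine hstep.trans ?_
  calc ∑ x ∈ D, ∑ p ∈ P, ((((range p).filter (fun a : ℕ => (p : ℤ) ∣ f.eval (a : ℤ))).filter
      (fun a : ℕ => (p : ℤ) ∣ (hp x.1 - hp x.2).eval (a : ℤ))).card : ℝ) * Real.log p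
      ≤ ∑ x ∈ D, ((e : ℝ) * Real.log (l1 f) + e * Real.log (e * B)) := by
        apply Finset.sum_le_sum
        intro x hx
        rw [hD, Finset.mem_filter] at hx
        exact one_pair f e he hfe hirr B hB P hP x.1 x.2 hx.2
    _ = N * (N - 1) * (e * Real.log (l1 f) + e * Real.log (e * B)) := by
        rw [Finset.sum_const, nsmul_eq_mul, hDcard]

end Pool.Agent.BDT
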