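import Pool.Agent.BDT.LL

/-!
# BDT-AllS (1.2h): the full harmonic sum (Euler product over all primes `≤ N`)

`∑_{m ≤ N} z^Om(m)/m ≤ ∏_{p ≤ N} (1 - g p)^{-1}`, `g p = z/p` for `p ≤ y = yy N`, `g p = 1/p` for `y < p ≤ N` (the function `z^Om(m)/m` is completely multiplicative: `Om_mul`; Mathlib:
`EulerProduct` for `Nat.primesBelow`/`smoothNumbers`/`factoredNumbers` and a completely multiplicative function, or expand a finite product).
`-log(1-g) ≤ g + 2 g²` for `0 ≤ g ≤ 3/4`, `∑ g² ≤ 4`. `∑_{p ≤ N} g p ≤ z ∑_{p ≤ N} 1/p + max(1-z,0) ∑_{y < p ≤ N} 1/p`,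
`∑_{p ≤ N} 1/p ≤ log log N + 3.4` (`Helper24.sum_inv_primes_le`), `∑_{p ≤ y} 1/p ≥ log log y - 1` (`log y ≤ ∑_{n ≤ y} 1/n ≤ ∏_{p ≤ y} (1-1/p)^{-1} ≤ exp(∑_{p ≤ y} 1/p + 1)`), and
`log log N - log log y ≤ δ log log N + log 2` (`yy_log`), `δ = 10^(-5)`. Total `≤ C (log N)^(z + δ/2) ≤ (log N)^(z+5δ)`.
-/

open Finset

namespace Pool.Agent.BDT

/-- the sum of a function bounded by a product of local functions over smooth numbers -/
private lemma als_smooth (P : Finset ℕ) (g : ℕ → ℕ → ℝ)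
    (hg : ∀ p ∈ P, ∀ j, 0 ≤ g p j) (J : ℕ) (S : Finset ℕ)
    (hS : ∀ s ∈ S, 1 ≤ s ∧ ∀ p : ℕ, p.Prime → p ∣ s → p ∈ P)
    (hJ : ∀ s ∈ S, ∀ p ∈ P, s.factorization p < J) (f : ℕ → ℝ)
    (hf : ∀ s ∈ S, f s ≤ ∏ p ∈ P, g p (s.factorization p)) :
    ∑ s ∈ S, f s ≤ ∏ p ∈ P, ∑ j ∈ range J, g p j := by
  classical
  have h1 : ∏ p ∈ P, ∑ j ∈ range J, g p j =
      ∑ x ∈ Fintype.piFinset (fun _ : P => range J), ∏ i : P, g i (x i) := by
    rw [← Finset.prod_univ_sum (fun _ : P => range J) (fun (i : P) j => g i j)]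
    exact (Finset.prod_coe_sort P (fun p => ∑ j ∈ range J, g p j)).symm
  rw [h1]
  have h2 : ∑ s ∈ S, f s ≤ ∑ s ∈ S, ∏ i : P, g i ((fun (i : P) => s.factorization i) i) := by
    refine Finset.sum_le_sum fun s hs => ?_
    refine (hf s hs).trans (le_of_eq ?_)
    exact (Finset.prod_coe_sort P (fun p => g p (s.factorization p))).symm
  refine h2.trans ?_
  have hinj : Set.InjOn (fun (s : ℕ) (i : P) => s.factorization i) (S : Set ℕ) := by
    intro s hs t ht hst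
    have hs' := hS s hs
    have ht' := hS t ht
    refine Nat.eq_of_factorization_eq (by omega) (by omega) fun p => ?_
    by_cases hp : p ∈ P
    · exact congrFun hst ⟨p, hp⟩
    · by_cases hpp : p.Prime
      · rw [Nat.factorization_eq_zero_of_not_dvd fun h => hp (hs'.2 p hpp h),
          Nat.factorization_eq_zero_of_not_dvd fun h => hp (ht'.2 p hpp h)]
      · rw [Nat.factorization_eq_zero_of_not_prime s hpp,
          Nat.factorization_eq_zero_of_not_prime t hpp]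
  rw [← Finset.sum_image (g := fun (s : ℕ) (i : P) => s.factorization i)
    (f := fun x : P → ℕ => ∏ i : P, g i (x i)) hinj]
  refine Finset.sum_le_sum_of_subset_of_nonneg ?_ fun x _ _ => ?_
  · intro x hx
    obtain ⟨s, hs, rfl⟩ := Finset.mem_image.1 hx
    rw [Fintype.mem_piFinset]
    intro i
    exact mem_range.2 (hJ s hs i i.2)
  · exact Finset.prod_nonneg fun i _ => hg i i.2 _

private lemma als_mem {y s : ℕ} (h : ∀ p : ℕ, p.Prime → p ∣ s → p ≤ y) :
    s.primeFactors ⊆ (Finset.range (y + 1)).filter Nat.Prime := by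
  intro p hp
  rw [mem_filter, mem_range]
  have hpp := Nat.prime_of_mem_primeFactors hp
  exact ⟨Nat.lt_succ_of_le (h p hpp (Nat.dvd_of_mem_primeFactors hp)), hpp⟩

private lemma als_prod {y s : ℕ} (hs : 1 ≤ s) (h : ∀ p : ℕ, p.Prime → p ∣ s → p ≤ y) :
    (s : ℝ) = ∏ p ∈ (Finset.range (y + 1)).filter Nat.Prime, (p : ℝ) ^ s.factorization p := by
  have h1 : s.factorization.prod (fun x1 x2 => x1 ^ x2) = s :=
    Nat.prod_factorization_pow_eq_self (by omega)
  have h2 : ∏ p ∈ (Finset.range (y + 1)).filter Nat.Prime, p ^ s.factorization p = s := by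
    conv_rhs => rw [← h1]
    unfold Finsupp.prod
    symm
    refine Finset.prod_subset ?_ fun p _ hp => ?_
    · intro p hp
      exact als_mem h (by simpa using hp)
    · rw [Finsupp.notMem_support_iff.1 hp]
      exact pow_zero p
  conv_lhs => rw [← h2]
  push_cast
  rfl

private lemma als_Om (z : ℝ) (y s : ℕ) :
    z ^ Om y s = ∏ p ∈ (Finset.range (y + 1)).filter Nat.Prime, z ^ s.factorization p := by
  unfold Om
  rw [Finset.prod_pow_eq_pow_sum]

private lemma als_geom {x : ℝ} (h0 : 0 ≤ x) (h1 : x < 1) (J : ℕ) :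
    ∑ j ∈ range J, x ^ j ≤ 1 / (1 - x) := by
  have h2 : (1 - x) * ∑ j ∈ range J, x ^ j = 1 - x ^ J := by
    have := mul_neg_geom_sum x J
    linarith
  rw [le_div_iff₀ (by linarith)]
  have h3 : 0 ≤ x ^ J := pow_nonneg h0 J
  nlinarith

private lemma als_sq (y : ℕ) :
    ∑ p ∈ (Finset.range (y + 1)).filter Nat.Prime, ((p : ℝ) ^ 2)⁻¹ ≤ 2 := by
  have h1 := sum_Ioo_inv_sq_le (α := ℝ) 0 (y + 1)
  have h2 : ∑ p ∈ (Finset.range (y + 1)).filter Nat.Prime, ((p : ℝ) ^ 2)⁻¹ ≤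
      ∑ i ∈ Ioo 0 (y + 1), ((i : ℝ) ^ 2)⁻¹ := by
    refine Finset.sum_le_sum_of_subset_of_nonneg ?_ fun i _ _ => by positivity
    intro p hp
    rw [mem_filter, mem_range] at hp
    rw [mem_Ioo]
    exact ⟨hp.2.pos, hp.1⟩
  have h3 : (2 : ℝ) / (((0 : ℕ) : ℝ) + 1) = 2 := by norm_num
  linarith

private lemma als_mert {y : ℕ} (hy : 2 ≤ y) :
    ∑ p ∈ (Finset.range (y + 1)).filter Nat.Prime, 1 / (p : ℝ) ≤
      Real.log (Real.log y) + 3.4 := by
  refine le_trans (le_of_eq ?_) (Helper24.sum_inv_primes_le y hy)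
  refine Finset.sum_congr ?_ fun _ _ => rfl
  ext p
  rw [mem_filter, mem_range, Nat.mem_primesLE]
  constructor
  · rintro ⟨h1, h2⟩
    exact ⟨by omega, h2⟩
  · rintro ⟨h1, h2⟩
    exact ⟨by omega, h2⟩

private lemma als_loc {g : ℝ} {p : ℕ} (hp : p.Prime) (h0 : 0 ≤ g) (h1 : g ≤ 3 / 2 * (1 / p))
    (J : ℕ) : ∑ j ∈ range J, g ^ j ≤ Real.exp (g + 9 * ((p : ℝ) ^ 2)⁻¹) := by
  have hp2 : (2 : ℝ) ≤ p := by exact_mod_cast hp.two_le
  have hp0 : (0 : ℝ) < p := by linarith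
  have hu : 1 / (p : ℝ) ≤ 1 / 2 := one_div_le_one_div_of_le (by norm_num) hp2
  have hg : g ≤ 3 / 4 := by linarith
  refine (als_geom h0 (by linarith) J).trans ?_
  have h2 : 1 / (1 - g) ≤ 1 + g + 4 * g ^ 2 := by
    rw [div_le_iff₀ (by linarith)]
    have : 0 ≤ g ^ 2 * (3 - 4 * g) := mul_nonneg (sq_nonneg _) (by linarith)
    nlinarith
  have h3 : g ^ 2 ≤ (3 / 2 * (1 / p)) ^ 2 := pow_le_pow_left₀ h0 h1 2
  have h4 : (3 / 2 * (1 / p) : ℝ) ^ 2 = 9 / 4 * ((p : ℝ) ^ 2)⁻¹ := by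
    field_simp
    ring
  have h5 := Real.add_one_le_exp (g + 9 * ((p : ℝ) ^ 2)⁻¹)
  linarith

private lemma als_eul (N : ℕ) (g : ℕ → ℝ)
    (h0 : ∀ p ∈ (Finset.range (N + 1)).filter Nat.Prime, 0 ≤ g p)
    (h1 : ∀ p ∈ (Finset.range (N + 1)).filter Nat.Prime, g p ≤ 3 / 2 * (1 / p)) :
    ∑ m ∈ Icc 1 N, ∏ p ∈ (Finset.range (N + 1)).filter Nat.Prime, g p ^ m.factorization p ≤
      Real.exp ((∑ p ∈ (Finset.range (N + 1)).filter Nat.Prime, g p) + 18) := by
  have hPp : ∀ p ∈ (Finset.range (N + 1)).filter Nat.Prime, p.Prime := fun p hp =>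
    (mem_filter.1 hp).2
  have h2 := als_sq N
  obtain ⟨P, hP⟩ : ∃ P : Finset ℕ, P = (Finset.range (N + 1)).filter Nat.Prime := ⟨_, rfl⟩
  rw [← hP] at h0 h1 hPp h2 ⊢
  have h3 : ∑ m ∈ Icc 1 N, ∏ p ∈ P, g p ^ m.factorization p ≤
      ∏ p ∈ P, ∑ j ∈ range (N + 1), g p ^ j := by
    refine als_smooth P (fun p j => g p ^ j) (fun p hp j => pow_nonneg (h0 p hp) j) (N + 1)
      (Icc 1 N) ?_ ?_ _ (fun _ _ => le_rfl)
    · intro s hs
      obtain ⟨hs1, hs2⟩ := mem_Icc.1 hs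
      refine ⟨hs1, fun p hp hd => ?_⟩
      rw [hP, mem_filter, mem_range]
      have := Nat.le_of_dvd (by omega) hd
      exact ⟨by omega, hp⟩
    · intro s hs p _
      obtain ⟨hs1, hs2⟩ := mem_Icc.1 hs
      have := Nat.factorization_lt p (show s ≠ 0 by omega)
      omega
  have h4 : ∏ p ∈ P, ∑ j ∈ range (N + 1), g p ^ j ≤
      ∏ p ∈ P, Real.exp (g p + 9 * ((p : ℝ) ^ 2)⁻¹) :=
    Finset.prod_le_prod (fun p hp => Finset.sum_nonneg fun j _ => pow_nonneg (h0 p hp) j)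
      fun p hp => als_loc (hPp p hp) (h0 p hp) (h1 p hp) _
  refine (h3.trans h4).trans ?_
  rw [← Real.exp_sum, Finset.sum_add_distrib, ← Finset.mul_sum]
  exact Real.exp_le_exp.2 (by linarith)

private lemma als_low {y : ℕ} (hy : 2 ≤ y) :
    Real.log (Real.log y) - 18 ≤ ∑ p ∈ (Finset.range (y + 1)).filter Nat.Prime, 1 / (p : ℝ) := by
  have h1 := als_eul y (fun p => 1 / (p : ℝ)) (fun p _ => by positivity) (fun p _ => by
    have : (0 : ℝ) ≤ 1 / (p : ℝ) := by positivity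
    linarith)
  have h2 : ∑ m ∈ Icc 1 y, ∏ p ∈ (Finset.range (y + 1)).filter Nat.Prime,
      (1 / (p : ℝ)) ^ m.factorization p = ∑ m ∈ Icc 1 y, 1 / (m : ℝ) := by
    refine Finset.sum_congr rfl fun m hm => ?_
    obtain ⟨hm1, hm2⟩ := mem_Icc.1 hm
    have h3 := als_prod (y := y) hm1 fun p hp hd => (Nat.le_of_dvd (by omega) hd).trans hm2
    conv_rhs => rw [h3]
    rw [one_div, ← Finset.prod_inv_distrib]
    refine Finset.prod_congr rfl fun p _ => ?_
    rw [one_div, inv_pow]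
  rw [h2] at h1
  have h4 : Real.log y ≤ ∑ m ∈ Icc 1 y, 1 / (m : ℝ) := by
    have h5 := log_add_one_le_harmonic y
    have h6 : ((harmonic y : ℚ) : ℝ) = ∑ m ∈ Icc 1 y, 1 / (m : ℝ) := by
      rw [harmonic_eq_sum_Icc]
      push_cast
      exact Finset.sum_congr rfl fun m _ => (one_div _).symm
    rw [h6] at h5
    refine le_trans (Real.log_le_log (by exact_mod_cast (by omega : 0 < y)) ?_) h5
    push_cast
    linarith
  have h7 : 0 < Real.log y := Real.log_pos (by exact_mod_cast (by omega : 1 < y))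
  have h8 := Real.log_le_log h7 (h4.trans h1)
  rw [Real.log_exp] at h8
  linarith

theorem alls (z : ℝ) (hz : 1 / 2 ≤ z) (hz2 : z ≤ 3 / 2) : ∃ N₀ : ℕ, ∀ N : ℕ, N₀ ≤ N →
    ∑ m ∈ Icc 1 N, z ^ Om (yy N) m / m ≤ (Real.log N) ^ (z + 5 / 100000 : ℝ) := by
  obtain ⟨N1, hN1⟩ := yy_log
  obtain ⟨N2, hN2⟩ := yy_pow
  obtain ⟨N3, hN3⟩ := yy_large 2
  have ht : Filter.Tendsto (fun N : ℕ => Real.log N ^ (4 / 100000 : ℝ)) Filter.atTop
      Filter.atTop := (tendsto_rpow_atTop (by norm_num)).comp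
        (Real.tendsto_log_atTop.comp tendsto_natCast_atTop_atTop)
  obtain ⟨N4, hN4⟩ := Filter.eventually_atTop.1 (ht.eventually_ge_atTop (Real.exp 100))
  refine ⟨max (max N1 N2) (max (max N3 N4) 3), fun N hN => ?_⟩
  have g1 : N1 ≤ N := le_trans (le_trans (le_max_left _ _) (le_max_left _ _)) hN
  have g2 : N2 ≤ N := le_trans (le_trans (le_max_right _ _) (le_max_left _ _)) hN
  have g3 : N3 ≤ N := le_trans (le_trans (le_trans (le_max_left _ _) (le_max_left _ _))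
    (le_max_right _ _)) hN
  have g4 : N4 ≤ N := le_trans (le_trans (le_trans (le_max_right _ _) (le_max_left _ _))
    (le_max_right _ _)) hN
  have g5 : 3 ≤ N := le_trans (le_trans (le_max_right _ _) (le_max_right _ _)) hN
  obtain ⟨hy1, hy2⟩ := hN1 N g1
  have hy3 := hN2 N g2
  have hy4 := hN3 N g3
  have hX := hN4 N g4
  have hNR : (3 : ℝ) ≤ N := by exact_mod_cast g5
  have hyN : yy N ≤ N := by
    have h1 : (N : ℝ) ^ (1 / 1000000 : ℝ) ≤ (N : ℝ) ^ (1 : ℝ) :=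
      Real.rpow_le_rpow_of_exponent_le (by linarith) (by norm_num)
    rw [Real.rpow_one] at h1
    exact_mod_cast hy3.trans h1
  obtain ⟨y, hy⟩ : ∃ y : ℕ, y = yy N := ⟨_, rfl⟩
  rw [← hy] at hy1 hy2 hy4 hyN ⊢
  have hlN : 1 < Real.log N := by
    rw [← Real.log_exp 1]
    refine Real.log_lt_log (Real.exp_pos 1) ?_
    have := Real.exp_one_lt_d9
    linarith
  have hlN0 : 0 < Real.log N := by linarith
  have hly0 : 0 < Real.log y := Real.log_pos (by exact_mod_cast (by omega : 1 < y))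
  obtain ⟨Λ, hΛ⟩ : ∃ Λ : ℝ, Λ = Real.log (Real.log N) := ⟨_, rfl⟩
  have hΛ0 : 0 ≤ Λ := by
    rw [hΛ]
    exact Real.log_nonneg hlN.le
  obtain ⟨P, hP⟩ : ∃ P : Finset ℕ, P = (Finset.range (N + 1)).filter Nat.Prime := ⟨_, rfl⟩
  have hQ : P.filter (fun p => p ≤ y) = (Finset.range (y + 1)).filter Nat.Prime := by
    ext p
    rw [hP, mem_filter, mem_filter, mem_filter, mem_range, mem_range]
    constructor
    · rintro ⟨⟨_, h2⟩, h3⟩
      exact ⟨by omega, h2⟩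
    · rintro ⟨h1, h2⟩
      exact ⟨⟨by omega, h2⟩, by omega⟩
  obtain ⟨g, hg⟩ : ∃ g : ℕ → ℝ, g = fun p => (if p ≤ y then z else 1) * (1 / (p : ℝ)) := ⟨_, rfl⟩
  have h0 : ∀ p ∈ (Finset.range (N + 1)).filter Nat.Prime, 0 ≤ g p := by
    intro p _
    rw [hg]
    dsimp only
    split_ifs
    · positivity
    · positivity
  have h1 : ∀ p ∈ (Finset.range (N + 1)).filter Nat.Prime, g p ≤ 3 / 2 * (1 / p) := by
    intro p _
    rw [hg]
    dsimp only
    refine mul_le_mul_of_nonneg_right ?_ (by positivity)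
    split_ifs
    · exact hz2
    · norm_num
  have h2 := als_eul N g h0 h1
  rw [← hP] at h2
  have h3 : ∑ m ∈ Icc 1 N, z ^ Om y m / m = ∑ m ∈ Icc 1 N, ∏ p ∈ P, g p ^ m.factorization p := by
    refine Finset.sum_congr rfl fun m hm => ?_
    obtain ⟨hm1, hm2⟩ := mem_Icc.1 hm
    have h4 := als_prod (y := N) hm1 fun p hp hd => (Nat.le_of_dvd (by omega) hd).trans hm2
    rw [← hP] at h4
    have h5 : z ^ Om y m = ∏ p ∈ P, (if p ≤ y then z else 1) ^ m.factorization p := by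
      rw [als_Om, ← hQ, Finset.prod_filter]
      refine Finset.prod_congr rfl fun p _ => ?_
      split_ifs
      · rfl
      · rw [one_pow]
    conv_lhs => rw [h4, h5]
    rw [← Finset.prod_div_distrib]
    refine Finset.prod_congr rfl fun p _ => ?_
    rw [hg, mul_pow, one_div, inv_pow, div_eq_mul_inv]
  rw [h3]
  have h6 : ∑ p ∈ P, g p = (∑ p ∈ P, 1 / (p : ℝ)) +
      (z - 1) * ∑ p ∈ (Finset.range (y + 1)).filter Nat.Prime, 1 / (p : ℝ) := by
    rw [← hQ, Finset.sum_filter, Finset.mul_sum, ← Finset.sum_add_distrib]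
    refine Finset.sum_congr rfl fun p _ => ?_
    rw [hg]
    dsimp only
    split_ifs
    · ring
    · ring
  have m1 := als_mert (show 2 ≤ N by omega)
  have m2 := als_mert hy4
  have m3 := als_low hy4
  rw [← hP, ← hΛ] at m1
  have l1 : Real.log (Real.log y) ≤ Λ := by
    rw [hΛ]
    exact Real.log_le_log hly0 (Real.log_le_log (by exact_mod_cast (by omega : 0 < y))
      (by exact_mod_cast hyN))
  have l2 : (1 - 1 / 100000) * Λ - 1 ≤ Real.log (Real.log y) := by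
    have h7 := Real.log_le_log (mul_pos (by norm_num) (Real.rpow_pos_of_pos hlN0 _)) hy1
    rw [Real.log_mul (by norm_num) (Real.rpow_pos_of_pos hlN0 _).ne', Real.log_rpow hlN0,
      ← hΛ] at h7
    have h8 : Real.log (1 / 2) = - Real.log 2 := by
      rw [one_div, Real.log_inv]
    have h9 := Real.log_two_lt_d9
    linarith
  generalize Real.log (Real.log y) = L at m2 m3 l1 l2
  generalize ∑ p ∈ (Finset.range (y + 1)).filter Nat.Prime, 1 / (p : ℝ) = A at h6 m2 m3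
  generalize ∑ p ∈ P, 1 / (p : ℝ) = B at h6 m1
  have h7 : ∑ p ∈ P, g p ≤ (z + 1 / 100000) * Λ + 30 := by
    rw [h6]
    rcases le_total 1 z with h | h
    · have h8 : (z - 1) * A ≤ (z - 1) * (Λ + 3.4) :=
        mul_le_mul_of_nonneg_left (by linarith) (by linarith)
      nlinarith
    · have h8 : (1 - z) * ((1 - 1 / 100000) * Λ - 19) ≤ (1 - z) * A :=
        mul_le_mul_of_nonneg_left (by linarith) (by linarith)
      nlinarith
  refine h2.trans ?_
  have h8 : (Real.log N) ^ (z + 5 / 100000 : ℝ) =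
      Real.exp (Λ * (z + 1 / 100000)) * (Real.log N) ^ (4 / 100000 : ℝ) := by
    rw [hΛ, ← Real.rpow_def_of_pos hlN0, ← Real.rpow_add hlN0]
    congr 1
    ring
  rw [h8]
  have h9 : Real.exp ((∑ p ∈ P, g p) + 18) ≤ Real.exp (Λ * (z + 1 / 100000)) * Real.exp 100 := by
    rw [← Real.exp_add]
    exact Real.exp_le_exp.2 (by linarith)
  exact h9.trans (mul_le_mul_of_nonneg_left hX (Real.exp_pos _).le)

end Pool.Agent.BDT
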