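import Pool.Agent.BDT.WSum

/-!
# BDT-HSum: harmonic sums over `(A, N]`

Induction over the doublings `A → 2 A`: a block `(A, min (2 A) N]` contributes at most `2 L` by `wsum`, where
`L = (log N) ^ (z - 1 - k + 4 δ)`, and there are at most `2 log N` blocks.
-/

open Finset

namespace Pool.Agent.BDT

private theorem blk {N : ℕ} {L : ℝ} (w : ℕ → ℝ) (hw : ∀ m, 0 ≤ w m) (hL : 0 ≤ L) {B : ℝ}
    (hB : 0 < B) (h : ∀ X : ℕ, B ≤ X → X ≤ N → ∑ m ∈ Icc 1 X, w m ≤ X * L) :
    ∀ j A : ℕ, B ≤ A → N ≤ 2 ^ j * A → ∑ m ∈ Ioc A N, w m / m ≤ 2 * j * L := by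
  intro j
  induction j with
  | zero =>
    intro A _ hN
    rw [Ioc_eq_empty (by omega)]
    simp
  | succ j ih =>
    intro A hA hN
    have hA0 : (0 : ℝ) < A := lt_of_lt_of_le hB hA
    have hjL : (0 : ℝ) ≤ 2 * (j : ℝ) * L := by positivity
    have h2A : ∑ m ∈ Ioc (2 * A) N, w m / m ≤ 2 * j * L := by
      refine ih (2 * A) ?_ ?_
      · push_cast
        linarith
      · calc N ≤ 2 ^ (j + 1) * A := hN
          _ = 2 ^ j * (2 * A) := by ring
    rcases Nat.lt_or_ge A N with hAN | hAN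
    · set X := min (2 * A) N with hX
      have hXA : A ≤ X := le_min (by omega) hAN.le
      have hsub : Ioc A N ⊆ Ioc A X ∪ Ioc (2 * A) N := by
        intro m hm
        rw [mem_Ioc] at hm
        rw [mem_union, mem_Ioc, mem_Ioc]
        rcases Nat.lt_or_ge (2 * A) m with h3 | h3
        · exact Or.inr ⟨h3, hm.2⟩
        · exact Or.inl ⟨hm.1, le_min h3 hm.2⟩
      have hnn : ∀ m : ℕ, 0 ≤ w m / m := fun m => div_nonneg (hw m) (Nat.cast_nonneg m)
      have h1 : ∑ m ∈ Ioc A N, w m / m ≤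
          ∑ m ∈ Ioc A X, w m / m + ∑ m ∈ Ioc (2 * A) N, w m / m := by
        refine (sum_le_sum_of_subset_of_nonneg hsub fun m _ _ => hnn m).trans ?_
        have := sum_union_inter (s₁ := Ioc A X) (s₂ := Ioc (2 * A) N) (f := fun m => w m / (m : ℝ))
        have h4 : 0 ≤ ∑ m ∈ Ioc A X ∩ Ioc (2 * A) N, w m / (m : ℝ) := sum_nonneg fun m _ => hnn m
        linarith
      have h2 : ∑ m ∈ Ioc A X, w m / m ≤ 2 * L := by
        have h3 : ∑ m ∈ Ioc A X, w m / m ≤ ∑ m ∈ Ioc A X, w m / A := by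
          refine sum_le_sum fun m hm => ?_
          rw [mem_Ioc] at hm
          have hm1 : (A : ℝ) ≤ m := by exact_mod_cast hm.1.le
          exact div_le_div_of_nonneg_left (hw m) hA0 hm1
        have h4 : ∑ m ∈ Ioc A X, w m ≤ ∑ m ∈ Icc 1 X, w m := by
          refine sum_le_sum_of_subset_of_nonneg ?_ fun m _ _ => hw m
          intro m hm
          rw [mem_Ioc] at hm
          rw [mem_Icc]
          exact ⟨by omega, hm.2⟩
        have h5 := h X (hA.trans (by exact_mod_cast hXA)) (min_le_right _ _)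
        have h6 : (X : ℝ) ≤ 2 * A := by
          have : X ≤ 2 * A := min_le_left _ _
          exact_mod_cast this
        rw [← sum_div] at h3
        refine h3.trans ?_
        rw [div_le_iff₀ hA0]
        calc ∑ m ∈ Ioc A X, w m ≤ X * L := h4.trans h5
          _ ≤ 2 * A * L := mul_le_mul_of_nonneg_right h6 hL
          _ = 2 * L * A := by ring
      push_cast
      linarith
    · rw [Ioc_eq_empty (by omega)]
      push_cast
      simp only [sum_empty]
      positivity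

theorem hsum (z : ℝ) (hz : 1 / 2 ≤ z) (hz2 : z ≤ 3 / 2) : ∃ N₀ : ℕ, ∀ N : ℕ, N₀ ≤ N →
    ∀ C : Finset ℕ, C.card ≤ 2 → (∀ c ∈ C, 1 ≤ c ∧ c ≤ N ^ 2) → ∀ A : ℕ,
      (N : ℝ) ^ (1 / 1000 : ℝ) ≤ A →
        ∑ m ∈ (Ioc A N).filter (fun m => ok (yy N) C m), z ^ Om (yy N) m / m ≤
          (Real.log N) ^ (z - C.card + 5 / 100000 : ℝ) := by
  obtain ⟨N₁, hN₁⟩ := wsum z hz hz2
  have hlog : Filter.Tendsto (fun N : ℕ => Real.log N) Filter.atTop Filter.atTop :=
    Real.tendsto_log_atTop.comp tendsto_natCast_atTop_atTop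
  have ev1 := hlog.eventually_ge_atTop 2
  have ev2 := ((tendsto_rpow_atTop (y := (1 / 100000 : ℝ)) (by norm_num)).comp
    hlog).eventually_ge_atTop 4
  obtain ⟨N₂, hN₂⟩ := Filter.eventually_atTop.1 (ev1.and ev2)
  refine ⟨max 1 (max N₁ N₂), fun N hN C hC hCN A hA => ?_⟩
  have hN1 : N₁ ≤ N := le_trans (le_trans (le_max_left _ _) (le_max_right _ _)) hN
  have hN2 : N₂ ≤ N := le_trans (le_trans (le_max_right _ _) (le_max_right _ _)) hN
  have hN0 : 1 ≤ N := le_trans (le_max_left _ _) hN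
  obtain ⟨hl2, hl4⟩ := hN₂ N hN2
  have hl4' : (4 : ℝ) ≤ Real.log N ^ (1 / 100000 : ℝ) := hl4
  have hl0 : 0 < Real.log N := by linarith
  set L : ℝ := (Real.log N) ^ (z - 1 - C.card + 4 / 100000 : ℝ) with hLdef
  have hL0 : 0 ≤ L := Real.rpow_nonneg hl0.le _
  classical
  set w : ℕ → ℝ := fun m => if ok (yy N) C m then z ^ Om (yy N) m else 0 with hw
  have hw0 : ∀ m, 0 ≤ w m := by
    intro m
    rw [hw]
    dsimp only
    split_ifs
    · exact pow_nonneg (by linarith) _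
    · exact le_rfl
  have hB : (0 : ℝ) < (N : ℝ) ^ (1 / 1000 : ℝ) := by
    have : (0 : ℝ) < N := by exact_mod_cast hN0
    positivity
  have hX : ∀ X : ℕ, (N : ℝ) ^ (1 / 1000 : ℝ) ≤ X → X ≤ N → ∑ m ∈ Icc 1 X, w m ≤ X * L := by
    intro X h1 h2
    have := hN₁ N hN1 C hC hCN X h1 h2
    rw [sum_filter] at this
    exact this
  have hj : N ≤ 2 ^ (Nat.log 2 N + 1) * A := by
    have hA1 : 1 ≤ A := by
      have : (0 : ℝ) < A := lt_of_lt_of_le hB hA
      exact_mod_cast this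
    calc N ≤ 2 ^ (Nat.log 2 N + 1) := (Nat.lt_pow_succ_log_self (by norm_num) N).le
      _ ≤ 2 ^ (Nat.log 2 N + 1) * A := Nat.le_mul_of_pos_right _ hA1
  have key := blk w hw0 hL0 hB hX (Nat.log 2 N + 1) A hA hj
  have hsum : ∑ m ∈ (Ioc A N).filter (fun m => ok (yy N) C m), z ^ Om (yy N) m / m =
      ∑ m ∈ Ioc A N, w m / m := by
    rw [sum_filter]
    refine sum_congr rfl fun m _ => ?_
    rw [hw]
    dsimp only
    split_ifs
    · rfl
    · rw [zero_div]
  rw [hsum]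
  refine key.trans ?_
  have hjr : ((Nat.log 2 N + 1 : ℕ) : ℝ) ≤ 2 * Real.log N := by
    have h1 : ((Nat.log 2 N : ℕ) : ℝ) ≤ Real.logb 2 N := by
      have := Real.natLog_le_logb N 2
      exact_mod_cast this
    have h2 : Real.logb 2 N ≤ 3 / 2 * Real.log N := by
      rw [Real.logb, div_le_iff₀ (Real.log_pos (by norm_num))]
      have h3 := Real.log_two_gt_d9
      nlinarith
    push_cast
    linarith
  have hsplit : (Real.log N) ^ (z - C.card + 5 / 100000 : ℝ) =
      Real.log N * Real.log N ^ (1 / 100000 : ℝ) * L := by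
    rw [hLdef]
    nth_rewrite 2 [← Real.rpow_one (Real.log N)]
    rw [← Real.rpow_add hl0, ← Real.rpow_add hl0]
    congr 1
    ring
  rw [hsplit]
  refine mul_le_mul_of_nonneg_right ?_ hL0
  nlinarith

end Pool.Agent.BDT
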