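import Pool.Agent.BDT.Dec
import Pool.Agent.BDT.HSum
import Pool.Agent.BDT.AllS

/-!
# BDT-PBd (0.9h): bound for the sum over pairs

`hsum` (`z = 1/2`) with `C = {1}`, `{g}`, `{a}`, `{a, b}` (card 1, 1, 1, 2; all elements between 1 and `N ≤ N²`), `AA N, BB N ≥ N^(1/1000)` (`BB N ≥ N^(8/1000) - 1`), and `alls` (`z = 1/2`) for the sums over all `g ≤ N` and over `a ≤ AA N ≤ N`.
With `l = log N`, `δ = 10^(-5)`: first `≤ l^(-1/2+5δ)`; second `≤ l^(1/2+5δ) l^(2(-1/2+5δ))`; third `≤ 2 l^(1/2+5δ) l^(-1/2+5δ) l^(-1/2+5δ)`; fourth `≤ l^(2(1/2+5δ)) l^(1/2-2+5δ)`. Total `≤ 5 l^(-1/2+15δ) ≤ l^(-1/2+30δ)`.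
-/

open Finset Pool.Agent.BDN

namespace Pool.Agent.BDT

private theorem ww_nonneg (N m : ℕ) : 0 ≤ ww N m := by
  unfold ww
  positivity

private theorem large1 : ∀ᶠ N : ℕ in Filter.atTop, (5 : ℝ) ≤ (Real.log N) ^ (15 / 100000 : ℝ) := by
  have h1 : Filter.Tendsto (fun N : ℕ => (Real.log N) ^ (15 / 100000 : ℝ)) Filter.atTop
      Filter.atTop :=
    (tendsto_rpow_atTop (by norm_num)).comp (Real.tendsto_log_atTop.comp
      tendsto_natCast_atTop_atTop)
  exact h1.eventually_ge_atTop 5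

private theorem large2 : ∀ᶠ N : ℕ in Filter.atTop, (1 : ℝ) ≤ Real.log N := by
  have h1 : Filter.Tendsto (fun N : ℕ => Real.log N) Filter.atTop Filter.atTop :=
    Real.tendsto_log_atTop.comp tendsto_natCast_atTop_atTop
  exact h1.eventually_ge_atTop 1

private theorem large3 : ∀ᶠ N : ℕ in Filter.atTop, (N : ℝ) ^ (1 / 1000 : ℝ) ≤ (BB N : ℝ) := by
  have h1 : Filter.Tendsto (fun N : ℕ => (N : ℝ) ^ (1 / 1000 : ℝ)) Filter.atTop
      Filter.atTop :=
    (tendsto_rpow_atTop (by norm_num)).comp tendsto_natCast_atTop_atTop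
  filter_upwards [h1.eventually_ge_atTop 2] with N hN
  set x : ℝ := (N : ℝ) ^ (1 / 1000 : ℝ) with hx
  have h8 : (N : ℝ) ^ (8 / 1000 : ℝ) = x ^ 8 := by
    rw [hx, ← Real.rpow_natCast, ← Real.rpow_mul (Nat.cast_nonneg N)]
    norm_num
  have h9 : (N : ℝ) ^ (8 / 1000 : ℝ) < (BB N : ℝ) + 1 := by
    unfold BB
    exact Nat.lt_floor_add_one _
  have h10 : x + 1 ≤ x ^ 8 := by
    have h2 : x ^ 2 ≤ x ^ 8 := pow_le_pow_right₀ (by linarith) (by norm_num)
    nlinarith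
  linarith

private theorem large4 (N : ℕ) (hN : 1 ≤ N) : AA N ≤ N := by
  unfold AA
  rw [Nat.ceil_le]
  have h1 : (1 : ℝ) ≤ N := by exact_mod_cast hN
  calc (N : ℝ) ^ (1 / 1000 : ℝ) ≤ (N : ℝ) ^ (1 : ℝ) :=
        Real.rpow_le_rpow_of_exponent_le h1 (by norm_num)
    _ = N := Real.rpow_one _

theorem pbd : ∃ N₀ : ℕ, ∀ N : ℕ, N₀ ≤ N → PP N ≤ (Real.log N) ^ (-(1 / 2) + 3 / 10000 : ℝ) := by
  obtain ⟨N1, h1⟩ := dec
  obtain ⟨N2, h2⟩ := hsum (1 / 2) le_rfl (by norm_num)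
  obtain ⟨N3, h3⟩ := alls (1 / 2) le_rfl (by norm_num)
  obtain ⟨N4, h4⟩ := Filter.eventually_atTop.1
    (large1.and (large2.and (large3.and (Filter.eventually_ge_atTop (1 : ℕ)))))
  refine ⟨N1 + N2 + N3 + N4, fun N hN => ?_⟩
  replace h1 := h1 N (by omega)
  replace h2 := h2 N (by omega)
  replace h3 := h3 N (by omega)
  obtain ⟨hl5, hl1, hB, hN1⟩ := h4 N (by omega)
  have hA : (N : ℝ) ^ (1 / 1000 : ℝ) ≤ (AA N : ℝ) := Nat.le_ceil _
  have hAN : AA N ≤ N := large4 N hN1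
  set l : ℝ := Real.log N with hl
  have hl0 : 0 < l := by linarith
  have hNN : N ≤ N ^ 2 := Nat.le_self_pow (by norm_num) N
  -- the basic bounds
  have hs : ∀ c : ℕ, 1 ≤ c → c ≤ N → ∀ A : ℕ, (N : ℝ) ^ (1 / 1000 : ℝ) ≤ A →
      ∑ m ∈ (Ioc A N).filter (fun m => ok (yy N) {c} m), ww N m ≤
        l ^ (-(1 / 2) + 5 / 100000 : ℝ) := by
    intro c hc1 hc2 A hA'
    have h := h2 {c} (by simp) (by simp; exact ⟨hc1, le_trans hc2 hNN⟩) A hA'
    have he : ((1 / 2 : ℝ) - (({c} : Finset ℕ).card : ℝ) + 5 / 100000) =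
        -(1 / 2) + 5 / 100000 := by
      rw [Finset.card_singleton]
      norm_num
    rw [he] at h
    exact h
  have hs2 : ∀ a b : ℕ, 1 ≤ a → a ≤ N → 1 ≤ b → b ≤ N → a ≠ b → ∀ A : ℕ,
      (N : ℝ) ^ (1 / 1000 : ℝ) ≤ A →
      ∑ m ∈ (Ioc A N).filter (fun m => ok (yy N) {a, b} m), ww N m ≤
        l ^ (-(3 / 2) + 5 / 100000 : ℝ) := by
    intro a b ha1 ha2 hb1 hb2 hab A hA'
    have hc : ({a, b} : Finset ℕ).card = 2 := Finset.card_pair hab
    have h := h2 {a, b} (by rw [hc]) (by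
      intro c hc
      simp only [Finset.mem_insert, Finset.mem_singleton] at hc
      rcases hc with rfl | rfl
      · exact ⟨ha1, le_trans ha2 hNN⟩
      · exact ⟨hb1, le_trans hb2 hNN⟩) A hA'
    have he : ((1 / 2 : ℝ) - (({a, b} : Finset ℕ).card : ℝ) + 5 / 100000) =
        -(3 / 2) + 5 / 100000 := by
      rw [hc]
      norm_num
    rw [he] at h
    exact h
  have hall : ∑ m ∈ Icc 1 N, ww N m ≤ l ^ (1 / 2 + 5 / 100000 : ℝ) := h3
  have hallA : ∑ m ∈ Icc 1 (AA N), ww N m ≤ l ^ (1 / 2 + 5 / 100000 : ℝ) := by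
    refine le_trans ?_ hall
    exact Finset.sum_le_sum_of_subset_of_nonneg (Finset.Icc_subset_Icc le_rfl hAN)
      fun i _ _ => ww_nonneg N i
  set U : ℝ := l ^ (1 / 2 + 5 / 100000 : ℝ) with hU
  set V : ℝ := l ^ (-(1 / 2) + 5 / 100000 : ℝ) with hV
  set W : ℝ := l ^ (-(3 / 2) + 5 / 100000 : ℝ) with hW
  set Z : ℝ := l ^ (-(1 / 2) + 15 / 100000 : ℝ) with hZ
  have hU0 : 0 < U := Real.rpow_pos_of_pos hl0 _
  have hV0 : 0 < V := Real.rpow_pos_of_pos hl0 _
  have hW0 : 0 < W := Real.rpow_pos_of_pos hl0 _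
  have hZ0 : 0 < Z := Real.rpow_pos_of_pos hl0 _
  have hVZ : V ≤ Z := Real.rpow_le_rpow_of_exponent_le hl1 (by norm_num)
  have hUVV : U * V ^ 2 = Z := by
    rw [hU, hV, hZ, pow_two, ← Real.rpow_add hl0, ← Real.rpow_add hl0]
    norm_num
  have hUUW : U * U * W = Z := by
    rw [hU, hW, hZ, ← Real.rpow_add hl0, ← Real.rpow_add hl0]
    norm_num
  -- first sum
  have T1 : ∑ m ∈ (Ioc (AA N) N).filter (fun m => ok (yy N) {1} m), ww N m ≤ Z :=
    le_trans (hs 1 le_rfl hN1 _ hA) hVZ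
  -- second sum
  have T2 : ∑ g ∈ Icc 1 N, ww N g *
      (∑ a ∈ (Ioc (AA N) N).filter (fun a => ok (yy N) {g} a), ww N a) ^ 2 ≤ Z := by
    calc ∑ g ∈ Icc 1 N, ww N g *
          (∑ a ∈ (Ioc (AA N) N).filter (fun a => ok (yy N) {g} a), ww N a) ^ 2
        ≤ ∑ g ∈ Icc 1 N, ww N g * V ^ 2 := by
          refine Finset.sum_le_sum fun g hg => ?_
          rw [Finset.mem_Icc] at hg
          refine mul_le_mul_of_nonneg_left ?_ (ww_nonneg N g)
          exact pow_le_pow_left₀ (Finset.sum_nonneg fun i _ => ww_nonneg N i)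
            (hs g hg.1 hg.2 _ hA) 2
      _ = (∑ g ∈ Icc 1 N, ww N g) * V ^ 2 := by rw [Finset.sum_mul]
      _ ≤ U * V ^ 2 := mul_le_mul_of_nonneg_right hall (by positivity)
      _ = Z := hUVV
  -- third sum
  have T3 : ∑ a ∈ Icc 1 (AA N), ww N a * ∑ g ∈ (Ioc (BB N) N).filter
      (fun g => ok (yy N) {a} g), ww N g *
      ∑ b ∈ (Ioc (AA N) N).filter (fun b => ok (yy N) {g} b), ww N b ≤ Z := by
    calc ∑ a ∈ Icc 1 (AA N), ww N a * ∑ g ∈ (Ioc (BB N) N).filter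
          (fun g => ok (yy N) {a} g), ww N g *
          ∑ b ∈ (Ioc (AA N) N).filter (fun b => ok (yy N) {g} b), ww N b
        ≤ ∑ a ∈ Icc 1 (AA N), ww N a * (V * V) := by
          refine Finset.sum_le_sum fun a ha => ?_
          rw [Finset.mem_Icc] at ha
          refine mul_le_mul_of_nonneg_left ?_ (ww_nonneg N a)
          calc ∑ g ∈ (Ioc (BB N) N).filter (fun g => ok (yy N) {a} g), ww N g *
                ∑ b ∈ (Ioc (AA N) N).filter (fun b => ok (yy N) {g} b), ww N b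
              ≤ ∑ g ∈ (Ioc (BB N) N).filter (fun g => ok (yy N) {a} g), ww N g * V := by
                refine Finset.sum_le_sum fun g hg => ?_
                rw [Finset.mem_filter, Finset.mem_Ioc] at hg
                exact mul_le_mul_of_nonneg_left (hs g (by omega) hg.1.2 _ hA)
                  (ww_nonneg N g)
            _ = (∑ g ∈ (Ioc (BB N) N).filter (fun g => ok (yy N) {a} g), ww N g) * V := by
                rw [Finset.sum_mul]
            _ ≤ V * V := mul_le_mul_of_nonneg_right (hs a ha.1 (le_trans ha.2 hAN) _ hB) hV0.le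
      _ = (∑ a ∈ Icc 1 (AA N), ww N a) * (V * V) := by rw [Finset.sum_mul]
      _ ≤ U * (V * V) := mul_le_mul_of_nonneg_right hallA (by positivity)
      _ = Z := by rw [← hUVV, pow_two]
  -- fourth sum
  have T4 : ∑ a ∈ Icc 1 (AA N), ∑ b ∈ (Icc 1 (AA N)).erase a, ww N a * ww N b *
      ∑ g ∈ (Ioc (BB N) N).filter (fun g => ok (yy N) {a, b} g), ww N g ≤ Z := by
    calc ∑ a ∈ Icc 1 (AA N), ∑ b ∈ (Icc 1 (AA N)).erase a, ww N a * ww N b *
          ∑ g ∈ (Ioc (BB N) N).filter (fun g => ok (yy N) {a, b} g), ww N g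
        ≤ ∑ a ∈ Icc 1 (AA N), ∑ b ∈ (Icc 1 (AA N)).erase a, ww N a * ww N b * W := by
          refine Finset.sum_le_sum fun a ha => Finset.sum_le_sum fun b hb => ?_
          rw [Finset.mem_Icc] at ha
          rw [Finset.mem_erase, Finset.mem_Icc] at hb
          exact mul_le_mul_of_nonneg_left (hs2 a b ha.1 (le_trans ha.2 hAN) hb.2.1
            (le_trans hb.2.2 hAN) (fun h => hb.1 h.symm) _ hB)
            (mul_nonneg (ww_nonneg N a) (ww_nonneg N b))
      _ ≤ ∑ a ∈ Icc 1 (AA N), ∑ b ∈ Icc 1 (AA N), ww N a * ww N b * W := by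
          refine Finset.sum_le_sum fun a _ => ?_
          exact Finset.sum_le_sum_of_subset_of_nonneg (Finset.erase_subset _ _)
            fun i _ _ => mul_nonneg (mul_nonneg (ww_nonneg N a) (ww_nonneg N i)) hW0.le
      _ = (∑ a ∈ Icc 1 (AA N), ww N a) * (∑ b ∈ Icc 1 (AA N), ww N b) * W := by
          rw [Finset.sum_mul_sum, Finset.sum_mul]
          refine Finset.sum_congr rfl fun a _ => ?_
          rw [Finset.sum_mul]
      _ ≤ U * U * W := by
          refine mul_le_mul_of_nonneg_right ?_ hW0.le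
          exact mul_le_mul hallA hallA (Finset.sum_nonneg fun i _ => ww_nonneg N i) hU0.le
      _ = Z := hUUW
  have htot : PP N ≤ 5 * Z := by
    refine le_trans h1 ?_
    linarith
  refine le_trans htot ?_
  calc 5 * Z ≤ l ^ (15 / 100000 : ℝ) * Z := mul_le_mul_of_nonneg_right hl5 hZ0.le
    _ = l ^ (-(1 / 2) + 3 / 10000 : ℝ) := by
        rw [hZ, ← Real.rpow_add hl0]
        norm_num

end Pool.Agent.BDT
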