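import Pool.Agent.BDT.Res
import Pool.Agent.BDN.RPE
import Pool.Agent.Helper98.Bern.AL

/-!
# BDL-BInt (1.3h): an integral multiple of the Bernoulli polynomial

`d = primorial (e+1)` (product of the primes `≤ e + 1`). `d * B_k` is an integer for `k ≤ e`: `Bernoulli.vonStaudt_clausen`.
-/

open Polynomial Finset Pool.Agent.Helper29 Pool.Agent.BDN

namespace Pool.Agent.BDT

private theorem dvd_prim {p n : ℕ} (hp : p.Prime) (h : p ≤ n) : p ∣ primorial n := by
  unfold primorial
  exact Finset.dvd_prod_of_mem _ (by rw [mem_filter, mem_range]; exact ⟨by omega, hp⟩)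

private theorem prim_int {e k : ℕ} (he : 1 ≤ e) (hk : k ≤ e) :
    ∃ z : ℤ, (primorial (e + 1) : ℚ) * _root_.bernoulli k = z := by
  rcases Nat.even_or_odd k with ⟨j, hj⟩ | hodd
  · have hkj : k = 2 * j := by omega
    subst hkj
    obtain ⟨z, hz⟩ := Bernoulli.vonStaudt_clausen j
    have h1 : _root_.bernoulli (2 * j) = (z : ℚ) -
        ∑ q ∈ range (2 * j + 2) with q.Prime ∧ (q - 1) ∣ 2 * j, ((1 : ℚ) / q) := by
      linear_combination -hz
    refine ⟨primorial (e + 1) * z - ∑ q ∈ range (2 * j + 2) with q.Prime ∧ (q - 1) ∣ 2 * j,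
      ((primorial (e + 1) / q : ℕ) : ℤ), ?_⟩
    rw [h1, mul_sub, Finset.mul_sum, Int.cast_sub, Int.cast_mul, Int.cast_natCast, Int.cast_sum]
    congr 1
    refine Finset.sum_congr rfl fun q hq => ?_
    rw [mem_filter, mem_range] at hq
    rw [Int.cast_natCast]
    have hq0 : (q : ℚ) ≠ 0 := by exact_mod_cast hq.2.1.ne_zero
    have h2 : q ∣ primorial (e + 1) := dvd_prim hq.2.1 (by omega)
    obtain ⟨m, hm⟩ := h2
    rw [hm, Nat.mul_div_cancel_left _ hq.2.1.pos]
    push_cast
    field_simp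
  · rcases Nat.lt_or_ge 1 k with h1 | h1
    · exact ⟨0, by rw [bernoulli_eq_zero_of_odd hodd h1]; simp⟩
    · have hk1 : k = 1 := by
        rcases hodd with ⟨j, hj⟩
        omega
      subst hk1
      obtain ⟨m, hm⟩ := dvd_prim (n := e + 1) Nat.prime_two (by omega)
      refine ⟨-m, ?_⟩
      rw [_root_.bernoulli_one, hm]
      push_cast
      ring

private theorem bern'_le (n : ℕ) : |bernoulli' n| ≤ 2 ^ n * n.factorial := by
  induction n using Nat.strong_induction_on with
  | _ n ih =>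
    rcases Nat.eq_zero_or_pos n with rfl | hn
    · simp
    rw [bernoulli'_def]
    have h1 : |∑ k ∈ range n, (n.choose k : ℚ) / (n - k + 1) * bernoulli' k| ≤
        ∑ k ∈ range n, (2 : ℚ) ^ k * n.factorial / 2 := by
      refine (Finset.abs_sum_le_sum_abs _ _).trans (Finset.sum_le_sum fun k hk => ?_)
      rw [mem_range] at hk
      have hd : (2 : ℚ) ≤ (n : ℚ) - k + 1 := by
        have : (k : ℚ) + 1 ≤ n := by exact_mod_cast hk
        linarith
      rw [abs_mul, abs_div, abs_of_nonneg (by positivity : (0 : ℚ) ≤ n.choose k),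
        abs_of_nonneg (by linarith : (0 : ℚ) ≤ (n : ℚ) - k + 1)]
      have h2 := ih k hk
      have h3 : (n.choose k : ℚ) * k.factorial ≤ n.factorial := by
        have h4 : n.choose k * k.factorial ≤ n.factorial := by
          have h5 := Nat.choose_mul_factorial_mul_factorial hk.le
          have h6 : 1 ≤ (n - k).factorial := Nat.factorial_pos _
          calc n.choose k * k.factorial ≤ n.choose k * k.factorial * (n - k).factorial :=
                Nat.le_mul_of_pos_right _ h6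
            _ = n.factorial := h5
        exact_mod_cast h4
      calc (n.choose k : ℚ) / ((n : ℚ) - k + 1) * |bernoulli' k|
          ≤ (n.choose k : ℚ) / 2 * (2 ^ k * k.factorial) := by gcongr
        _ = 2 ^ k * (n.choose k * k.factorial) / 2 := by ring
        _ ≤ 2 ^ k * n.factorial / 2 := by gcongr
    have h2 : ∑ k ∈ range n, (2 : ℚ) ^ k * n.factorial / 2 = (2 ^ n - 1) * n.factorial / 2 := by
      rw [← Finset.sum_div, ← Finset.sum_mul]
      congr 2
      have := geom_sum_eq (by norm_num : (2 : ℚ) ≠ 1) n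
      rw [this]; norm_num
    have h3 : |(1 : ℚ) - ∑ k ∈ range n, (n.choose k : ℚ) / (n - k + 1) * bernoulli' k| ≤
        1 + |∑ k ∈ range n, (n.choose k : ℚ) / (n - k + 1) * bernoulli' k| := by
      have := abs_sub (1 : ℚ) (∑ k ∈ range n, (n.choose k : ℚ) / (n - k + 1) * bernoulli' k)
      simpa using this
    have h4 : (1 : ℚ) ≤ n.factorial := by exact_mod_cast Nat.factorial_pos n
    have h5 : (2 : ℚ) ≤ 2 ^ n := by
      calc (2 : ℚ) = 2 ^ 1 := by norm_num
        _ ≤ 2 ^ n := pow_le_pow_right₀ (by norm_num) hn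
    refine h3.trans ?_
    have h6 := h1.trans_eq h2
    nlinarith

private theorem bern_le (n : ℕ) : |_root_.bernoulli n| ≤ 2 ^ n * n.factorial := by
  rcases eq_or_ne n 1 with rfl | h
  · rw [_root_.bernoulli_one]; norm_num [abs_of_neg]
  · rw [bernoulli_eq_bernoulli'_of_ne_one h]
    exact bern'_le n

theorem bern_int : ∃ C : ℝ, 0 < C ∧ ∀ e : ℕ, 1 ≤ e → ∃ (f : ℤ[X]) (d : ℕ), 0 < d ∧
    f.map (Int.castRingHom ℚ) = Polynomial.C (d : ℚ) * Polynomial.bernoulli e ∧ f.natDegree = e ∧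
    f.leadingCoeff = d ∧ (∀ p : ℕ, p.Prime → e + 2 ≤ p → ¬ p ∣ d) ∧ 1 ≤ l1 f ∧
    Real.log (l1 f) ≤ C * (e + 1) * Real.log (e + 1) := by
  refine ⟨4, by norm_num, fun e he => ?_⟩
  set d := primorial (e + 1) with hd
  have hd0 : 0 < d := primorial_pos _
  have hlift : ∀ i, ∃ z : ℤ, (Polynomial.C (d : ℚ) * Polynomial.bernoulli e).coeff i = z := by
    intro i
    rw [coeff_C_mul, coeff_bernoulli]
    split_ifs with h
    · obtain ⟨z, hz⟩ := prim_int he (show e - i ≤ e by omega)
      refine ⟨z * e.choose i, ?_⟩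
      push_cast
      rw [← hz, hd]
      ring
    · exact ⟨0, by simp⟩
  have hmem : Polynomial.C (d : ℚ) * Polynomial.bernoulli e ∈
      Polynomial.lifts (Int.castRingHom ℚ) := by
    rw [Polynomial.lifts_iff_coeff_lifts]
    intro i
    obtain ⟨z, hz⟩ := hlift i
    exact ⟨z, by rw [hz]; simp⟩
  obtain ⟨f, hf⟩ := (Polynomial.mem_lifts _).1 hmem
  have hdq : (d : ℚ) ≠ 0 := by exact_mod_cast hd0.ne'
  have hdeg : f.natDegree = e := by
    rw [← natDegree_map_eq_of_injective Int.cast_injective (f := Int.castRingHom ℚ) f, hf,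
      natDegree_C_mul hdq, natDegree_bernoulli]
  have hco : ∀ i, ((f.coeff i : ℤ) : ℚ) = d * (if i ≤ e then (_root_.bernoulli (e - i) * e.choose i) else 0) := by
    intro i
    have h1 : (f.map (Int.castRingHom ℚ)).coeff i = ((f.coeff i : ℤ) : ℚ) := by simp
    rw [← h1, hf, coeff_C_mul, coeff_bernoulli]
  have hlead : f.leadingCoeff = d := by
    have h1 := hco e
    rw [if_pos le_rfl, Nat.sub_self, _root_.bernoulli_zero, Nat.choose_self] at h1
    unfold Polynomial.leadingCoeff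
    rw [hdeg]
    have h2 : ((f.coeff e : ℤ) : ℚ) = ((d : ℤ) : ℚ) := by rw [h1]; simp
    exact_mod_cast h2
  have hl1 : 1 ≤ l1 f := by
    unfold l1
    have h1 : |(f.coeff f.natDegree : ℝ)| ≤ ∑ i ∈ range (f.natDegree + 1), |(f.coeff i : ℝ)| :=
      Finset.single_le_sum (f := fun i => |(f.coeff i : ℝ)|) (fun i _ => abs_nonneg _)
        (mem_range.2 (Nat.lt_succ_self _))
    have h2 : f.coeff f.natDegree = d := hlead
    rw [h2] at h1
    have h3 : (1 : ℝ) ≤ |((d : ℤ) : ℝ)| := by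
      have : (1 : ℝ) ≤ (d : ℝ) := by exact_mod_cast hd0
      push_cast
      exact this.trans (le_abs_self _)
    exact h3.trans h1
  refine ⟨f, d, hd0, hf, hdeg, hlead, ?_, hl1, ?_⟩
  · intro p hp hpe hdvd
    rw [hd] at hdvd
    unfold primorial at hdvd
    obtain ⟨q, hq, hpq⟩ := (Prime.dvd_finsetProd_iff hp.prime _).1 hdvd
    rw [mem_filter, mem_range] at hq
    have := (Nat.prime_dvd_prime_iff_eq hp hq.2).1 hpq
    omega
  · have hterm : ∀ i ∈ range (f.natDegree + 1), |(f.coeff i : ℝ)| ≤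
        4 ^ (e + 1) * 2 ^ e * ((e : ℝ) + 1) ^ e := by
      intro i hi
      rw [hdeg, mem_range] at hi
      have h1 := hco i
      rw [if_pos (by omega : i ≤ e)] at h1
      have h2 : (|(f.coeff i : ℤ)| : ℚ) ≤ d * (2 ^ e * (e + 1) ^ e) := by
        rw [h1, abs_mul, abs_of_nonneg (by positivity : (0 : ℚ) ≤ d), abs_mul,
          abs_of_nonneg (by positivity : (0 : ℚ) ≤ e.choose i)]
        have h3 := bern_le (e - i)
        have h4 : ((e - i).factorial : ℚ) * e.choose i ≤ (e + 1) ^ e := by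
          have h5 : (e - i).factorial * e.choose i = e.descFactorial (e - i) := by
            rw [Nat.descFactorial_eq_factorial_mul_choose, Nat.choose_symm (by omega)]
          have h6 : e.descFactorial (e - i) ≤ e ^ (e - i) := Nat.descFactorial_le_pow _ _
          have h7 : e ^ (e - i) ≤ (e + 1) ^ e :=
            (Nat.pow_le_pow_left (Nat.le_succ e) _).trans
              (Nat.pow_le_pow_right (Nat.succ_pos e) (Nat.sub_le _ _))
          have h8 : (e - i).factorial * e.choose i ≤ (e + 1) ^ e := by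
            rw [h5]; exact h6.trans h7
          exact_mod_cast h8
        have h9 : (2 : ℚ) ^ (e - i) ≤ 2 ^ e := pow_le_pow_right₀ (by norm_num) (Nat.sub_le _ _)
        calc (d : ℚ) * (|_root_.bernoulli (e - i)| * e.choose i)
            ≤ d * (2 ^ (e - i) * (e - i).factorial * e.choose i) := by gcongr
          _ = d * (2 ^ (e - i) * ((e - i).factorial * e.choose i)) := by ring
          _ ≤ d * (2 ^ e * (e + 1) ^ e) := by gcongr
      have h3 : |(f.coeff i : ℝ)| ≤ d * (2 ^ e * ((e : ℝ) + 1) ^ e) := by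
        have h4 : ((|f.coeff i| : ℤ) : ℚ) ≤ ((d * (2 ^ e * (e + 1) ^ e) : ℕ) : ℚ) := by
          push_cast
          exact h2
        have h5 : (|f.coeff i| : ℤ) ≤ ((d * (2 ^ e * (e + 1) ^ e) : ℕ) : ℤ) := by exact_mod_cast h4
        have h6 : ((|f.coeff i| : ℤ) : ℝ) ≤ (((d * (2 ^ e * (e + 1) ^ e) : ℕ) : ℤ) : ℝ) :=
          Int.cast_le.2 h5
        push_cast at h6
        exact h6
      have h4 : (d : ℝ) ≤ 4 ^ (e + 1) := by
        rw [hd]
        exact_mod_cast primorial_le_four_pow (e + 1)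
      calc |(f.coeff i : ℝ)| ≤ d * (2 ^ e * ((e : ℝ) + 1) ^ e) := h3
        _ ≤ 4 ^ (e + 1) * (2 ^ e * ((e : ℝ) + 1) ^ e) := by gcongr
        _ = _ := by ring
    have hsum : l1 f ≤ ((e : ℝ) + 1) * (4 ^ (e + 1) * 2 ^ e * ((e : ℝ) + 1) ^ e) := by
      unfold l1
      refine (Finset.sum_le_card_nsmul _ _ _ hterm).trans ?_
      rw [card_range, nsmul_eq_mul, hdeg]
      push_cast
      exact le_rfl
    have he1 : (2 : ℝ) ≤ (e : ℝ) + 1 := by
      have : (1 : ℝ) ≤ e := by exact_mod_cast he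
      linarith
    have hle : l1 f ≤ (((e : ℝ) + 1) ^ 4) ^ (e + 1) := by
      refine hsum.trans ?_
      have h1 : (4 : ℝ) ^ (e + 1) ≤ (((e : ℝ) + 1) ^ 2) ^ (e + 1) :=
        pow_le_pow_left₀ (by norm_num) (by nlinarith) _
      have h2 : (2 : ℝ) ^ e ≤ ((e : ℝ) + 1) ^ (e + 1) :=
        (pow_le_pow_left₀ (by norm_num) he1 _).trans
          (pow_le_pow_right₀ (by linarith) (Nat.le_succ e))
      calc ((e : ℝ) + 1) * (4 ^ (e + 1) * 2 ^ e * ((e : ℝ) + 1) ^ e)
          ≤ ((e : ℝ) + 1) * ((((e : ℝ) + 1) ^ 2) ^ (e + 1) * ((e : ℝ) + 1) ^ (e + 1) *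
            ((e : ℝ) + 1) ^ e) := by gcongr
        _ = (((e : ℝ) + 1) ^ 4) ^ (e + 1) := by
            rw [← pow_mul, ← pow_mul]
            ring
    have h0 : 0 < l1 f := by linarith
    have h1 := Real.log_le_log h0 hle
    rw [Real.log_pow, Real.log_pow] at h1
    push_cast at h1
    linarith

theorem pi_iff {e d p : ℕ} {f : ℤ[X]} (hp : p.Prime) (hd : ¬ p ∣ d)
    (hf : f.map (Int.castRingHom ℚ) = Polynomial.C (d : ℚ) * Polynomial.bernoulli e) (a : ℕ) :
    PI p ((Polynomial.bernoulli e).eval (a : ℚ) / p) ↔ (p : ℤ) ∣ f.eval (a : ℤ) := by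
  have hp0 : (p : ℚ) ≠ 0 := by exact_mod_cast hp.ne_zero
  have hev : ((f.eval (a : ℤ) : ℤ) : ℚ) = d * (Polynomial.bernoulli e).eval (a : ℚ) := by
    have h1 := congrArg (fun g => g.eval (a : ℚ)) hf
    simp only [eval_mul, eval_C] at h1
    rw [← h1]
    have h2 := Polynomial.eval_intCast_map (Int.castRingHom ℚ) f (a : ℤ)
    simp only [Int.cast_natCast, eq_intCast] at h2
    exact h2.symm
  have hpp : Prime (p : ℤ) := Nat.prime_iff_prime_int.1 hp
  constructor
  · rintro ⟨D, z, hD, hz⟩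
    have h1 : D * f.eval (a : ℤ) = z * p * d := by
      have h2 : ((D * f.eval (a : ℤ) : ℤ) : ℚ) = ((z * p * d : ℤ) : ℚ) := by
        push_cast
        rw [hev, ← hz]
        field_simp
      exact_mod_cast h2
    have h3 : (p : ℤ) ∣ D * f.eval (a : ℤ) := ⟨z * d, by rw [h1]; ring⟩
    exact (hpp.dvd_or_dvd h3).resolve_left hD
  · rintro ⟨m, hm⟩
    refine ⟨d, m, ?_, ?_⟩
    · intro h
      exact hd (by exact_mod_cast h)
    · rw [hm] at hev
      push_cast at hev ⊢
      field_simp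
      linarith

theorem rp_nzf {e d p : ℕ} {f : ℤ[X]} (hp : p.Prime) (hd : ¬ p ∣ d)
    (hf : f.map (Int.castRingHom ℚ) = Polynomial.C (d : ℚ) * Polynomial.bernoulli e) :
    rp p e = nzf f p := by
  classical
  rw [rp_eq, nzf_eq]
  congr 1
  refine Finset.filter_congr fun a _ => ?_
  exact pi_iff hp hd hf a

end Pool.Agent.BDT
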