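import Pool.Agent.BDT.LOne

/-!
# BDL-CLam (1.0h): `∑ χ(n) Λ(n)/n` is bounded

`log = Λ * 1` (`ArithmeticFunction.vonMangoldt_sum`): `∑_{n ≤ x} χ(n) log n/n = ∑_{d ≤ x} χ(d) Λ(d)/d ∑_{m ≤ x/d} χ(m)/m = ∑_{d ≤ x} (χ(d) Λ(d)/d) (ℓ + O(1/⌊x/d⌋))` and `1/⌊x/d⌋ ≤ 2d/x`, so `ℓ S(x) = O(1) + O((1/x) ∑_{d ≤ x} Λ(d)) = O(1)`
(`clog`, `lone`, Chebyshev: Mathlib `Chebyshev.psi_le..`/`ArithmeticFunction`, or `Helper52`/`Helper24` files), `ℓ ≠ 0`.
-/

open Finset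

namespace Pool.Agent.BDT

private noncomputable def gfun {q : ℕ} (χ : DirichletCharacter ℂ q) : ArithmeticFunction ℂ :=
  ⟨fun m => χ (m : ZMod q) / (m : ℂ), by simp⟩

private noncomputable def ffun {q : ℕ} (χ : DirichletCharacter ℂ q) : ArithmeticFunction ℂ :=
  ⟨fun n => χ (n : ZMod q) * ((ArithmeticFunction.vonMangoldt n / n : ℝ) : ℂ), by simp⟩

private theorem fg {q : ℕ} (χ : DirichletCharacter ℂ q) (n : ℕ) :
    (ffun χ * gfun χ) n = χ (n : ZMod q) * ((Real.log n / n : ℝ) : ℂ) := by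
  rw [ArithmeticFunction.mul_apply]
  have h1 : ∀ p ∈ n.divisorsAntidiagonal, ffun χ p.1 * gfun χ p.2 =
      (χ (n : ZMod q) / (n : ℂ)) * ((ArithmeticFunction.vonMangoldt p.1 : ℝ) : ℂ) := by
    intro p hp
    obtain ⟨hp1, hp2⟩ := Nat.mem_divisorsAntidiagonal.1 hp
    have h01 : p.1 ≠ 0 := by
      rintro h
      rw [h, zero_mul] at hp1
      exact hp2 hp1.symm
    have h02 : p.2 ≠ 0 := by
      rintro h
      rw [h, mul_zero] at hp1
      exact hp2 hp1.symm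
    have h01' : (p.1 : ℂ) ≠ 0 := by exact_mod_cast h01
    have h02' : (p.2 : ℂ) ≠ 0 := by exact_mod_cast h02
    show χ (p.1 : ZMod q) * ((ArithmeticFunction.vonMangoldt p.1 / p.1 : ℝ) : ℂ) *
      (χ (p.2 : ZMod q) / (p.2 : ℂ)) = _
    rw [← hp1]
    push_cast
    rw [map_mul]
    field_simp
  rw [Finset.sum_congr rfl h1, ← Finset.mul_sum]
  have h2 : ∑ p ∈ n.divisorsAntidiagonal, ((ArithmeticFunction.vonMangoldt p.1 : ℝ) : ℂ) =
      ((Real.log n : ℝ) : ℂ) := by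
    rw [Nat.sum_divisorsAntidiagonal (fun a _ => ((ArithmeticFunction.vonMangoldt a : ℝ) : ℂ)),
      ← ArithmeticFunction.vonMangoldt_sum]
    push_cast
    rfl
  rw [h2]
  push_cast
  ring

theorem clam {q : ℕ} [NeZero q] (χ : DirichletCharacter ℂ q) (hχ : χ ≠ 1) :
    ∃ C : ℝ, ∀ x : ℕ, ‖∑ n ∈ Icc 1 x, χ (n : ZMod q) *
      ((ArithmeticFunction.vonMangoldt n / n : ℝ) : ℂ)‖ ≤ C := by
  obtain ⟨l, hl, C1, hC1⟩ := lone χ hχ
  obtain ⟨C2, hC2⟩ := clog χ hχ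
  have hlpos : 0 < ‖l‖ := norm_pos_iff.2 hl
  have hC10 : 0 ≤ C1 := by
    have := hC1 1 le_rfl
    rw [Nat.cast_one, div_one] at this
    exact (norm_nonneg _).trans this
  refine ⟨(C2 + C1 * 2 * (Real.log 4 + 4)) / ‖l‖, fun x => ?_⟩
  rw [le_div_iff₀ hlpos]
  have hI : ∀ N : ℕ, Icc 1 N = Ioc 0 N := fun N => by
    ext a
    simp only [mem_Icc, mem_Ioc]
    omega
  have hmain := ArithmeticFunction.sum_Ioc_mul_eq_sum_sum (ffun χ) (gfun χ) x
  have hL : ∑ n ∈ Ioc 0 x, (ffun χ * gfun χ) n =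
      ∑ n ∈ Ioc 0 x, χ (n : ZMod q) * ((Real.log n / n : ℝ) : ℂ) :=
    Finset.sum_congr rfl fun n _ => fg χ n
  rw [hL] at hmain
  have hR : ∑ n ∈ Ioc 0 x, ffun χ n * ∑ m ∈ Ioc 0 (x / n), gfun χ m =
      (∑ n ∈ Ioc 0 x, ffun χ n) * l +
      ∑ n ∈ Ioc 0 x, ffun χ n * (∑ m ∈ Ioc 0 (x / n), gfun χ m - l) := by
    rw [Finset.sum_mul, ← Finset.sum_add_distrib]
    refine Finset.sum_congr rfl fun n _ => ?_
    ring
  rw [hR] at hmain
  have herr : ‖∑ n ∈ Ioc 0 x, ffun χ n * (∑ m ∈ Ioc 0 (x / n), gfun χ m - l)‖ ≤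
      C1 * 2 * (Real.log 4 + 4) := by
    rcases Nat.eq_zero_or_pos x with hx0 | hx0
    · subst hx0
      simp only [Ioc_self, sum_empty, norm_zero]
      have : 0 ≤ Real.log 4 := Real.log_nonneg (by norm_num)
      positivity
    have hxR : (0 : ℝ) < x := by exact_mod_cast hx0
    refine (norm_sum_le _ _).trans ?_
    have h1 : ∀ n ∈ Ioc 0 x, ‖ffun χ n * (∑ m ∈ Ioc 0 (x / n), gfun χ m - l)‖ ≤
        C1 * 2 / x * ArithmeticFunction.vonMangoldt n := by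
      intro n hn
      obtain ⟨hn0, hnx⟩ := mem_Ioc.1 hn
      have hnR : (0 : ℝ) < n := by exact_mod_cast hn0
      have hk : 1 ≤ x / n := (Nat.one_le_div_iff hn0).2 hnx
      have h2 := hC1 (x / n) hk
      rw [hI] at h2
      have h3 : ∑ m ∈ Ioc 0 (x / n), gfun χ m =
          ∑ m ∈ Ioc 0 (x / n), χ (m : ZMod q) / (m : ℂ) := rfl
      rw [← h3] at h2
      have h4 : ‖ffun χ n‖ ≤ ArithmeticFunction.vonMangoldt n / n := by
        show ‖χ (n : ZMod q) * ((ArithmeticFunction.vonMangoldt n / n : ℝ) : ℂ)‖ ≤ _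
        rw [norm_mul, Complex.norm_real, Real.norm_of_nonneg
          (div_nonneg ArithmeticFunction.vonMangoldt_nonneg hnR.le)]
        have h5 := DirichletCharacter.norm_le_one χ (n : ZMod q)
        have h6 : 0 ≤ ArithmeticFunction.vonMangoldt n / (n : ℝ) :=
          div_nonneg ArithmeticFunction.vonMangoldt_nonneg hnR.le
        nlinarith
      rw [norm_mul]
      have hkR : (0 : ℝ) < ((x / n : ℕ) : ℝ) := by exact_mod_cast hk
      have h7 : (x : ℝ) ≤ 2 * n * ((x / n : ℕ) : ℝ) := by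
        have h8 : x < n * (x / n + 1) := Nat.lt_mul_div_succ x hn0
        have h9 : x ≤ 2 * n * (x / n) := by nlinarith
        exact_mod_cast h9
      have h10 : C1 / ((x / n : ℕ) : ℝ) ≤ C1 * (2 * n) / x := by
        rw [div_le_div_iff₀ hkR hxR]
        nlinarith
      calc ‖ffun χ n‖ * ‖∑ m ∈ Ioc 0 (x / n), gfun χ m - l‖
          ≤ (ArithmeticFunction.vonMangoldt n / n) * (C1 * (2 * n) / x) := by
            refine mul_le_mul h4 (h2.trans h10) (norm_nonneg _) ?_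
            exact div_nonneg ArithmeticFunction.vonMangoldt_nonneg hnR.le
        _ = C1 * 2 / x * ArithmeticFunction.vonMangoldt n := by
            field_simp
    refine (Finset.sum_le_sum h1).trans ?_
    rw [← Finset.mul_sum]
    have h11 := Chebyshev.psi_le_const_mul_self (x := (x : ℝ)) hxR.le
    rw [Chebyshev.psi, Nat.floor_natCast] at h11
    calc C1 * 2 / x * ∑ i ∈ Ioc 0 x, ArithmeticFunction.vonMangoldt i
        ≤ C1 * 2 / x * ((Real.log 4 + 4) * x) := by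
          refine mul_le_mul_of_nonneg_left h11 ?_
          positivity
      _ = C1 * 2 * (Real.log 4 + 4) := by
          field_simp
  have hS : ∑ n ∈ Icc 1 x, χ (n : ZMod q) *
      ((ArithmeticFunction.vonMangoldt n / n : ℝ) : ℂ) = ∑ n ∈ Ioc 0 x, ffun χ n := by
    rw [hI]
    rfl
  rw [hS, ← norm_mul]
  have h12 : (∑ n ∈ Ioc 0 x, ffun χ n) * l =
      ∑ n ∈ Ioc 0 x, χ (n : ZMod q) * ((Real.log n / n : ℝ) : ℂ) -
      ∑ n ∈ Ioc 0 x, ffun χ n * (∑ m ∈ Ioc 0 (x / n), gfun χ m - l) := by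
    rw [hmain]
    ring
  rw [h12]
  refine (norm_sub_le _ _).trans ?_
  have h13 := hC2 x
  rw [hI] at h13
  linarith

end Pool.Agent.BDT
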