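import Pool.Agent.BDT.Defs
import Pool.Agent.Helper24.Mertens

/-!
# BDT-LL (0.8h): `FF t ≤ (log log N)^C`, and the size of `yy N`

`FF_small`: `FF t ≤ exp(4 ∑_{p ∣ t} 1/p)`; with `w = ⌈log N⌉`: the primes `≤ w` contribute at most `log log w + 3.4` (`Helper24.sum_inv_primes_le`), the others at most
`(number)/w ≤ (log t/log 2)/log N ≤ 10/log 2` (`2^ω(t) ≤ t ≤ N^10`). So `FF t ≤ exp(4 log log(log N + 1) + 80) ≤ (log N)^(10^(-6))` for large `N`.
`yy_log`: `exp((log N)^(1-δ)) - 1 < yy N ≤ exp((log N)^(1-δ))`, `δ = 10^(-5)`.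
`yy_pow`: `(log N)^(1-δ) * 10^6 ≤ log N` for large `N`.
-/

open Finset Filter

namespace Pool.Agent.BDT

private theorem ev {P : ℝ → Prop} (h : ∀ᶠ x : ℝ in atTop, P x) :
    ∃ N₀ : ℕ, ∀ N : ℕ, N₀ ≤ N → P (Real.log N) :=
  eventually_atTop.1 ((Real.tendsto_log_atTop.comp tendsto_natCast_atTop_atTop).eventually h)

private theorem FF_le_pow (t : ℕ) : FF t ≤ (∏ p ∈ t.primeFactors, (1 + 1 / (p : ℝ))) ^ 4 := by
  unfold FF
  rw [← Finset.prod_pow]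
  refine Finset.prod_le_prod (fun p _ => by positivity) fun p _ => ?_
  have h0 : (0 : ℝ) ≤ 1 / (p : ℝ) := by positivity
  have h1 := one_add_mul_le_pow (a := 1 / (p : ℝ)) (by linarith) 4
  have h2 : (4 : ℝ) / (p : ℝ) = ((4 : ℕ) : ℝ) * (1 / (p : ℝ)) := by
    push_cast
    ring
  rw [h2]
  exact h1

theorem FF_small : ∃ N₀ : ℕ, ∀ N : ℕ, N₀ ≤ N → ∀ t : ℕ, 1 ≤ t → t ≤ N ^ 10 →
    FF t ≤ (Real.log N) ^ (1 / 1000000 : ℝ) := by
  have hl2 : (1 / 2 : ℝ) < Real.log 2 := by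
    have := Real.log_two_gt_d9
    linarith
  obtain ⟨K, hK⟩ : ∃ K : ℝ, K = 30 * Real.exp 20 := ⟨_, rfl⟩
  have hK0 : 0 < K := by rw [hK]; positivity
  have e1 : ∀ᶠ x : ℝ in atTop, K * Real.log (2 * x) ≤ x ^ (1 / 4000000 : ℝ) := by
    have h1 := (isLittleO_log_rpow_atTop (r := (1 / 4000000 : ℝ)) (by norm_num)).def
      (c := 1 / (2 * K)) (by positivity)
    have h2 := (tendsto_rpow_atTop (y := (1 / 4000000 : ℝ)) (by norm_num)).eventually_ge_atTop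
      (2 * K * Real.log 2)
    filter_upwards [h1, h2, eventually_ge_atTop (1 : ℝ)] with x h1 h2 h3
    have hx0 : 0 < x := by linarith
    rw [Real.norm_of_nonneg (Real.log_nonneg h3), Real.norm_of_nonneg (Real.rpow_nonneg hx0.le _)]
      at h1
    rw [Real.log_mul (by norm_num) hx0.ne']
    have h4 : K * Real.log x ≤ K * (1 / (2 * K) * x ^ (1 / 4000000 : ℝ)) :=
      mul_le_mul_of_nonneg_left h1 hK0.le
    have h5 : K * (1 / (2 * K) * x ^ (1 / 4000000 : ℝ)) = x ^ (1 / 4000000 : ℝ) / 2 := by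
      field_simp
    rw [h5] at h4
    linarith
  obtain ⟨N₀, hN⟩ := ev (e1.and (eventually_ge_atTop (2 : ℝ)))
  refine ⟨N₀, fun N hN0 t ht1 ht => ?_⟩
  obtain ⟨h1, h2⟩ := hN N hN0
  have hx0 : 0 < Real.log N := by linarith
  have hNpos : 0 < N := by
    rcases Nat.eq_zero_or_pos N with h | h
    · rw [h, Nat.cast_zero, Real.log_zero] at h2
      linarith
    · exact h
  have hy1 : Real.log N ≤ ⌈Real.log N⌉₊ := Nat.le_ceil _
  have hy2 : (⌈Real.log N⌉₊ : ℝ) < Real.log N + 1 := Nat.ceil_lt_add_one hx0.le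
  have hy3 : 2 ≤ ⌈Real.log N⌉₊ := by
    have : (2 : ℝ) ≤ ⌈Real.log N⌉₊ := h2.trans hy1
    exact_mod_cast this
  have hy0 : (0 : ℝ) < ⌈Real.log N⌉₊ := by linarith
  have h3 := Pool.Agent.Helper24.prod_primeFactors_one_add_inv_le (h := t) (by omega) hy3
  have h4 : Real.log t ≤ 10 * Real.log N := by
    have h5 : (t : ℝ) ≤ (N : ℝ) ^ 10 := by exact_mod_cast ht
    have h6 := Real.log_le_log (by exact_mod_cast ht1 : (0 : ℝ) < t) h5
    rw [Real.log_pow] at h6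
    exact_mod_cast h6
  have h5 : Real.log t / Real.log 2 / ⌈Real.log N⌉₊ ≤ 20 := by
    rw [div_div, div_le_iff₀ (mul_pos (by linarith) hy0)]
    have h6 : 1 / 2 * Real.log N ≤ Real.log 2 * ⌈Real.log N⌉₊ :=
      mul_le_mul hl2.le hy1 hx0.le (by linarith)
    linarith
  have h6 : Real.log (⌈Real.log N⌉₊ : ℝ) ≤ Real.log (2 * Real.log N) :=
    Real.log_le_log hy0 (by linarith)
  have h7 : 0 ≤ Real.log (⌈Real.log N⌉₊ : ℝ) := Real.log_nonneg (by linarith)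
  have h8 : 30 * Real.log (⌈Real.log N⌉₊ : ℝ) * Real.exp (Real.log t / Real.log 2 / ⌈Real.log N⌉₊) ≤
      (Real.log N) ^ (1 / 4000000 : ℝ) := by
    refine le_trans ?_ h1
    calc 30 * Real.log (⌈Real.log N⌉₊ : ℝ) * Real.exp (Real.log t / Real.log 2 / ⌈Real.log N⌉₊)
        ≤ 30 * Real.log (2 * Real.log N) * Real.exp 20 :=
          mul_le_mul (by linarith) (Real.exp_le_exp.2 h5) (Real.exp_pos _).le (by linarith)
      _ = K * Real.log (2 * Real.log N) := by rw [hK]; ring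
  have h9 : 0 ≤ ∏ p ∈ t.primeFactors, (1 + 1 / (p : ℝ)) :=
    Finset.prod_nonneg fun p _ => by positivity
  calc FF t ≤ (∏ p ∈ t.primeFactors, (1 + 1 / (p : ℝ))) ^ 4 := FF_le_pow t
    _ ≤ ((Real.log N) ^ (1 / 4000000 : ℝ)) ^ 4 := pow_le_pow_left₀ h9 (h3.trans h8) 4
    _ = (Real.log N) ^ (1 / 1000000 : ℝ) := by
        rw [← Real.rpow_natCast, ← Real.rpow_mul hx0.le]
        norm_num

theorem yy_log : ∃ N₀ : ℕ, ∀ N : ℕ, N₀ ≤ N → 1 / 2 * (Real.log N) ^ (1 - 1 / 100000 : ℝ) ≤ Real.log (yy N) ∧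
    Real.log (yy N) ≤ (Real.log N) ^ (1 - 1 / 100000 : ℝ) := by
  have e1 := (tendsto_rpow_atTop (y := (1 - 1 / 100000 : ℝ)) (by norm_num)).eventually_ge_atTop 2
  obtain ⟨N₀, hN⟩ := ev e1
  refine ⟨N₀, fun N hN0 => ?_⟩
  have h1 := hN N hN0
  unfold yy
  generalize (Real.log N) ^ (1 - 1 / 100000 : ℝ) = u at h1 ⊢
  have h2 : (⌊Real.exp u⌋₊ : ℝ) ≤ Real.exp u := Nat.floor_le (Real.exp_pos u).le
  have h3 : Real.exp u < ⌊Real.exp u⌋₊ + 1 := Nat.lt_floor_add_one _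
  have h4 : Real.exp (1 / 2 * u) * Real.exp (1 / 2 * u) = Real.exp u := by
    rw [← Real.exp_add]
    congr 1
    ring
  have h5 : 2 ≤ Real.exp (1 / 2 * u) := by
    have := Real.add_one_le_exp (1 / 2 * u)
    linarith
  have h6 : Real.exp (1 / 2 * u) ≤ ⌊Real.exp u⌋₊ := by nlinarith
  have h7 : (0 : ℝ) < ⌊Real.exp u⌋₊ := by linarith
  constructor
  · rw [← Real.log_exp (1 / 2 * u)]
    exact Real.log_le_log (Real.exp_pos _) h6
  · rw [← Real.log_exp u]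
    refine Real.log_le_log (by rw [Real.log_exp]; exact h7) ?_
    rw [Real.log_exp]
    exact h2

theorem yy_pow : ∃ N₀ : ℕ, ∀ N : ℕ, N₀ ≤ N → (yy N : ℝ) ≤ (N : ℝ) ^ (1 / 1000000 : ℝ) := by
  have e1 := (tendsto_rpow_atTop (y := (1 / 100000 : ℝ)) (by norm_num)).eventually_ge_atTop 1000000
  obtain ⟨N₀, hN⟩ := ev (e1.and (eventually_ge_atTop (1 : ℝ)))
  refine ⟨N₀, fun N hN0 => ?_⟩
  obtain ⟨h1, h2⟩ := hN N hN0
  have hx0 : 0 < Real.log N := by linarith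
  have hNpos : (0 : ℝ) < N := by
    rcases Nat.eq_zero_or_pos N with h | h
    · rw [h, Nat.cast_zero, Real.log_zero] at h2
      linarith
    · exact_mod_cast h
  have h3 : (yy N : ℝ) ≤ Real.exp ((Real.log N) ^ (1 - 1 / 100000 : ℝ)) :=
    Nat.floor_le (Real.exp_pos _).le
  refine h3.trans ?_
  rw [Real.rpow_def_of_pos hNpos]
  refine Real.exp_le_exp.2 ?_
  have h4 : (Real.log N) ^ (1 - 1 / 100000 : ℝ) * (Real.log N) ^ (1 / 100000 : ℝ) = Real.log N := by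
    rw [← Real.rpow_add hx0, sub_add_cancel, Real.rpow_one]
  have h5 : 0 ≤ (Real.log N) ^ (1 - 1 / 100000 : ℝ) := Real.rpow_nonneg hx0.le _
  have h6 := mul_le_mul_of_nonneg_left h1 h5
  rw [h4] at h6
  linarith

theorem yy_large (y₀ : ℕ) : ∃ N₀ : ℕ, ∀ N : ℕ, N₀ ≤ N → y₀ ≤ yy N := by
  have e1 := (tendsto_rpow_atTop (y := (1 - 1 / 100000 : ℝ)) (by norm_num)).eventually_ge_atTop
    (y₀ : ℝ)
  obtain ⟨N₀, hN⟩ := ev e1
  refine ⟨N₀, fun N hN0 => ?_⟩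
  refine Nat.le_floor ?_
  have h1 := hN N hN0
  have h2 := Real.add_one_le_exp ((Real.log N) ^ (1 - 1 / 100000 : ℝ))
  linarith

end Pool.Agent.BDT
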