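import Pool.Agent.BDT.Mom2
import Pool.Agent.BDT.LL

/-!
# BDT-Dec (1.5h): decomposition of the sum over pairs

`y = yy N`, `w m = (1/2)^Om(m)/m`, `A = ⌈N^(1/1000)⌉`, `B = ⌊N^(8/1000)⌋`. Pairs `p = q`: `lcm = p - 1 =: m`, `ok y {1} m`, `A < m ≤ N`: first sum. Pairs `p <> q`: `g = gcd(p-1, q-1)`, `p - 1 = g a`, `q - 1 = g a'`, `gcd(a,a') = 1`,
`lcm = g a a'`, `w(lcm) = w g * w a * w a'` (`Om_mul`), the map `(p, q) ↦ (g, a, a')` is injective, `a <> a'`, all of `g, a, a'` are `≥ 1` and `≤ N`; `g a + 1 = p`, `g a' + 1 = q` are primes `> y` (`yy_pow`: `y ≤ N^(10^(-6)) < N^(1/100)`),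
so `ok y {g} a`, `ok y {g} a'`, `ok y {a} g`, `ok y {a'} g`, `ok y {a, a'} g` (`c * m + 1` with `c * m = m * c`). Four cases:
`a, a' > A`: second sum; `a ≤ A < a'` or `a' ≤ A < a`: third sum (twice, by symmetry), here `g = (p-1)/a > B` because `p - 1 ≥ N^(1/100) - 1` and `a ≤ N^(1/1000) + 1`; `a, a' ≤ A`: fourth sum, again `g > B`.
-/

open Finset Pool.Agent.BDN

namespace Pool.Agent.BDT

/-- the weight -/
noncomputable def ww (N m : ℕ) : ℝ := (1 / 2 : ℝ) ^ Om (yy N) m / m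

/-- `⌈N^(1/1000)⌉` -/
noncomputable def AA (N : ℕ) : ℕ := ⌈(N : ℝ) ^ (1 / 1000 : ℝ)⌉₊

/-- `⌊N^(8/1000)⌋` -/
noncomputable def BB (N : ℕ) : ℕ := ⌊(N : ℝ) ^ (8 / 1000 : ℝ)⌋₊

private theorem sum_le_of_inj {ι κ : Type} [DecidableEq κ] (s : Finset ι) (t : Finset κ) (φ : ι → κ)
    (hφ : ∀ i ∈ s, φ i ∈ t) (hinj : ∀ i ∈ s, ∀ j ∈ s, φ i = φ j → i = j) (f : ι → ℝ) (F : κ → ℝ)
    (hF : ∀ k ∈ t, 0 ≤ F k) (h : ∀ i ∈ s, f i ≤ F (φ i)) : ∑ i ∈ s, f i ≤ ∑ k ∈ t, F k := by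
  calc ∑ i ∈ s, f i ≤ ∑ i ∈ s, F (φ i) := Finset.sum_le_sum h
    _ = ∑ k ∈ s.image φ, F k := (Finset.sum_image hinj).symm
    _ ≤ ∑ k ∈ t, F k := by
        apply Finset.sum_le_sum_of_subset_of_nonneg
        · intro k hk
          obtain ⟨i, hi, rfl⟩ := Finset.mem_image.1 hk
          exact hφ i hi
        · intro k hk _
          exact hF k hk

private theorem ww_nonneg (N m : ℕ) : 0 ≤ ww N m := by
  unfold ww
  positivity

private theorem ww_mul (N : ℕ) {a b : ℕ} (ha : a ≠ 0) (hb : b ≠ 0) :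
    ww N (a * b) = ww N a * ww N b := by
  unfold ww
  rw [Om_mul (yy N) ha hb, pow_add, Nat.cast_mul]
  have h1 : (a : ℝ) ≠ 0 := by exact_mod_cast ha
  have h2 : (b : ℝ) ≠ 0 := by exact_mod_cast hb
  field_simp

private theorem big : ∃ N₀ : ℕ, ∀ N : ℕ, N₀ ≤ N → (4 : ℝ) ≤ (N : ℝ) ^ (1 / 1000 : ℝ) := by
  have h := ((tendsto_rpow_atTop (by norm_num : (0 : ℝ) < 1 / 1000)).comp
    tendsto_natCast_atTop_atTop).eventually_ge_atTop (4 : ℝ)
  obtain ⟨N₀, h⟩ := Filter.eventually_atTop.1 h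
  exact ⟨N₀, fun N hN => h N hN⟩

/-- the facts on the primes of the range -/
private structure Fc (N p : ℕ) : Prop where
  pr : p.Prime
  gy : yy N < p
  gA : AA N < p - 1
  le : p ≤ N
  gB : ∀ a g : ℕ, a ≤ AA N → g * a = p - 1 → BB N < g

private theorem rg_facts {N : ℕ} (hx : (4 : ℝ) ≤ (N : ℝ) ^ (1 / 1000 : ℝ))
    (hy : (yy N : ℝ) ≤ (N : ℝ) ^ (1 / 1000000 : ℝ)) {p : ℕ} (hp : p ∈ Rg N (1 / 100) (495 / 1000)) :
    Fc N p := by
  unfold Rg at hp
  rw [Finset.mem_filter, Finset.mem_Icc] at hp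
  obtain ⟨⟨hp1, hp2⟩, hpp, hp3, -⟩ := hp
  set x : ℝ := (N : ℝ) ^ (1 / 1000 : ℝ) with hxd
  have hN0 : (0 : ℝ) ≤ (N : ℝ) := Nat.cast_nonneg N
  have hN1 : (1 : ℝ) ≤ (N : ℝ) := by
    have : 1 ≤ N := hp1.trans hp2
    exact_mod_cast this
  have h10 : (N : ℝ) ^ (1 / 100 : ℝ) = x ^ 10 := by
    rw [hxd, ← Real.rpow_natCast, ← Real.rpow_mul hN0]
    congr 1
    norm_num
  have h8 : (N : ℝ) ^ (8 / 1000 : ℝ) = x ^ 8 := by
    rw [hxd, ← Real.rpow_natCast, ← Real.rpow_mul hN0]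
    congr 1
    norm_num
  have hyx : (yy N : ℝ) ≤ x := by
    refine hy.trans ?_
    rw [hxd]
    exact Real.rpow_le_rpow_of_exponent_le hN1 (by norm_num)
  have hx9 : (4 : ℝ) ≤ x ^ 9 := by
    calc (4 : ℝ) ≤ 4 ^ 9 := by norm_num
      _ ≤ x ^ 9 := pow_le_pow_left₀ (by norm_num) hx 9
  have hx8 : (0 : ℝ) < x ^ 8 := by positivity
  have hxx : x ≤ x ^ 9 := by
    calc x = x ^ 1 := (pow_one x).symm
      _ ≤ x ^ 9 := pow_le_pow_right₀ (by linarith) (by norm_num)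
  have hx10 : x ^ 10 = x * x ^ 9 := by ring
  have hx10' : 4 * x ^ 9 ≤ x ^ 10 := by
    rw [hx10]
    exact mul_le_mul_of_nonneg_right hx (by positivity)
  rw [h10] at hp3
  have hA : (AA N : ℝ) ≤ x + 1 := by
    unfold AA
    exact (Nat.ceil_lt_add_one (by positivity)).le
  have hp1' : ((p - 1 : ℕ) : ℝ) = (p : ℝ) - 1 := by
    rw [Nat.cast_sub hp1, Nat.cast_one]
  refine ⟨hpp, ?_, ?_, hp2, ?_⟩
  · have : (yy N : ℝ) < (p : ℝ) := by linarith
    exact_mod_cast this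
  · have : (AA N : ℝ) < ((p - 1 : ℕ) : ℝ) := by
      rw [hp1']
      linarith
    exact_mod_cast this
  · intro a g ha hga
    by_contra hcon
    rw [not_lt] at hcon
    have hB : (BB N : ℝ) ≤ x ^ 8 := by
      unfold BB
      rw [← h8]
      exact Nat.floor_le (by positivity)
    have hg : (g : ℝ) ≤ x ^ 8 := by
      have : (g : ℝ) ≤ (BB N : ℝ) := by exact_mod_cast hcon
      linarith
    have ha' : (a : ℝ) ≤ 2 * x := by
      have : (a : ℝ) ≤ (AA N : ℝ) := by exact_mod_cast ha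
      linarith
    have h1 : (g : ℝ) * (a : ℝ) ≤ x ^ 8 * (2 * x) := by
      apply mul_le_mul hg ha' (Nat.cast_nonneg _) hx8.le
    have h2 : (g : ℝ) * (a : ℝ) = (p : ℝ) - 1 := by
      rw [← hp1', ← hga]
      push_cast
      ring
    have h3 : x ^ 8 * (2 * x) = 2 * x ^ 9 := by ring
    linarith

private theorem okC {y : ℕ} {C : Finset ℕ} {m : ℕ}
    (h : ∀ c ∈ C, ∃ p : ℕ, p.Prime ∧ y < p ∧ c * m + 1 = p) : ok y C m := by
  intro c hc r hr _ hry hdvd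
  obtain ⟨p, hp, hyp, hcm⟩ := h c hc
  rw [hcm] at hdvd
  have := (Nat.prime_dvd_prime_iff_eq hr hp).1 hdvd
  omega

private noncomputable def fg (x : ℕ × ℕ) : ℕ := (x.1 - 1).gcd (x.2 - 1)
private noncomputable def fa (x : ℕ × ℕ) : ℕ := (x.1 - 1) / (x.1 - 1).gcd (x.2 - 1)
private noncomputable def fb (x : ℕ × ℕ) : ℕ := (x.2 - 1) / (x.1 - 1).gcd (x.2 - 1)

private structure Pf (N : ℕ) (x : ℕ × ℕ) : Prop where
  hp : fg x * fa x + 1 = x.1
  hq : fg x * fb x + 1 = x.2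
  g1 : 1 ≤ fg x
  a1 : 1 ≤ fa x
  b1 : 1 ≤ fb x
  gN : fg x ≤ N
  aN : fa x ≤ N
  bN : fb x ≤ N
  oa : ok (yy N) {fg x} (fa x)
  ob : ok (yy N) {fg x} (fb x)
  oga : ok (yy N) {fa x} (fg x)
  ogb : ok (yy N) {fb x} (fg x)
  ogab : ok (yy N) {fa x, fb x} (fg x)
  hw : ww N ((x.1 - 1).lcm (x.2 - 1)) = ww N (fg x) * (ww N (fa x) * ww N (fb x))
  ba : fa x ≤ AA N → BB N < fg x
  bb : fb x ≤ AA N → BB N < fg x

private theorem pf {N : ℕ} {x : ℕ × ℕ} (h1 : Fc N x.1) (h2 : Fc N x.2) : Pf N x := by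
  have hP2 := h1.pr.two_le
  have hQ2 := h2.pr.two_le
  have hg : 0 < fg x := Nat.gcd_pos_of_pos_left _ (by omega)
  have hP : fg x * fa x = x.1 - 1 := Nat.mul_div_cancel' (Nat.gcd_dvd_left _ _)
  have hQ : fg x * fb x = x.2 - 1 := Nat.mul_div_cancel' (Nat.gcd_dvd_right _ _)
  have ha : 0 < fa x := by
    rcases Nat.eq_zero_or_pos (fa x) with h | h
    · rw [h] at hP
      omega
    · exact h
  have hb : 0 < fb x := by
    rcases Nat.eq_zero_or_pos (fb x) with h | h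
    · rw [h] at hQ
      omega
    · exact h
  have e1 : fg x * fa x + 1 = x.1 := by omega
  have e2 : fg x * fb x + 1 = x.2 := by omega
  have l1 := h1.le
  have l2 := h2.le
  have m1 : fg x ≤ fg x * fa x := Nat.le_mul_of_pos_right _ ha
  have m2 : fa x ≤ fg x * fa x := Nat.le_mul_of_pos_left _ hg
  have m3 : fb x ≤ fg x * fb x := Nat.le_mul_of_pos_left _ hg
  have e1' : fa x * fg x + 1 = x.1 := by rw [mul_comm]; exact e1
  have e2' : fb x * fg x + 1 = x.2 := by rw [mul_comm]; exact e2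
  refine ⟨e1, e2, hg, ha, hb, by omega, by omega, by omega, ?_, ?_, ?_, ?_, ?_, ?_, ?_, ?_⟩
  · apply okC
    intro c hc
    rw [Finset.mem_singleton] at hc
    subst hc
    exact ⟨_, h1.pr, h1.gy, e1⟩
  · apply okC
    intro c hc
    rw [Finset.mem_singleton] at hc
    subst hc
    exact ⟨_, h2.pr, h2.gy, e2⟩
  · apply okC
    intro c hc
    rw [Finset.mem_singleton] at hc
    subst hc
    exact ⟨_, h1.pr, h1.gy, e1'⟩
  · apply okC
    intro c hc
    rw [Finset.mem_singleton] at hc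
    subst hc
    exact ⟨_, h2.pr, h2.gy, e2'⟩
  · apply okC
    intro c hc
    rw [Finset.mem_insert, Finset.mem_singleton] at hc
    rcases hc with hc | hc
    · subst hc
      exact ⟨_, h1.pr, h1.gy, e1'⟩
    · subst hc
      exact ⟨_, h2.pr, h2.gy, e2'⟩
  · have hl : (x.1 - 1).lcm (x.2 - 1) = fg x * (fa x * fb x) := by
      have h3 : fg x * (x.1 - 1).lcm (x.2 - 1) = (x.1 - 1) * (x.2 - 1) := Nat.gcd_mul_lcm _ _
      rw [← hP, ← hQ] at h3
      apply Nat.eq_of_mul_eq_mul_left hg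
      rw [← hP, ← hQ, h3]
      ring
    rw [hl, ww_mul N hg.ne' (Nat.mul_ne_zero ha.ne' hb.ne'), ww_mul N ha.ne' hb.ne']
  · intro h
    exact h1.gB _ _ h hP
  · intro h
    exact h2.gB _ _ h hQ

theorem dec : ∃ N₀ : ℕ, ∀ N : ℕ, N₀ ≤ N → PP N ≤
    ∑ m ∈ (Ioc (AA N) N).filter (fun m => ok (yy N) {1} m), ww N m +
    ∑ g ∈ Icc 1 N, ww N g * (∑ a ∈ (Ioc (AA N) N).filter (fun a => ok (yy N) {g} a), ww N a) ^ 2 +
    2 * ∑ a ∈ Icc 1 (AA N), ww N a * ∑ g ∈ (Ioc (BB N) N).filter (fun g => ok (yy N) {a} g), ww N g *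
      ∑ b ∈ (Ioc (AA N) N).filter (fun b => ok (yy N) {g} b), ww N b +
    ∑ a ∈ Icc 1 (AA N), ∑ b ∈ (Icc 1 (AA N)).erase a, ww N a * ww N b *
      ∑ g ∈ (Ioc (BB N) N).filter (fun g => ok (yy N) {a, b} g), ww N g := by
  classical
  obtain ⟨N1, hN1⟩ := big
  obtain ⟨N2, hN2⟩ := yy_pow
  refine ⟨max N1 N2, fun N hN => ?_⟩
  have hx := hN1 N ((le_max_left _ _).trans hN)
  have hy := hN2 N ((le_max_right _ _).trans hN)
  set R := Rg N (1 / 100) (495 / 1000) with hR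
  have hF : ∀ p ∈ R, Fc N p := fun p hp => rg_facts hx hy hp
  set W : ℕ × ℕ → ℝ := fun x => ww N ((x.1 - 1).lcm (x.2 - 1)) with hW
  have hW0 : ∀ x, 0 ≤ W x := fun x => ww_nonneg _ _
  have hPP : PP N = ∑ x ∈ R ×ˢ R, W x := by
    rw [Finset.sum_product]
    rfl
  have hPf : ∀ x ∈ R ×ˢ R, Pf N x := fun x hx => by
    rw [Finset.mem_product] at hx
    exact pf (hF _ hx.1) (hF _ hx.2)
  set s1 := (R ×ˢ R).filter (fun x => x.1 = x.2) with hs1
  set s2 := (R ×ˢ R).filter (fun x => x.1 ≠ x.2 ∧ AA N < fa x ∧ AA N < fb x) with hs2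
  set s3 := (R ×ˢ R).filter (fun x => x.1 ≠ x.2 ∧ fa x ≤ AA N ∧ AA N < fb x) with hs3
  set s4 := (R ×ˢ R).filter (fun x => x.1 ≠ x.2 ∧ AA N < fa x ∧ fb x ≤ AA N) with hs4
  set s5 := (R ×ˢ R).filter (fun x => x.1 ≠ x.2 ∧ fa x ≤ AA N ∧ fb x ≤ AA N) with hs5
  have hsplit : ∑ x ∈ R ×ˢ R, W x ≤ ∑ x ∈ s1, W x + ∑ x ∈ s2, W x + ∑ x ∈ s3, W x +
      ∑ x ∈ s4, W x + ∑ x ∈ s5, W x := by
    rw [hs1, hs2, hs3, hs4, hs5]
    simp only [Finset.sum_filter]
    rw [← Finset.sum_add_distrib, ← Finset.sum_add_distrib, ← Finset.sum_add_distrib,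
      ← Finset.sum_add_distrib]
    apply Finset.sum_le_sum
    intro x _
    have h0 := hW0 x
    have n1 : (0 : ℝ) ≤ if x.1 = x.2 then W x else 0 := by split_ifs <;> linarith
    have n2 : (0 : ℝ) ≤ if x.1 ≠ x.2 ∧ AA N < fa x ∧ AA N < fb x then W x else 0 := by
      split_ifs <;> linarith
    have n3 : (0 : ℝ) ≤ if x.1 ≠ x.2 ∧ fa x ≤ AA N ∧ AA N < fb x then W x else 0 := by
      split_ifs <;> linarith
    have n4 : (0 : ℝ) ≤ if x.1 ≠ x.2 ∧ AA N < fa x ∧ fb x ≤ AA N then W x else 0 := by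
      split_ifs <;> linarith
    have n5 : (0 : ℝ) ≤ if x.1 ≠ x.2 ∧ fa x ≤ AA N ∧ fb x ≤ AA N then W x else 0 := by
      split_ifs <;> linarith
    by_cases c1 : x.1 = x.2
    · rw [if_pos c1]
      linarith
    by_cases ca : fa x ≤ AA N
    · by_cases cb : fb x ≤ AA N
      · rw [if_pos (show x.1 ≠ x.2 ∧ fa x ≤ AA N ∧ fb x ≤ AA N from ⟨c1, ca, cb⟩)]
        linarith
      · rw [if_pos (show x.1 ≠ x.2 ∧ fa x ≤ AA N ∧ AA N < fb x from ⟨c1, ca, not_le.1 cb⟩)]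
        linarith
    · by_cases cb : fb x ≤ AA N
      · rw [if_pos (show x.1 ≠ x.2 ∧ AA N < fa x ∧ fb x ≤ AA N from ⟨c1, not_le.1 ca, cb⟩)]
        linarith
      · rw [if_pos (show x.1 ≠ x.2 ∧ AA N < fa x ∧ AA N < fb x from ⟨c1, not_le.1 ca, not_le.1 cb⟩)]
        linarith
  -- the diagonal
  have b1 : ∑ x ∈ s1, W x ≤ ∑ m ∈ (Ioc (AA N) N).filter (fun m => ok (yy N) {1} m), ww N m := by
    apply sum_le_of_inj s1 _ (fun x => x.1 - 1)
    · intro x hx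
      rw [hs1, Finset.mem_filter, Finset.mem_product] at hx
      obtain ⟨⟨h1, h2⟩, h3⟩ := hx
      have f1 := hF _ h1
      have := f1.le
      have := f1.gA
      rw [Finset.mem_filter, Finset.mem_Ioc]
      refine ⟨⟨this, by omega⟩, ?_⟩
      apply okC
      intro c hc
      rw [Finset.mem_singleton] at hc
      subst hc
      refine ⟨x.1, f1.pr, f1.gy, ?_⟩
      have := f1.pr.two_le
      omega
    · intro x hx x' hx' he
      rw [hs1, Finset.mem_filter, Finset.mem_product] at hx hx'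
      have u1 := (hF _ hx.1.1).pr.two_le
      have u2 := (hF _ hx'.1.1).pr.two_le
      have he' : x.1 - 1 = x'.1 - 1 := he
      have e1 : x.1 = x'.1 := by omega
      have e2 : x.2 = x'.2 := by rw [← hx.2, ← hx'.2]; exact e1
      exact Prod.ext e1 e2
    · intro m _
      exact ww_nonneg _ _
    · intro x hx
      rw [hs1, Finset.mem_filter, Finset.mem_product] at hx
      have : W x = ww N (x.1 - 1) := by
        rw [hW]
        simp only
        rw [← hx.2, Nat.lcm_self]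
      exact this.le
  -- recovering the pair
  have hrec : ∀ x ∈ R ×ˢ R, ∀ x' ∈ R ×ˢ R, fg x = fg x' → fa x = fa x' → fb x = fb x' → x = x' := by
    intro x hx x' hx' e1 e2 e3
    have p1 := hPf x hx
    have p2 := hPf x' hx'
    have q1 := p1.hp
    have q2 := p1.hq
    have q3 := p2.hp
    have q4 := p2.hq
    rw [e1, e2] at q1
    rw [e1, e3] at q2
    exact Prod.ext (q1.symm.trans q3) (q2.symm.trans q4)
  have hab : ∀ x ∈ R ×ˢ R, x.1 ≠ x.2 → fa x ≠ fb x := by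
    intro x hx hne h
    have p1 := hPf x hx
    have q1 := p1.hp
    have q2 := p1.hq
    rw [h] at q1
    exact hne (q1.symm.trans q2)
  -- both large
  have b2 : ∑ x ∈ s2, W x ≤ ∑ g ∈ Icc 1 N, ww N g *
      (∑ a ∈ (Ioc (AA N) N).filter (fun a => ok (yy N) {g} a), ww N a) ^ 2 := by
    have e : ∑ g ∈ Icc 1 N, ww N g *
        (∑ a ∈ (Ioc (AA N) N).filter (fun a => ok (yy N) {g} a), ww N a) ^ 2 =
        ∑ z ∈ (Icc 1 N).sigma (fun g => (Ioc (AA N) N).filter (fun a => ok (yy N) {g} a) ×ˢ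
          (Ioc (AA N) N).filter (fun a => ok (yy N) {g} a)),
            ww N z.1 * (ww N z.2.1 * ww N z.2.2) := by
      rw [Finset.sum_sigma]
      apply Finset.sum_congr rfl
      intro g _
      rw [sq, Finset.sum_mul_sum, Finset.sum_product, Finset.mul_sum]
      apply Finset.sum_congr rfl
      intro a _
      rw [Finset.mul_sum]
    rw [e]
    apply sum_le_of_inj s2 _ (fun x => (⟨fg x, (fa x, fb x)⟩ : Σ _ : ℕ, ℕ × ℕ))
    · intro x hx
      rw [hs2, Finset.mem_filter] at hx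
      obtain ⟨h1, h2, h3, h4⟩ := hx
      have P := hPf x h1
      rw [Finset.mem_sigma, Finset.mem_product, Finset.mem_filter, Finset.mem_filter, Finset.mem_Icc,
        Finset.mem_Ioc, Finset.mem_Ioc]
      exact ⟨⟨P.g1, P.gN⟩, ⟨⟨h3, P.aN⟩, P.oa⟩, ⟨⟨h4, P.bN⟩, P.ob⟩⟩
    · intro x hx x' hx' he
      rw [hs2, Finset.mem_filter] at hx hx'
      rw [Sigma.mk.injEq] at he
      obtain ⟨e1, e2⟩ := he
      have e2' := eq_of_heq e2
      rw [Prod.mk.injEq] at e2'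
      exact hrec x hx.1 x' hx'.1 e1 e2'.1 e2'.2
    · intro z _
      exact mul_nonneg (ww_nonneg _ _) (mul_nonneg (ww_nonneg _ _) (ww_nonneg _ _))
    · intro x hx
      rw [hs2, Finset.mem_filter] at hx
      exact (hPf x hx.1).hw.le
  -- one small
  have e3 : ∑ a ∈ Icc 1 (AA N), ww N a * ∑ g ∈ (Ioc (BB N) N).filter (fun g => ok (yy N) {a} g),
      ww N g * ∑ b ∈ (Ioc (AA N) N).filter (fun b => ok (yy N) {g} b), ww N b =
      ∑ z ∈ (Icc 1 (AA N)).sigma (fun a => ((Ioc (BB N) N).filter (fun g => ok (yy N) {a} g)).sigma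
        (fun g => (Ioc (AA N) N).filter (fun b => ok (yy N) {g} b))),
          ww N z.2.1 * (ww N z.1 * ww N z.2.2) := by
    rw [Finset.sum_sigma]
    apply Finset.sum_congr rfl
    intro a _
    rw [Finset.sum_sigma, Finset.mul_sum]
    apply Finset.sum_congr rfl
    intro g _
    rw [Finset.mul_sum, Finset.mul_sum]
    apply Finset.sum_congr rfl
    intro b _
    ring
  have b3 : ∑ x ∈ s3, W x ≤ ∑ a ∈ Icc 1 (AA N), ww N a *
      ∑ g ∈ (Ioc (BB N) N).filter (fun g => ok (yy N) {a} g),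
      ww N g * ∑ b ∈ (Ioc (AA N) N).filter (fun b => ok (yy N) {g} b), ww N b := by
    rw [e3]
    apply sum_le_of_inj s3 _ (fun x => (⟨fa x, ⟨fg x, fb x⟩⟩ : Σ _ : ℕ, Σ _ : ℕ, ℕ))
    · intro x hx
      rw [hs3, Finset.mem_filter] at hx
      obtain ⟨h1, h2, h3, h4⟩ := hx
      have P := hPf x h1
      rw [Finset.mem_sigma, Finset.mem_sigma, Finset.mem_filter, Finset.mem_filter, Finset.mem_Icc,
        Finset.mem_Ioc, Finset.mem_Ioc]
      exact ⟨⟨P.a1, h3⟩, ⟨⟨P.ba h3, P.gN⟩, P.oga⟩, ⟨⟨h4, P.bN⟩, P.ob⟩⟩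
    · intro x hx x' hx' he
      rw [hs3, Finset.mem_filter] at hx hx'
      rw [Sigma.mk.injEq] at he
      obtain ⟨e1, e2⟩ := he
      have e2' := eq_of_heq e2
      rw [Sigma.mk.injEq] at e2'
      obtain ⟨e4, e5⟩ := e2'
      exact hrec x hx.1 x' hx'.1 e4 e1 (eq_of_heq e5)
    · intro z _
      exact mul_nonneg (ww_nonneg _ _) (mul_nonneg (ww_nonneg _ _) (ww_nonneg _ _))
    · intro x hx
      rw [hs3, Finset.mem_filter] at hx
      exact (hPf x hx.1).hw.le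
  have b4 : ∑ x ∈ s4, W x ≤ ∑ a ∈ Icc 1 (AA N), ww N a *
      ∑ g ∈ (Ioc (BB N) N).filter (fun g => ok (yy N) {a} g),
      ww N g * ∑ b ∈ (Ioc (AA N) N).filter (fun b => ok (yy N) {g} b), ww N b := by
    rw [e3]
    apply sum_le_of_inj s4 _ (fun x => (⟨fb x, ⟨fg x, fa x⟩⟩ : Σ _ : ℕ, Σ _ : ℕ, ℕ))
    · intro x hx
      rw [hs4, Finset.mem_filter] at hx
      obtain ⟨h1, h2, h3, h4⟩ := hx
      have P := hPf x h1
      rw [Finset.mem_sigma, Finset.mem_sigma, Finset.mem_filter, Finset.mem_filter, Finset.mem_Icc,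
        Finset.mem_Ioc, Finset.mem_Ioc]
      exact ⟨⟨P.b1, h4⟩, ⟨⟨P.bb h4, P.gN⟩, P.ogb⟩, ⟨⟨h3, P.aN⟩, P.oa⟩⟩
    · intro x hx x' hx' he
      rw [hs4, Finset.mem_filter] at hx hx'
      rw [Sigma.mk.injEq] at he
      obtain ⟨e1, e2⟩ := he
      have e2' := eq_of_heq e2
      rw [Sigma.mk.injEq] at e2'
      obtain ⟨e4, e5⟩ := e2'
      exact hrec x hx.1 x' hx'.1 e4 (eq_of_heq e5) e1
    · intro z _
      exact mul_nonneg (ww_nonneg _ _) (mul_nonneg (ww_nonneg _ _) (ww_nonneg _ _))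
    · intro x hx
      rw [hs4, Finset.mem_filter] at hx
      refine (hPf x hx.1).hw.le.trans (le_of_eq ?_)
      simp only
      ring
  -- both small
  have b5 : ∑ x ∈ s5, W x ≤ ∑ a ∈ Icc 1 (AA N), ∑ b ∈ (Icc 1 (AA N)).erase a, ww N a * ww N b *
      ∑ g ∈ (Ioc (BB N) N).filter (fun g => ok (yy N) {a, b} g), ww N g := by
    have e : ∑ a ∈ Icc 1 (AA N), ∑ b ∈ (Icc 1 (AA N)).erase a, ww N a * ww N b *
        ∑ g ∈ (Ioc (BB N) N).filter (fun g => ok (yy N) {a, b} g), ww N g =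
        ∑ z ∈ (Icc 1 (AA N)).sigma (fun a => ((Icc 1 (AA N)).erase a).sigma
          (fun b => (Ioc (BB N) N).filter (fun g => ok (yy N) {a, b} g))),
            ww N z.2.2 * (ww N z.1 * ww N z.2.1) := by
      rw [Finset.sum_sigma]
      apply Finset.sum_congr rfl
      intro a _
      rw [Finset.sum_sigma]
      apply Finset.sum_congr rfl
      intro b _
      rw [Finset.mul_sum]
      apply Finset.sum_congr rfl
      intro g _
      ring
    rw [e]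
    apply sum_le_of_inj s5 _ (fun x => (⟨fa x, ⟨fb x, fg x⟩⟩ : Σ _ : ℕ, Σ _ : ℕ, ℕ))
    · intro x hx
      rw [hs5, Finset.mem_filter] at hx
      obtain ⟨h1, h2, h3, h4⟩ := hx
      have P := hPf x h1
      rw [Finset.mem_sigma, Finset.mem_sigma, Finset.mem_filter, Finset.mem_erase, Finset.mem_Icc,
        Finset.mem_Icc, Finset.mem_Ioc]
      exact ⟨⟨P.a1, h3⟩, ⟨(hab x h1 h2).symm, P.b1, h4⟩, ⟨⟨P.ba h3, P.gN⟩, P.ogab⟩⟩
    · intro x hx x' hx' he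
      rw [hs5, Finset.mem_filter] at hx hx'
      rw [Sigma.mk.injEq] at he
      obtain ⟨e1, e2⟩ := he
      have e2' := eq_of_heq e2
      rw [Sigma.mk.injEq] at e2'
      obtain ⟨e4, e5⟩ := e2'
      exact hrec x hx.1 x' hx'.1 (eq_of_heq e5) e1 e4
    · intro z _
      exact mul_nonneg (ww_nonneg _ _) (mul_nonneg (ww_nonneg _ _) (ww_nonneg _ _))
    · intro x hx
      rw [hs5, Finset.mem_filter] at hx
      exact (hPf x hx.1).hw.le
  rw [hPP]
  linarith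

end Pool.Agent.BDT
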