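import Mathlib

/-!
# BDT: shifted prime divisors, truncated second moment; definitions

Part of project BDN (MP_b354c3_nt, B_n irreducible for almost all even n). Architect of this part: helper25 (interface by helper73).
Goal: `Pool.Agent.BDN.trunc` (file Pool/Agent/BDN/Trunc.lean).
-/

namespace Pool.Agent.BDT

open Finset

/-- number of prime factors `≤ y` of `m`, with multiplicity -/
def Om (y m : ℕ) : ℕ := ∑ p ∈ (Finset.range (y + 1)).filter Nat.Prime, m.factorization p

theorem Om_mul (y : ℕ) {a b : ℕ} (ha : a ≠ 0) (hb : b ≠ 0) : Om y (a * b) = Om y a + Om y b := by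
  unfold Om
  rw [Nat.factorization_mul ha hb, ← Finset.sum_add_distrib]
  rfl

theorem Om_one (y : ℕ) : Om y 1 = 0 := by
  simp [Om]

/-- `b` has no prime factor `≤ y` -/
def rgh (y b : ℕ) : Prop := ∀ p : ℕ, p.Prime → p ≤ y → ¬ p ∣ b

noncomputable instance (y b : ℕ) : Decidable (rgh y b) := Classical.dec _

theorem Om_rgh {y b : ℕ} (h : rgh y b) : Om y b = 0 := by
  unfold Om
  refine Finset.sum_eq_zero fun p hp => ?_
  rw [mem_filter, mem_range] at hp
  exact Nat.factorization_eq_zero_of_not_dvd (h p hp.2 (by omega))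

theorem two_pow_Om_le (y : ℕ) {m : ℕ} (hm : m ≠ 0) : 2 ^ Om y m ≤ m := by
  have h1 : Om y m ≤ ∑ p ∈ m.factorization.support, m.factorization p := by
    unfold Om
    have h2 : ∑ p ∈ (Finset.range (y + 1)).filter Nat.Prime, m.factorization p ≤
        ∑ p ∈ (Finset.range (y + 1)).filter Nat.Prime ∪ m.factorization.support,
          m.factorization p := Finset.sum_le_sum_of_subset Finset.subset_union_left
    have h3 : ∑ p ∈ (Finset.range (y + 1)).filter Nat.Prime ∪ m.factorization.support,
          m.factorization p = ∑ p ∈ m.factorization.support, m.factorization p := by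
      symm
      refine Finset.sum_subset Finset.subset_union_right fun p _ hp => ?_
      exact Finsupp.notMem_support_iff.1 hp
    omega
  calc 2 ^ Om y m ≤ 2 ^ (∑ p ∈ m.factorization.support, m.factorization p) :=
        Nat.pow_le_pow_right (by norm_num) h1
    _ = ∏ p ∈ m.factorization.support, 2 ^ m.factorization p := by
        rw [Finset.prod_pow_eq_pow_sum]
    _ ≤ ∏ p ∈ m.factorization.support, p ^ m.factorization p := by
        refine Finset.prod_le_prod' fun p hp => ?_
        have hpp : p.Prime := Nat.prime_of_mem_primeFactors (by simpa using hp)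
        exact Nat.pow_le_pow_left hpp.two_le _
    _ = m := Nat.prod_factorization_pow_eq_self hm

/-- `c m + 1` has no prime factor in `[5, y]`, for all `c` in `C` -/
def ok (y : ℕ) (C : Finset ℕ) (m : ℕ) : Prop :=
  ∀ c ∈ C, ∀ p : ℕ, p.Prime → 5 ≤ p → p ≤ y → ¬ p ∣ c * m + 1

noncomputable instance (y : ℕ) (C : Finset ℕ) (m : ℕ) : Decidable (ok y C m) := Classical.dec _

/-- the sieving limit: `log y = (log N)^(1 - 10^(-5))` -/
noncomputable def yy (N : ℕ) : ℕ := ⌊Real.exp (Real.log N ^ (1 - 1 / 100000 : ℝ))⌋₊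

/-- product of the elements of `C` and of their differences -/
def tt (C : Finset ℕ) : ℕ := (∏ c ∈ C, c) * ∏ x ∈ C.offDiag, ((x.1 - x.2) + (x.2 - x.1))

/-- the product of `1 + 4/p` over the primes dividing `t` -/
noncomputable def FF (t : ℕ) : ℝ := ∏ p ∈ t.primeFactors, (1 + 4 / (p : ℝ))

theorem one_le_FF (t : ℕ) : 1 ≤ FF t := by
  unfold FF
  refine Finset.prod_induction _ (fun x : ℝ => 1 ≤ x) (fun a b ha hb => one_le_mul_of_one_le_of_one_le ha hb)
    le_rfl fun p _ => ?_
  have : (0 : ℝ) ≤ 4 / (p : ℝ) := by positivity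
  linarith

theorem FF_mul_le {s t : ℕ} (hs : s ≠ 0) (ht : t ≠ 0) : FF (s * t) ≤ FF s * FF t := by
  unfold FF
  rw [Nat.primeFactors_mul hs ht]
  have h1 := Finset.prod_union_inter (s₁ := s.primeFactors) (s₂ := t.primeFactors)
    (f := fun p : ℕ => 1 + 4 / (p : ℝ))
  have h2 : (1 : ℝ) ≤ ∏ p ∈ s.primeFactors ∩ t.primeFactors, (1 + 4 / (p : ℝ)) := by
    refine Finset.prod_induction _ (fun x : ℝ => 1 ≤ x)
      (fun a b ha hb => one_le_mul_of_one_le_of_one_le ha hb) le_rfl fun p _ => ?_
    have : (0 : ℝ) ≤ 4 / (p : ℝ) := by positivity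
    linarith
  have h3 : (0 : ℝ) ≤ ∏ p ∈ s.primeFactors ∪ t.primeFactors, (1 + 4 / (p : ℝ)) :=
    Finset.prod_nonneg fun p _ => by positivity
  nlinarith

end Pool.Agent.BDT
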