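import Pool.Agent.BDT.Defs
import Pool.Agent.Helper24.Mertens

/-!
# BDT-Eul: sums over smooth numbers (Euler products)

`eul` bounds the sum of `z ^ Om y s / s * FF s` over `y`-smooth numbers by an Euler product, hence by
`K (log y) ^ z`; `rank` is Rankin's bound for the sum over the smooth numbers greater than `Z`.
-/

open Finset

namespace Pool.Agent.BDT

/-- the sum of a function bounded by a product of local functions over smooth numbers -/
private lemma eul_smooth (P : Finset ℕ) (g : ℕ → ℕ → ℝ)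
    (hg : ∀ p ∈ P, ∀ j, 0 ≤ g p j) (J : ℕ) (S : Finset ℕ)
    (hS : ∀ s ∈ S, 1 ≤ s ∧ ∀ p : ℕ, p.Prime → p ∣ s → p ∈ P)
    (hJ : ∀ s ∈ S, ∀ p ∈ P, s.factorization p < J) (f : ℕ → ℝ)
    (hf : ∀ s ∈ S, f s ≤ ∏ p ∈ P, g p (s.factorization p)) :
    ∑ s ∈ S, f s ≤ ∏ p ∈ P, ∑ j ∈ range J, g p j := by
  classical
  have h1 : ∏ p ∈ P, ∑ j ∈ range J, g p j =
      ∑ x ∈ Fintype.piFinset (fun _ : P => range J), ∏ i : P, g i (x i) := by
    rw [← Finset.prod_univ_sum (fun _ : P => range J) (fun (i : P) j => g i j)]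
    exact (Finset.prod_coe_sort P (fun p => ∑ j ∈ range J, g p j)).symm
  rw [h1]
  have h2 : ∑ s ∈ S, f s ≤ ∑ s ∈ S, ∏ i : P, g i ((fun (i : P) => s.factorization i) i) := by
    refine Finset.sum_le_sum fun s hs => ?_
    refine (hf s hs).trans (le_of_eq ?_)
    exact (Finset.prod_coe_sort P (fun p => g p (s.factorization p))).symm
  refine h2.trans ?_
  have hinj : Set.InjOn (fun (s : ℕ) (i : P) => s.factorization i) (S : Set ℕ) := by
    intro s hs t ht hst
    have hs' := hS s hs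
    have ht' := hS t ht
    refine Nat.eq_of_factorization_eq (by omega) (by omega) fun p => ?_
    by_cases hp : p ∈ P
    · exact congrFun hst ⟨p, hp⟩
    · by_cases hpp : p.Prime
      · rw [Nat.factorization_eq_zero_of_not_dvd fun h => hp (hs'.2 p hpp h),
          Nat.factorization_eq_zero_of_not_dvd fun h => hp (ht'.2 p hpp h)]
      · rw [Nat.factorization_eq_zero_of_not_prime s hpp,
          Nat.factorization_eq_zero_of_not_prime t hpp]
  rw [← Finset.sum_image (g := fun (s : ℕ) (i : P) => s.factorization i)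
    (f := fun x : P → ℕ => ∏ i : P, g i (x i)) hinj]
  refine Finset.sum_le_sum_of_subset_of_nonneg ?_ fun x _ _ => ?_
  · intro x hx
    obtain ⟨s, hs, rfl⟩ := Finset.mem_image.1 hx
    rw [Fintype.mem_piFinset]
    intro i
    exact mem_range.2 (hJ s hs i i.2)
  · exact Finset.prod_nonneg fun i _ => hg i i.2 _

private lemma eul_mem {y s : ℕ} (h : ∀ p : ℕ, p.Prime → p ∣ s → p ≤ y) :
    s.primeFactors ⊆ (Finset.range (y + 1)).filter Nat.Prime := by
  intro p hp
  rw [mem_filter, mem_range]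
  have hpp := Nat.prime_of_mem_primeFactors hp
  exact ⟨Nat.lt_succ_of_le (h p hpp (Nat.dvd_of_mem_primeFactors hp)), hpp⟩

private lemma eul_prod {y s : ℕ} (hs : 1 ≤ s) (h : ∀ p : ℕ, p.Prime → p ∣ s → p ≤ y) :
    (s : ℝ) = ∏ p ∈ (Finset.range (y + 1)).filter Nat.Prime, (p : ℝ) ^ s.factorization p := by
  have h1 : s.factorization.prod (fun x1 x2 => x1 ^ x2) = s :=
    Nat.prod_factorization_pow_eq_self (by omega)
  have h2 : ∏ p ∈ (Finset.range (y + 1)).filter Nat.Prime, p ^ s.factorization p = s := by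
    conv_rhs => rw [← h1]
    unfold Finsupp.prod
    symm
    refine Finset.prod_subset ?_ fun p _ hp => ?_
    · intro p hp
      exact eul_mem h (by simpa using hp)
    · rw [Finsupp.notMem_support_iff.1 hp]
      exact pow_zero p
  conv_lhs => rw [← h2]
  push_cast
  rfl

private lemma eul_Om (z : ℝ) (y s : ℕ) :
    z ^ Om y s = ∏ p ∈ (Finset.range (y + 1)).filter Nat.Prime, z ^ s.factorization p := by
  unfold Om
  rw [Finset.prod_pow_eq_pow_sum]

private lemma eul_FF {y s : ℕ} (hs : 1 ≤ s) (h : ∀ p : ℕ, p.Prime → p ∣ s → p ≤ y) :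
    FF s = ∏ p ∈ (Finset.range (y + 1)).filter Nat.Prime,
      (if s.factorization p = 0 then (1 : ℝ) else 1 + 4 / (p : ℝ)) := by
  unfold FF
  rw [← Finset.prod_subset (eul_mem h)]
  · refine Finset.prod_congr rfl fun p hp => ?_
    rw [if_neg]
    have h1 : p ∈ s.factorization.support := by
      rw [Nat.support_factorization]
      exact hp
    exact Finsupp.mem_support_iff.1 h1
  · intro p _ hp
    rw [if_pos]
    have h1 : p ∉ s.factorization.support := by
      rw [Nat.support_factorization]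
      exact hp
    exact Finsupp.notMem_support_iff.1 h1

private lemma eul_geom {x : ℝ} (h0 : 0 ≤ x) (h1 : x < 1) (J : ℕ) :
    ∑ j ∈ range J, x ^ j ≤ 1 / (1 - x) := by
  have h2 : (1 - x) * ∑ j ∈ range J, x ^ j = 1 - x ^ J := by
    have := mul_neg_geom_sum x J
    linarith
  rw [le_div_iff₀ (by linarith)]
  have h3 : 0 ≤ x ^ J := pow_nonneg h0 J
  nlinarith

private lemma eul_loc {z : ℝ} (hz0 : 1 / 2 ≤ z) (hz1 : z ≤ 3 / 2) {p : ℕ} (hp : p.Prime) (J : ℕ) :
    ∑ j ∈ range J, (z / p) ^ j * (if j = 0 then (1 : ℝ) else 1 + 4 / (p : ℝ)) ≤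
      Real.exp (z * (1 / p) + 100 * ((p : ℝ) ^ 2)⁻¹) := by
  have hp2 : (2 : ℝ) ≤ p := by exact_mod_cast hp.two_le
  set x : ℝ := z / p with hx
  have hx0 : 0 ≤ x := by positivity
  have hx1 : x ≤ 3 / 4 := by
    rw [hx, div_le_iff₀ (by linarith)]
    nlinarith
  set u : ℝ := 1 / (p : ℝ) with hu
  have hu0 : 0 < u := by positivity
  have hu1 : u ≤ 1 / 2 := by
    rw [hu]
    exact one_div_le_one_div_of_le (by norm_num) hp2
  have hxu : x = z * u := by rw [hx, hu]; ring
  have h1 : ∑ j ∈ range J, x ^ j * (if j = 0 then (1 : ℝ) else 1 + 4 / (p : ℝ)) ≤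
      1 + (1 + 4 * u) * (x / (1 - x)) := by
    rcases J with _ | J
    · rw [Finset.sum_range_zero]
      have : 0 ≤ x / (1 - x) := div_nonneg hx0 (by linarith)
      positivity
    · rw [Finset.sum_range_succ']
      have h2 : ∑ k ∈ range J, x ^ (k + 1) * (if k + 1 = 0 then (1 : ℝ) else 1 + 4 / (p : ℝ)) =
          (1 + 4 * u) * (x * ∑ k ∈ range J, x ^ k) := by
        rw [Finset.mul_sum, Finset.mul_sum]
        refine Finset.sum_congr rfl fun k _ => ?_
        rw [if_neg (by omega), hu, pow_succ]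
        ring
      rw [h2]
      have h3 := eul_geom hx0 (by linarith : x < 1) J
      have h4 : x * ∑ k ∈ range J, x ^ k ≤ x / (1 - x) := by
        have := mul_le_mul_of_nonneg_left h3 hx0
        rwa [mul_one_div] at this
      have h5 := mul_le_mul_of_nonneg_left h4 (by positivity : 0 ≤ 1 + 4 * u)
      simp only [pow_zero, if_true, mul_one]
      linarith
  refine h1.trans ?_
  have h6 : x / (1 - x) ≤ x + 4 * x ^ 2 := by
    rw [div_le_iff₀ (by linarith)]
    have : 0 ≤ x ^ 2 * (3 - 4 * x) := by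
      refine mul_nonneg (sq_nonneg _) (by linarith)
    nlinarith
  have h7 : (1 + 4 * u) * (x / (1 - x)) ≤ (1 + 4 * u) * (x + 4 * x ^ 2) :=
    mul_le_mul_of_nonneg_left h6 (by positivity)
  have h8 : (1 + 4 * u) * (x + 4 * x ^ 2) ≤ z * u + 100 * u ^ 2 := by
    rw [hxu]
    have hz2 : z ^ 2 ≤ 9 / 4 := by nlinarith
    have hzu : z * u ^ 2 ≤ 3 / 2 * u ^ 2 := mul_le_mul_of_nonneg_right hz1 (sq_nonneg _)
    have hzu2 : z ^ 2 * u ^ 2 ≤ 9 / 4 * u ^ 2 := mul_le_mul_of_nonneg_right hz2 (sq_nonneg _)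
    have hzu3 : z ^ 2 * u ^ 3 ≤ 9 / 4 * u ^ 2 := by
      have h9 : u ^ 3 ≤ u ^ 2 := by nlinarith [sq_nonneg u]
      have h10 : z ^ 2 * u ^ 3 ≤ z ^ 2 * u ^ 2 := mul_le_mul_of_nonneg_left h9 (sq_nonneg _)
      linarith
    have h11 : (1 + 4 * u) * (z * u + 4 * (z * u) ^ 2) =
      z * u + 4 * (z ^ 2 * u ^ 2) + 4 * (z * u ^ 2) + 16 * (z ^ 2 * u ^ 3) := by ring
    rw [h11]
    nlinarith [sq_nonneg u]
  have h12 : u ^ 2 = ((p : ℝ) ^ 2)⁻¹ := by rw [hu]; field_simp
  have h13 := Real.add_one_le_exp (z * u + 100 * ((p : ℝ) ^ 2)⁻¹)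
  rw [← h12] at h13 ⊢
  linarith

private lemma eul_sq (y : ℕ) :
    ∑ p ∈ (Finset.range (y + 1)).filter Nat.Prime, ((p : ℝ) ^ 2)⁻¹ ≤ 2 := by
  have h1 := sum_Ioo_inv_sq_le (α := ℝ) 0 (y + 1)
  have h2 : ∑ p ∈ (Finset.range (y + 1)).filter Nat.Prime, ((p : ℝ) ^ 2)⁻¹ ≤
      ∑ i ∈ Ioo 0 (y + 1), ((i : ℝ) ^ 2)⁻¹ := by
    refine Finset.sum_le_sum_of_subset_of_nonneg ?_ fun i _ _ => by positivity
    intro p hp
    rw [mem_filter, mem_range] at hp
    rw [mem_Ioo]
    exact ⟨hp.2.pos, hp.1⟩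
  have h3 : (2 : ℝ) / (((0 : ℕ) : ℝ) + 1) = 2 := by norm_num
  linarith

private lemma eul_mert {y : ℕ} (hy : 2 ≤ y) :
    ∑ p ∈ (Finset.range (y + 1)).filter Nat.Prime, 1 / (p : ℝ) ≤
      Real.log (Real.log y) + 3.4 := by
  refine le_trans (le_of_eq ?_) (Helper24.sum_inv_primes_le y hy)
  refine Finset.sum_congr ?_ fun _ _ => rfl
  ext p
  rw [mem_filter, mem_range, Nat.mem_primesLE]
  constructor
  · rintro ⟨h1, h2⟩
    exact ⟨by omega, h2⟩
  · rintro ⟨h1, h2⟩
    exact ⟨by omega, h2⟩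

theorem eul : ∃ K : ℝ, 0 < K ∧ ∀ z : ℝ, 1 / 2 ≤ z → z ≤ 3 / 2 → ∀ y : ℕ, 3 ≤ y → ∀ S : Finset ℕ,
    (∀ s ∈ S, 1 ≤ s ∧ ∀ p : ℕ, p.Prime → p ∣ s → p ≤ y) →
      ∑ s ∈ S, z ^ Om y s / s * FF s ≤ K * (Real.log y) ^ z := by
  refine ⟨Real.exp 300, Real.exp_pos _, ?_⟩
  intro z hz0 hz1 y hy S hS
  set P := (Finset.range (y + 1)).filter Nat.Prime with hP
  have hPp : ∀ p ∈ P, p.Prime := fun p hp => (mem_filter.1 hp).2
  have hlog : 0 < Real.log y := Real.log_pos (by exact_mod_cast (by omega : 1 < y))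
  have h1 : ∑ s ∈ S, z ^ Om y s / s * FF s ≤ ∏ p ∈ P, ∑ j ∈ range (S.sup id + 1),
      (z / p) ^ j * (if j = 0 then (1 : ℝ) else 1 + 4 / (p : ℝ)) := by
    refine eul_smooth P (fun p j => (z / p) ^ j * (if j = 0 then (1 : ℝ) else 1 + 4 / (p : ℝ)))
      ?_ _ S ?_ ?_ _ ?_
    · intro p _ j
      have h2 : 0 ≤ z / p := by positivity
      split_ifs
      · positivity
      · positivity
    · intro s hs
      refine ⟨(hS s hs).1, fun p hp hd => ?_⟩
      exact mem_filter.2 ⟨mem_range.2 (Nat.lt_succ_of_le ((hS s hs).2 p hp hd)), hp⟩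
    · intro s hs p _
      have h2 := Nat.factorization_lt p (show s ≠ 0 by have := (hS s hs).1; omega)
      have h3 : s ≤ S.sup id := Finset.le_sup (f := id) hs
      omega
    · intro s hs
      refine le_of_eq ?_
      obtain ⟨h2, h3⟩ := hS s hs
      have h4 : (z ^ Om y s / s : ℝ) = ∏ p ∈ P, (z / p) ^ s.factorization p := by
        conv_lhs => rw [eul_Om, eul_prod h2 h3]
        rw [← Finset.prod_div_distrib]
        refine Finset.prod_congr rfl fun p _ => ?_
        rw [div_pow]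
      rw [h4, eul_FF h2 h3, ← Finset.prod_mul_distrib]
  have h5 : ∏ p ∈ P, ∑ j ∈ range (S.sup id + 1),
      (z / p) ^ j * (if j = 0 then (1 : ℝ) else 1 + 4 / (p : ℝ)) ≤
      ∏ p ∈ P, Real.exp (z * (1 / p) + 100 * ((p : ℝ) ^ 2)⁻¹) := by
    refine Finset.prod_le_prod (fun p _ => ?_) fun p hp => eul_loc hz0 hz1 (hPp p hp) _
    refine Finset.sum_nonneg fun j _ => ?_
    have h2 : 0 ≤ z / p := by positivity
    split_ifs
    · positivity
    · positivity
  refine (h1.trans h5).trans ?_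
  rw [← Real.exp_sum, Finset.sum_add_distrib, ← Finset.mul_sum, ← Finset.mul_sum]
  have h6 := eul_sq y
  have h7 := eul_mert (show 2 ≤ y by omega)
  have h8 : z * ∑ p ∈ P, 1 / (p : ℝ) ≤ z * (Real.log (Real.log y) + 3.4) :=
    mul_le_mul_of_nonneg_left h7 (by linarith)
  have h9 : (Real.log y) ^ z = Real.exp (Real.log (Real.log y) * z) := Real.rpow_def_of_pos hlog z
  rw [h9, ← Real.exp_add]
  refine Real.exp_le_exp.2 ?_
  rw [← hP] at h6
  nlinarith

theorem rank : ∃ K : ℝ, 0 < K ∧ ∃ y₀ : ℕ, 3 ≤ y₀ ∧ ∀ z : ℝ, 1 / 2 ≤ z → z ≤ 3 / 2 → ∀ y : ℕ, y₀ ≤ y →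
    ∀ Z : ℝ, 1 ≤ Z → ∀ S : Finset ℕ, (∀ s ∈ S, Z < s ∧ ∀ p : ℕ, p.Prime → p ∣ s → p ≤ y) →
      ∑ s ∈ S, z ^ Om y s / s ≤ K * (Real.log y) ^ K * Real.exp (-(Real.log Z / Real.log y)) := by
  refine ⟨Real.exp 100, Real.exp_pos _, ⌈Real.exp 200⌉₊ + 3, by omega, ?_⟩
  intro z hz0 hz1 y hy Z hZ S hS
  set P := (Finset.range (y + 1)).filter Nat.Prime with hP
  have hPp : ∀ p ∈ P, p.Prime := fun p hp => (mem_filter.1 hp).2
  have hyr : Real.exp 200 ≤ y := by
    have h1 := Nat.le_ceil (Real.exp 200)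
    have h2 : ((⌈Real.exp 200⌉₊ : ℕ) : ℝ) ≤ y := by exact_mod_cast (by omega)
    linarith
  have hlog : 200 ≤ Real.log y := by
    have := Real.log_le_log (Real.exp_pos _) hyr
    rwa [Real.log_exp] at this
  have hlog0 : 0 < Real.log y := by linarith
  set σ : ℝ := 1 / Real.log y with hσ
  have hσ0 : 0 < σ := by positivity
  set c : ℕ → ℝ := fun p => z * Real.exp (Real.log p * σ) / p with hc
  have hc0 : ∀ p, 0 ≤ c p := fun p => by
    rw [hc]
    positivity
  have he : Real.exp 1 < 2.7182818286 := Real.exp_one_lt_d9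
  -- bounds for the local parameters
  have hce : ∀ p ∈ P, c p ≤ 41 / 10 * (1 / (p : ℝ)) := by
    intro p hp
    have hpp := hPp p hp
    have hp2 : (2 : ℝ) ≤ p := by exact_mod_cast hpp.two_le
    have hpy : (p : ℝ) ≤ y := by
      have := mem_range.1 (mem_filter.1 hp).1
      exact_mod_cast (by omega : p ≤ y)
    have h1 : Real.log p * σ ≤ 1 := by
      rw [hσ, mul_one_div, div_le_one hlog0]
      exact Real.log_le_log (by linarith) hpy
    have h2 : Real.exp (Real.log p * σ) ≤ Real.exp 1 := Real.exp_le_exp.2 h1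
    have h3 : z * Real.exp (Real.log p * σ) ≤ 41 / 10 := by
      have h4 : z * Real.exp (Real.log p * σ) ≤ 3 / 2 * Real.exp 1 :=
        mul_le_mul hz1 h2 (Real.exp_pos _).le (by norm_num)
      linarith
    rw [hc, mul_one_div]
    exact div_le_div_of_nonneg_right h3 (by linarith)
  have hcl : ∀ p ∈ P, c p ≤ 82 / 100 := by
    intro p hp
    have hpp := hPp p hp
    rcases lt_or_ge p 5 with hp5 | hp5
    · have hp2 : (2 : ℝ) ≤ p := by exact_mod_cast hpp.two_le
      have hp4 : (p : ℝ) ≤ 4 := by exact_mod_cast (by omega : p ≤ 4)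
      have h1 : Real.log p ≤ 2 := by
        have h2 : Real.log p ≤ Real.log 4 := Real.log_le_log (by linarith) hp4
        have h3 : Real.log 4 = 2 * Real.log 2 := by
          rw [show (4 : ℝ) = 2 ^ 2 by norm_num, Real.log_pow]
          norm_num
        have h4 := Real.log_two_lt_d9
        linarith
      have h5 : Real.log p * σ ≤ 1 / 100 := by
        have h6 : σ ≤ 1 / 200 := by
          rw [hσ]
          exact one_div_le_one_div_of_le (by norm_num) hlog
        have h7 : 0 ≤ Real.log p := Real.log_nonneg (by linarith)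
        nlinarith
      have h8 : Real.exp (Real.log p * σ) ≤ 102 / 100 := by
        have h9 : Real.exp (Real.log p * σ) ≤ Real.exp (1 / 100) := Real.exp_le_exp.2 h5
        have h10 : Real.exp (1 / 100) ≤ 102 / 100 := by
          have h11 := Real.add_one_le_exp (-(1 / 100 : ℝ))
          have h12 : Real.exp (1 / 100) * Real.exp (-(1 / 100)) = 1 := by
            rw [← Real.exp_add]
            norm_num
          have h13 := Real.exp_pos (1 / 100 : ℝ)
          nlinarith
        linarith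
      have h14 : z * Real.exp (Real.log p * σ) ≤ 3 / 2 * (102 / 100) :=
        mul_le_mul hz1 h8 (Real.exp_pos _).le (by norm_num)
      rw [hc]
      show z * Real.exp (Real.log p * σ) / p ≤ 82 / 100
      rw [div_le_iff₀ (by linarith)]
      nlinarith
    · have h1 := hce p hp
      have h2 : (5 : ℝ) ≤ p := by exact_mod_cast hp5
      have h3 : 1 / (p : ℝ) ≤ 1 / 5 := one_div_le_one_div_of_le (by norm_num) h2
      linarith
  -- Rankin
  have hrk : ∀ s ∈ S, z ^ Om y s / s ≤
      Real.exp (-(Real.log Z / Real.log y)) * ∏ p ∈ P, c p ^ s.factorization p := by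
    intro s hs
    obtain ⟨h1, h2⟩ := hS s hs
    have hs0 : (0 : ℝ) < s := by linarith
    have hs1 : 1 ≤ s := by
      have : 0 < s := by exact_mod_cast hs0
      omega
    have h3 : ∏ p ∈ P, c p ^ s.factorization p =
        z ^ Om y s * Real.exp (Real.log s * σ) / s := by
      have h4 : Real.exp (Real.log s * σ) =
          ∏ p ∈ P, Real.exp (Real.log p * σ) ^ s.factorization p := by
        have h5 : Real.log s = ∑ p ∈ P, (s.factorization p : ℝ) * Real.log p := by
          conv_lhs => rw [eul_prod hs1 h2]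
          rw [Real.log_prod]
          · refine Finset.sum_congr rfl fun p _ => ?_
            rw [Real.log_pow]
          · intro p hp
            have := (hPp p hp).pos
            positivity
        rw [h5, Finset.sum_mul, Real.exp_sum]
        refine Finset.prod_congr rfl fun p _ => ?_
        rw [← Real.exp_nat_mul]
        congr 1
        ring
      conv_rhs => rw [h4, eul_Om, eul_prod hs1 h2]
      rw [← Finset.prod_mul_distrib, ← Finset.prod_div_distrib]
      refine Finset.prod_congr rfl fun p _ => ?_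
      rw [hc, div_pow, mul_pow]
    rw [h3]
    have h6 : 1 ≤ Real.exp (-(Real.log Z / Real.log y)) * Real.exp (Real.log s * σ) := by
      rw [← Real.exp_add]
      refine Real.one_le_exp ?_
      have h7 : Real.log Z ≤ Real.log s := Real.log_le_log (by linarith) h1.le
      have h8 : -(Real.log Z / Real.log y) + Real.log s * σ = (Real.log s - Real.log Z) * σ := by
        rw [hσ]
        ring
      rw [h8]
      exact mul_nonneg (by linarith) hσ0.le
    have h9 : 0 ≤ z ^ Om y s / (s : ℝ) := by positivity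
    calc z ^ Om y s / (s : ℝ) = z ^ Om y s / (s : ℝ) * 1 := (mul_one _).symm
      _ ≤ z ^ Om y s / (s : ℝ) *
          (Real.exp (-(Real.log Z / Real.log y)) * Real.exp (Real.log s * σ)) :=
        mul_le_mul_of_nonneg_left h6 h9
      _ = _ := by ring
  have h1 : ∑ s ∈ S, ∏ p ∈ P, c p ^ s.factorization p ≤
      ∏ p ∈ P, ∑ j ∈ range (S.sup id + 1), c p ^ j := by
    refine eul_smooth P (fun p j => c p ^ j) ?_ _ S ?_ ?_ _ ?_
    · intro p _ j
      exact pow_nonneg (hc0 p) j
    · intro s hs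
      have h2 := (hS s hs).1
      have h3 : (0 : ℝ) < s := by linarith
      have h4 : 0 < s := by exact_mod_cast h3
      refine ⟨h4, fun p hp hd => ?_⟩
      exact mem_filter.2 ⟨mem_range.2 (Nat.lt_succ_of_le ((hS s hs).2 p hp hd)), hp⟩
    · intro s hs p _
      have h2 := (hS s hs).1
      have h3 : (0 : ℝ) < s := by linarith
      have h4 : 0 < s := by exact_mod_cast h3
      have h5 := Nat.factorization_lt p (show s ≠ 0 by omega)
      have h6 : s ≤ S.sup id := Finset.le_sup (f := id) hs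
      omega
    · intro s _
      exact le_rfl
  have h2 : ∏ p ∈ P, ∑ j ∈ range (S.sup id + 1), c p ^ j ≤ ∏ p ∈ P, Real.exp (6 * c p) := by
    refine Finset.prod_le_prod (fun p _ => Finset.sum_nonneg fun j _ => pow_nonneg (hc0 p) j)
      fun p hp => ?_
    have h3 := hcl p hp
    refine (eul_geom (hc0 p) (by linarith) _).trans ?_
    have h4 : 1 / (1 - c p) ≤ 1 + 6 * c p := by
      rw [div_le_iff₀ (by linarith)]
      nlinarith [hc0 p]
    have h5 := Real.add_one_le_exp (6 * c p)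
    linarith
  have h3 : ∏ p ∈ P, Real.exp (6 * c p) ≤ Real.exp (25 * (Real.log (Real.log y) + 3.4)) := by
    rw [← Real.exp_sum]
    refine Real.exp_le_exp.2 ?_
    rw [← Finset.mul_sum]
    have h4 : ∑ p ∈ P, c p ≤ ∑ p ∈ P, 41 / 10 * (1 / (p : ℝ)) := Finset.sum_le_sum hce
    rw [← Finset.mul_sum] at h4
    have h5 := eul_mert (show 2 ≤ y by omega)
    rw [← hP] at h5
    have h6 : 0 ≤ ∑ p ∈ P, 1 / (p : ℝ) := Finset.sum_nonneg fun p _ => by positivity
    nlinarith
  have h4 : Real.exp (25 * (Real.log (Real.log y) + 3.4)) ≤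
      Real.exp 100 * (Real.log y) ^ (Real.exp 100) := by
    have h5 : (Real.log y) ^ (Real.exp 100) =
        Real.exp (Real.log (Real.log y) * Real.exp 100) := Real.rpow_def_of_pos hlog0 _
    rw [h5, ← Real.exp_add]
    refine Real.exp_le_exp.2 ?_
    have h6 : 0 ≤ Real.log (Real.log y) := Real.log_nonneg (by linarith)
    have h7 : (25 : ℝ) ≤ Real.exp 100 := by
      have := Real.add_one_le_exp (100 : ℝ)
      linarith
    nlinarith
  calc ∑ s ∈ S, z ^ Om y s / s
      ≤ ∑ s ∈ S, Real.exp (-(Real.log Z / Real.log y)) * ∏ p ∈ P, c p ^ s.factorization p :=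
        Finset.sum_le_sum hrk
    _ = Real.exp (-(Real.log Z / Real.log y)) * ∑ s ∈ S, ∏ p ∈ P, c p ^ s.factorization p := by
        rw [Finset.mul_sum]
    _ ≤ Real.exp (-(Real.log Z / Real.log y)) *
          (Real.exp 100 * (Real.log y) ^ (Real.exp 100)) :=
        mul_le_mul_of_nonneg_left (((h1.trans h2).trans h3).trans h4) (Real.exp_pos _).le
    _ = _ := by ring

end Pool.Agent.BDT
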