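import Pool.Agent.BDT.Defs
import Pool.Agent.Helper24.SieveDensity

/-!
# BDT-FPow: products of Selberg denominators
-/

open Finset Pool.Agent.Helper24

namespace Pool.Agent.BDT

private theorem fp_pf_lcm {a b : ℕ} (ha : a ≠ 0) (hb : b ≠ 0) :
    (a.lcm b).primeFactors = a.primeFactors ∪ b.primeFactors := by
  ext p
  have hl : a.lcm b ≠ 0 := Nat.lcm_ne_zero ha hb
  simp only [mem_union, Nat.mem_primeFactors]
  constructor
  · rintro ⟨hp, hd, -⟩
    have h1 : p ∣ a * b := hd.trans (Nat.lcm_dvd_mul a b)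
    rcases (hp.dvd_mul).1 h1 with h2 | h2
    · exact Or.inl ⟨hp, h2, ha⟩
    · exact Or.inr ⟨hp, h2, hb⟩
  · rintro (⟨hp, hd, -⟩ | ⟨hp, hd, -⟩)
    · exact ⟨hp, hd.trans (Nat.dvd_lcm_left a b), hl⟩
    · exact ⟨hp, hd.trans (Nat.dvd_lcm_right a b), hl⟩

private theorem fp_pair (g h : ℕ → ℝ) (hg : ∀ p, 0 ≤ g p) (hh : ∀ p, 0 ≤ h p) (S : Finset ℕ)
    (P : Finset (Finset ℕ × Finset ℕ)) (hP : ∀ x ∈ P, x.1 ∪ x.2 = S) :
    ∑ x ∈ P, (∏ p ∈ x.1, g p) * ∏ p ∈ x.2, h p ≤ ∏ p ∈ S, (g p + h p + g p * h p) := by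
  classical
  have h1 : ∏ p ∈ S, (g p + h p + g p * h p) =
      ∑ y ∈ S.powerset.sigma (fun B => B.powerset),
        ((∏ p ∈ y.2, g p) * ∏ p ∈ S \ y.1, g p) * ∏ p ∈ y.1, h p := by
    rw [sum_sigma]
    have h2 : ∀ p, g p + h p + g p * h p = h p * (1 + g p) + g p := by
      intro p
      ring
    rw [prod_congr rfl fun p _ => h2 p, prod_add]
    refine sum_congr rfl fun B _ => ?_
    rw [prod_mul_distrib, prod_one_add, mul_sum, sum_mul]
    refine sum_congr rfl fun A _ => ?_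
    ring
  rw [h1]
  have h3 : ∀ x ∈ P, (∏ p ∈ x.1, g p) * ∏ p ∈ x.2, h p =
      ((∏ p ∈ x.1 ∩ x.2, g p) * ∏ p ∈ S \ x.2, g p) * ∏ p ∈ x.2, h p := by
    intro x hx
    have h4 : x.1 = (x.1 ∩ x.2) ∪ (S \ x.2) := by
      rw [← hP x hx]
      ext p
      simp only [mem_union, mem_inter, mem_sdiff]
      tauto
    have h5 : Disjoint (x.1 ∩ x.2) (S \ x.2) := by
      rw [disjoint_left]
      intro p hp hp'
      exact (mem_sdiff.1 hp').2 (mem_inter.1 hp).2
    congr 1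
    rw [← prod_union h5, ← h4]
  rw [sum_congr rfl h3]
  have hinj : Set.InjOn (fun x : Finset ℕ × Finset ℕ =>
      (⟨x.2, x.1 ∩ x.2⟩ : Sigma fun _ : Finset ℕ => Finset ℕ)) (↑P : Set (Finset ℕ × Finset ℕ)) := by
    intro x hx y hy hxy
    rw [mem_coe] at hx hy
    have h6 : x.2 = y.2 := congrArg Sigma.fst hxy
    have h7 : x.1 ∩ x.2 = y.1 ∩ y.2 := congrArg Sigma.snd hxy
    have h8 : ∀ z ∈ P, z.1 = (z.1 ∩ z.2) ∪ (S \ z.2) := by
      intro z hz
      rw [← hP z hz]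
      ext p
      simp only [mem_union, mem_inter, mem_sdiff]
      tauto
    refine Prod.ext ?_ h6
    rw [h8 x hx, h8 y hy, h7, h6]
  rw [← sum_image (f := fun y : Sigma fun _ : Finset ℕ => Finset ℕ =>
    ((∏ p ∈ y.2, g p) * ∏ p ∈ S \ y.1, g p) * ∏ p ∈ y.1, h p) hinj]
  refine sum_le_sum_of_subset_of_nonneg ?_ fun y _ _ => ?_
  · intro y hy
    rw [mem_image] at hy
    obtain ⟨x, hx, rfl⟩ := hy
    rw [mem_sigma, mem_powerset, mem_powerset]
    refine ⟨?_, inter_subset_right⟩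
    rw [← hP x hx]
    exact subset_union_right
  · exact mul_nonneg (mul_nonneg (prod_nonneg fun p _ => hg p) (prod_nonneg fun p _ => hg p))
      (prod_nonneg fun p _ => hh p)

private theorem fp_nonneg (Y : ℕ) (g : ℕ → ℝ) (hg : ∀ p, 0 ≤ g p) : 0 ≤ Fsum Y g := by
  unfold Fsum
  exact sum_nonneg fun l _ => prod_nonneg fun p _ => hg p

theorem fsum_mul (Z Y : ℕ) (g h : ℕ → ℝ) (hg : ∀ p, 0 ≤ g p) (hh : ∀ p, 0 ≤ h p) :
    Fsum Z g * Fsum Y h ≤ Fsum (Z * Y) (fun p => g p + h p + g p * h p) := by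
  classical
  rw [Fsum, Fsum, sum_mul_sum, ← sum_product']
  have hmaps : ∀ x ∈ sqf Z ×ˢ sqf Y, x.1.lcm x.2 ∈ sqf (Z * Y) := by
    intro x hx
    rw [mem_product, mem_sqf, mem_sqf] at hx
    obtain ⟨⟨⟨a1, a2⟩, a3⟩, ⟨b1, b2⟩, b3⟩ := hx
    rw [mem_sqf]
    refine ⟨⟨Nat.lcm_pos a1 b1, ?_⟩, ?_⟩
    · calc x.1.lcm x.2 ≤ x.1 * x.2 := Nat.div_le_self _ _
        _ ≤ Z * Y := Nat.mul_le_mul a2 b2
    · have hl0 : x.1.lcm x.2 ≠ 0 := (Nat.lcm_pos a1 b1).ne'
      refine (Nat.squarefree_iff_factorization_le_one hl0).2 fun p => ?_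
      have ha0 : x.1 ≠ 0 := by omega
      have hb0 : x.2 ≠ 0 := by omega
      rw [Nat.factorization_lcm ha0 hb0, Finsupp.sup_apply]
      exact sup_le ((Nat.squarefree_iff_factorization_le_one ha0).1 a3 p)
        ((Nat.squarefree_iff_factorization_le_one hb0).1 b3 p)
  rw [← sum_fiberwise_of_maps_to hmaps, Fsum]
  refine sum_le_sum fun L hL => ?_
  set T := (sqf Z ×ˢ sqf Y).filter (fun x => x.1.lcm x.2 = L) with hT
  have hinj : Set.InjOn (fun x : ℕ × ℕ => (x.1.primeFactors, x.2.primeFactors))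
      (↑T : Set (ℕ × ℕ)) := by
    intro x hx y hy hxy
    rw [mem_coe, hT, mem_filter, mem_product, mem_sqf, mem_sqf] at hx hy
    have h1 : x.1.primeFactors = y.1.primeFactors := congrArg Prod.fst hxy
    have h2 : x.2.primeFactors = y.2.primeFactors := congrArg Prod.snd hxy
    refine Prod.ext ?_ ?_
    · rw [← Nat.prod_primeFactors_of_squarefree hx.1.1.2,
        ← Nat.prod_primeFactors_of_squarefree hy.1.1.2, h1]
    · rw [← Nat.prod_primeFactors_of_squarefree hx.1.2.2,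
        ← Nat.prod_primeFactors_of_squarefree hy.1.2.2, h2]
  rw [← sum_image (f := fun y : Finset ℕ × Finset ℕ => (∏ p ∈ y.1, g p) * ∏ p ∈ y.2, h p) hinj]
  apply fp_pair g h hg hh
  intro y hy
  rw [mem_image] at hy
  obtain ⟨x, hx, rfl⟩ := hy
  rw [hT, mem_filter, mem_product, mem_sqf, mem_sqf] at hx
  show x.1.primeFactors ∪ x.2.primeFactors = L.primeFactors
  rw [← hx.2, fp_pf_lcm hx.1.1.2.ne_zero hx.1.2.2.ne_zero]

theorem fsum_pow (y j : ℕ) (hy : 1 ≤ y) :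
    (Real.log y) ^ j ≤ 2 ^ j * Fsum (y ^ j) (fun p => if p ≤ y then (1 + 1 / (p : ℝ)) ^ j - 1 else 0) := by
  have hnn : ∀ (j : ℕ) (p : ℕ), 0 ≤ (if p ≤ y then (1 + 1 / (p : ℝ)) ^ j - 1 else 0) := by
    intro j p
    split_ifs
    · have h1 : (1 : ℝ) ≤ (1 + 1 / (p : ℝ)) ^ j := by
        apply one_le_pow₀
        have : (0 : ℝ) ≤ 1 / (p : ℝ) := by positivity
        linarith
      linarith
    · exact le_refl _
  have hh0 : ∀ p : ℕ, 0 ≤ (if p ≤ y then 1 / (p : ℝ) else 0) := by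
    intro p
    split_ifs
    · positivity
    · exact le_refl _
  have hlog0 : 0 ≤ Real.log y := Real.log_nonneg (by exact_mod_cast hy)
  have hlog : Real.log y ≤ 2 * Fsum y (fun p => if p ≤ y then 1 / (p : ℝ) else 0) := by
    refine (log_le_two_mul_Fsum_inv y).trans ?_
    refine mul_le_mul_of_nonneg_left ?_ (by norm_num)
    apply Fsum_mono
    · intro p _ _
      positivity
    · intro p _ hp
      rw [if_pos hp]
  induction j with
  | zero =>
    rw [pow_zero, pow_zero, pow_zero, one_mul]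
    have h1 : sqf 1 = {1} := by
      ext l
      rw [mem_sqf, mem_singleton]
      constructor
      · rintro ⟨⟨h1, h2⟩, -⟩
        omega
      · rintro rfl
        exact ⟨⟨le_rfl, le_rfl⟩, squarefree_one⟩
    rw [Fsum, h1, sum_singleton, Nat.primeFactors_one, prod_empty]
  | succ j ih =>
    have h1 : (Real.log y) ^ (j + 1) ≤
        (2 ^ j * Fsum (y ^ j) (fun p => if p ≤ y then (1 + 1 / (p : ℝ)) ^ j - 1 else 0)) *
          (2 * Fsum y (fun p => if p ≤ y then 1 / (p : ℝ) else 0)) := by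
      rw [pow_succ]
      apply mul_le_mul ih hlog hlog0
      exact mul_nonneg (by positivity) (fp_nonneg _ _ (hnn j))
    refine h1.trans ?_
    have h2 := fsum_mul (y ^ j) y (fun p => if p ≤ y then (1 + 1 / (p : ℝ)) ^ j - 1 else 0)
      (fun p => if p ≤ y then 1 / (p : ℝ) else 0) (hnn j) hh0
    have h3 : (fun p : ℕ => (if p ≤ y then (1 + 1 / (p : ℝ)) ^ j - 1 else 0) +
        (if p ≤ y then 1 / (p : ℝ) else 0) +
        (if p ≤ y then (1 + 1 / (p : ℝ)) ^ j - 1 else 0) * (if p ≤ y then 1 / (p : ℝ) else 0)) =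
        (fun p : ℕ => if p ≤ y then (1 + 1 / (p : ℝ)) ^ (j + 1) - 1 else 0) := by
      funext p
      split_ifs
      · rw [pow_succ]
        ring
      · ring
    have h4 : Fsum (y ^ j) (fun p => if p ≤ y then (1 + 1 / (p : ℝ)) ^ j - 1 else 0) *
        Fsum y (fun p => if p ≤ y then 1 / (p : ℝ) else 0) ≤
        Fsum (y ^ (j + 1)) (fun p => if p ≤ y then (1 + 1 / (p : ℝ)) ^ (j + 1) - 1 else 0) := by
      rw [pow_succ, ← h3]
      exact h2
    have h5 := mul_le_mul_of_nonneg_left h4 (show (0 : ℝ) ≤ 2 ^ (j + 1) by positivity)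
    refine le_trans (le_of_eq ?_) h5
    rw [pow_succ]
    ring

end Pool.Agent.BDT
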