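import Mathlib

/-!
# BDL-LOne (1.4h): partial sums of `∑ χ(m)/m`

Partial sums of `χ` over intervals are bounded by `q` (`∑` over a full period is 0 for `χ ≠ 1`: `MulChar.sum_eq_zero_of_ne_one` or `DirichletCharacter`). Abel summation: `∑_{x < m ≤ y} χ(m)/m` has norm `≤ 2q/x`; so the series converges to
some `ℓ` with `‖∑_{m ≤ x} χ(m)/m - ℓ‖ ≤ 2q/x` (Cauchy sequence). `clog`: same with the function `log m/m`, decreasing for `m ≥ 3`.
`ℓ ≠ 0`: for real `s > 1`: `LFunction χ s = LSeries = ∑ χ(m) m^(-s)` (`DirichletCharacter.LFunction_eq_LSeries`), and with `T_M = ℓ - ∑_{m ≤ M} χ(m)/m = O(1/M)`, `δ = s - 1`: `∑ χ(m) m^(-s) = ℓ - ∑_{m ≥ 1} T_m (m^(-δ) - (m+1)^(-δ))`, the last sum is at most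
`∑ (2q/m) δ m^(-1) = O(δ)`. `LFunction χ` is continuous (`DirichletCharacter.differentiable_LFunction hχ`), so `LFunction χ 1 = ℓ`, and `DirichletCharacter.LFunction_apply_one_ne_zero`.
-/

open Finset

namespace Pool.Agent.BDT

open Filter Topology

private theorem per {q : ℕ} [NeZero q] (χ : DirichletCharacter ℂ q) (hχ : χ ≠ 1) (x : ℕ) :
    ∑ m ∈ range q, χ ((x + m : ℕ) : ZMod q) = 0 := by
  have h1 : ∑ m ∈ range q, χ ((x + m : ℕ) : ZMod q) = ∑ a : ZMod q, χ ((x : ZMod q) + a) := by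
    refine Finset.sum_nbij' (fun n => (n : ZMod q)) (fun a => a.val) ?_ ?_ ?_ ?_ ?_
    · intro a _; exact Finset.mem_univ _
    · intro a _; exact Finset.mem_range.2 (ZMod.val_lt a)
    · intro a ha; exact ZMod.val_cast_of_lt (Finset.mem_range.1 ha)
    · intro a _; exact ZMod.natCast_zmod_val a
    · intro a _; push_cast; rfl
  rw [h1]
  have h2 : ∑ a : ZMod q, χ ((x : ZMod q) + a) = ∑ a : ZMod q, χ a :=
    Equiv.sum_comp (Equiv.addLeft (x : ZMod q)) (fun a => χ a)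
  rw [h2]
  exact MulChar.sum_eq_zero_of_ne_one hχ

private noncomputable def SS {q : ℕ} (χ : DirichletCharacter ℂ q) (x : ℕ) : ℂ :=
  ∑ m ∈ range x, χ (m : ZMod q)

private theorem SS_bound {q : ℕ} [NeZero q] (χ : DirichletCharacter ℂ q) (hχ : χ ≠ 1) (x : ℕ) :
    ‖SS χ x‖ ≤ q := by
  induction x using Nat.strong_induction_on with
  | _ x ih =>
    by_cases hx : x < q
    · unfold SS
      refine (norm_sum_le _ _).trans ?_
      calc ∑ m ∈ range x, ‖χ (m : ZMod q)‖ ≤ ∑ m ∈ range x, (1 : ℝ) :=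
            Finset.sum_le_sum fun m _ => DirichletCharacter.norm_le_one χ _
        _ = x := by simp
        _ ≤ q := by exact_mod_cast hx.le
    · push Not at hx
      have hq : 0 < q := Nat.pos_of_ne_zero (NeZero.ne q)
      have h1 : SS χ x = SS χ (x - q) := by
        have h2 : x = (x - q) + q := by omega
        unfold SS
        conv_lhs => rw [h2]
        rw [Finset.sum_range_add, per χ hχ, add_zero]
      rw [h1]
      exact ih _ (by omega)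

private theorem abel {q : ℕ} (χ : DirichletCharacter ℂ q) (f : ℕ → ℝ) (a b : ℕ) (hab : a ≤ b) :
    ∑ m ∈ Ico a b, χ (m : ZMod q) * (f m : ℂ) = (SS χ b - SS χ a) * (f b : ℂ) +
      ∑ m ∈ Ico a b, (SS χ (m + 1) - SS χ a) * ((f m - f (m + 1) : ℝ) : ℂ) := by
  induction b, hab using Nat.le_induction with
  | base => simp
  | succ b hb ih =>
    rw [Finset.sum_Ico_succ_top hb, Finset.sum_Ico_succ_top hb, ih]
    have h1 : SS χ (b + 1) = SS χ b + χ (b : ZMod q) := by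
      unfold SS; rw [Finset.sum_range_succ]
    rw [h1]
    push_cast
    ring

private theorem tele (f : ℕ → ℝ) (a b : ℕ) (hab : a ≤ b) :
    ∑ m ∈ Ico a b, (f m - f (m + 1)) = f a - f b := by
  induction b, hab using Nat.le_induction with
  | base => simp
  | succ b hb ih =>
    rw [Finset.sum_Ico_succ_top hb, ih]
    ring

private theorem abel_bound {q : ℕ} [NeZero q] (χ : DirichletCharacter ℂ q) (hχ : χ ≠ 1)
    (f : ℕ → ℝ) (a b : ℕ) (hab : a ≤ b) (hf : ∀ m, a ≤ m → f (m + 1) ≤ f m)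
    (h0 : ∀ m, a ≤ m → 0 ≤ f m) :
    ‖∑ m ∈ Ico a b, χ (m : ZMod q) * (f m : ℂ)‖ ≤ 2 * q * f a := by
  rw [abel χ f a b hab]
  have hS : ∀ x y, ‖SS χ x - SS χ y‖ ≤ 2 * q := fun x y =>
    (norm_sub_le _ _).trans (by linarith [SS_bound χ hχ x, SS_bound χ hχ y])
  have h1 : ‖(SS χ b - SS χ a) * (f b : ℂ)‖ ≤ 2 * q * f b := by
    rw [norm_mul, Complex.norm_real, Real.norm_eq_abs, abs_of_nonneg (h0 b hab)]
    exact mul_le_mul_of_nonneg_right (hS _ _) (h0 b hab)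
  have h2 : ‖∑ m ∈ Ico a b, (SS χ (m + 1) - SS χ a) * ((f m - f (m + 1) : ℝ) : ℂ)‖ ≤
      2 * q * (f a - f b) := by
    refine (norm_sum_le _ _).trans ?_
    rw [← tele f a b hab, Finset.mul_sum]
    refine Finset.sum_le_sum fun m hm => ?_
    have hm' := (Finset.mem_Ico.1 hm).1
    have hn : 0 ≤ f m - f (m + 1) := by linarith [hf m hm']
    rw [norm_mul, Complex.norm_real, Real.norm_eq_abs, abs_of_nonneg hn]
    exact mul_le_mul_of_nonneg_right (hS _ _) hn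
  calc _ ≤ 2 * q * f b + 2 * q * (f a - f b) := (norm_add_le _ _).trans (add_le_add h1 h2)
    _ = 2 * q * f a := by ring

private noncomputable def PP {q : ℕ} (χ : DirichletCharacter ℂ q) (x : ℕ) : ℂ :=
  ∑ m ∈ Icc 1 x, χ (m : ZMod q) / (m : ℂ)

private theorem Icc_eq (x : ℕ) : Icc 1 x = Ico 1 (x + 1) := by
  ext m; simp only [Finset.mem_Icc, Finset.mem_Ico]; omega

private theorem PP_succ {q : ℕ} (χ : DirichletCharacter ℂ q) (x : ℕ) :
    PP χ (x + 1) = PP χ x + χ ((x + 1 : ℕ) : ZMod q) / ((x + 1 : ℕ) : ℂ) := by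
  unfold PP
  rw [Finset.sum_Icc_succ_top (by omega)]

private theorem PP_diff {q : ℕ} [NeZero q] (χ : DirichletCharacter ℂ q) (hχ : χ ≠ 1) {x y : ℕ}
    (hxy : x ≤ y) : ‖PP χ y - PP χ x‖ ≤ 2 * q * (1 / ((x : ℝ) + 1)) := by
  have h1 : PP χ y - PP χ x = ∑ m ∈ Ico (x + 1) (y + 1), χ (m : ZMod q) * ((1 / (m : ℝ) : ℝ) : ℂ) := by
    unfold PP
    rw [Icc_eq, Icc_eq, ← Finset.sum_Ico_consecutive _ (show 1 ≤ x + 1 by omega)
      (show x + 1 ≤ y + 1 by omega), add_sub_cancel_left]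
    refine Finset.sum_congr rfl fun m _ => ?_
    push_cast
    ring
  rw [h1]
  have := abel_bound χ hχ (fun m => 1 / (m : ℝ)) (x + 1) (y + 1) (by omega) (fun m hm => ?_)
    (fun m hm => by positivity)
  · simpa using this
  · have hm0 : (0 : ℝ) < m := by exact_mod_cast (by omega : 0 < m)
    show 1 / ((m + 1 : ℕ) : ℝ) ≤ 1 / (m : ℝ)
    push_cast
    exact one_div_le_one_div_of_le hm0 (by linarith)

private theorem exists_lim {q : ℕ} [NeZero q] (χ : DirichletCharacter ℂ q) (hχ : χ ≠ 1) :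
    ∃ l : ℂ, ∀ x : ℕ, ‖PP χ x - l‖ ≤ 2 * q * (1 / ((x : ℝ) + 1)) := by
  have hc : CauchySeq (PP χ) := by
    refine cauchySeq_of_le_tendsto_0' (fun n : ℕ => 2 * (q : ℝ) * (1 / ((n : ℝ) + 1))) ?_ ?_
    · intro n m hnm
      rw [dist_comm, dist_eq_norm]
      exact PP_diff χ hχ hnm
    · have := (tendsto_one_div_add_atTop_nhds_zero_nat (𝕜 := ℝ)).const_mul (2 * (q : ℝ))
      simpa using this
  obtain ⟨l, hl⟩ := cauchySeq_tendsto_of_complete hc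
  refine ⟨l, fun x => ?_⟩
  have h1 : Tendsto (fun y => ‖PP χ x - PP χ y‖) atTop (𝓝 ‖PP χ x - l‖) :=
    (tendsto_const_nhds.sub hl).norm
  refine le_of_tendsto h1 ?_
  filter_upwards [eventually_ge_atTop x] with y hy
  rw [norm_sub_rev]
  exact PP_diff χ hχ hy

private theorem abel2 {q : ℕ} (χ : DirichletCharacter ℂ q) (l : ℂ) (g : ℕ → ℝ) (N : ℕ) :
    ∑ m ∈ Icc 1 N, χ (m : ZMod q) / (m : ℂ) * (g m : ℂ) = l * (g 1 : ℂ) - (l - PP χ N) * (g (N + 1) : ℂ) -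
      ∑ m ∈ Icc 1 N, (l - PP χ m) * ((g m - g (m + 1) : ℝ) : ℂ) := by
  induction N with
  | zero => simp [PP]
  | succ N ih =>
    rw [Finset.sum_Icc_succ_top (by omega), Finset.sum_Icc_succ_top (by omega), ih, PP_succ]
    push_cast
    ring

private theorem gdiff {δ : ℝ} (hδ : 0 < δ) {m : ℕ} (hm : 1 ≤ m) :
    0 ≤ (m : ℝ) ^ (-δ) - ((m + 1 : ℕ) : ℝ) ^ (-δ) ∧
      (m : ℝ) ^ (-δ) - ((m + 1 : ℕ) : ℝ) ^ (-δ) ≤ δ / m := by
  have hm0 : (0 : ℝ) < m := by exact_mod_cast hm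
  have hm1 : (1 : ℝ) ≤ m := by exact_mod_cast hm
  have hle : (m : ℝ) ^ (-δ) ≤ 1 := Real.rpow_le_one_of_one_le_of_nonpos hm1 (by linarith)
  have hpos : 0 < (m : ℝ) ^ (-δ) := Real.rpow_pos_of_pos hm0 _
  have hr : ((m + 1 : ℕ) : ℝ) ^ (-δ) = (m : ℝ) ^ (-δ) * (1 + 1 / (m : ℝ)) ^ (-δ) := by
    rw [← Real.mul_rpow hm0.le (by positivity)]
    congr 1
    push_cast
    field_simp
  have h1 : (1 + 1 / (m : ℝ)) ^ (-δ) ≤ 1 :=
    Real.rpow_le_one_of_one_le_of_nonpos (by linarith [show (0 : ℝ) < 1 / m by positivity]) (by linarith)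
  have h2 : 1 - δ / m ≤ (1 + 1 / (m : ℝ)) ^ (-δ) := by
    rw [Real.rpow_def_of_pos (by positivity)]
    have h3 : Real.log (1 + 1 / (m : ℝ)) ≤ 1 / m := by
      have := Real.log_le_sub_one_of_pos (show (0 : ℝ) < 1 + 1 / m by positivity)
      linarith
    have h4 : 1 + Real.log (1 + 1 / (m : ℝ)) * -δ ≤ Real.exp (Real.log (1 + 1 / (m : ℝ)) * -δ) := by
      linarith [Real.add_one_le_exp (Real.log (1 + 1 / (m : ℝ)) * -δ)]
    have h5 : Real.log (1 + 1 / (m : ℝ)) * δ ≤ 1 / m * δ := mul_le_mul_of_nonneg_right h3 hδ.le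
    have h6 : 1 / (m : ℝ) * δ = δ / m := by ring
    linarith
  have hdm : 0 ≤ δ / m := by positivity
  rw [hr]
  constructor
  · nlinarith
  · have h7 : (m : ℝ) ^ (-δ) - (m : ℝ) ^ (-δ) * (1 + 1 / (m : ℝ)) ^ (-δ) =
        (m : ℝ) ^ (-δ) * (1 - (1 + 1 / (m : ℝ)) ^ (-δ)) := by ring
    rw [h7]
    calc (m : ℝ) ^ (-δ) * (1 - (1 + 1 / (m : ℝ)) ^ (-δ)) ≤ 1 * (δ / m) :=
          mul_le_mul hle (by linarith) (by linarith) (by norm_num)
      _ = δ / m := one_mul _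

private theorem pbnd {q : ℕ} [NeZero q] (χ : DirichletCharacter ℂ q) {l : ℂ}
    (hl : ∀ x : ℕ, ‖PP χ x - l‖ ≤ 2 * q * (1 / ((x : ℝ) + 1))) {δ : ℝ} (hδ : 0 < δ) (N : ℕ) :
    ‖∑ m ∈ Icc 1 N, χ (m : ZMod q) / (m : ℂ) * (((m : ℝ) ^ (-δ) : ℝ) : ℂ) - l‖ ≤
      2 * q * (1 / ((N : ℝ) + 1)) + 2 * q * δ * ∑' m : ℕ, 1 / (m : ℝ) ^ 2 := by
  have h := abel2 χ l (fun m => (m : ℝ) ^ (-δ)) N
  rw [h]
  have hg1 : (((1 : ℕ) : ℝ) ^ (-δ) : ℝ) = 1 := by simp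
  rw [hg1]
  have e : l * ((1 : ℝ) : ℂ) - (l - PP χ N) * ((((N + 1 : ℕ) : ℝ) ^ (-δ) : ℝ) : ℂ) -
      ∑ m ∈ Icc 1 N, (l - PP χ m) * (((m : ℝ) ^ (-δ) - ((m + 1 : ℕ) : ℝ) ^ (-δ) : ℝ) : ℂ) - l =
      -((l - PP χ N) * ((((N + 1 : ℕ) : ℝ) ^ (-δ) : ℝ) : ℂ)) -
      ∑ m ∈ Icc 1 N, (l - PP χ m) * (((m : ℝ) ^ (-δ) - ((m + 1 : ℕ) : ℝ) ^ (-δ) : ℝ) : ℂ) := by
    push_cast
    ring
  rw [e]
  refine (norm_sub_le _ _).trans (add_le_add ?_ ?_)
  · rw [norm_neg, norm_mul, Complex.norm_real, Real.norm_eq_abs,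
      abs_of_nonneg (Real.rpow_nonneg (by positivity) _), norm_sub_rev]
    have h1 : (((N + 1 : ℕ) : ℝ) ^ (-δ) : ℝ) ≤ 1 :=
      Real.rpow_le_one_of_one_le_of_nonpos (by push_cast; linarith [(Nat.cast_nonneg N : (0 : ℝ) ≤ N)])
        (by linarith)
    calc ‖PP χ N - l‖ * ((N + 1 : ℕ) : ℝ) ^ (-δ) ≤ 2 * q * (1 / ((N : ℝ) + 1)) * 1 :=
          mul_le_mul (hl N) h1 (Real.rpow_nonneg (by positivity) _) (by positivity)
      _ = _ := mul_one _
  · refine (norm_sum_le _ _).trans ?_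
    have hs : Summable (fun m : ℕ => 1 / (m : ℝ) ^ 2) :=
      Real.summable_one_div_nat_pow.2 (by norm_num)
    calc ∑ m ∈ Icc 1 N, ‖(l - PP χ m) * (((m : ℝ) ^ (-δ) - ((m + 1 : ℕ) : ℝ) ^ (-δ) : ℝ) : ℂ)‖
        ≤ ∑ m ∈ Icc 1 N, 2 * q * δ * (1 / (m : ℝ) ^ 2) := by
          refine Finset.sum_le_sum fun m hm => ?_
          have hm1 := (Finset.mem_Icc.1 hm).1
          have hm0 : (0 : ℝ) < m := by exact_mod_cast hm1
          obtain ⟨g0, g1⟩ := gdiff hδ hm1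
          rw [norm_mul, Complex.norm_real, Real.norm_eq_abs, abs_of_nonneg g0, norm_sub_rev]
          have h2 : ‖PP χ m - l‖ ≤ 2 * q * (1 / (m : ℝ)) := by
            refine (hl m).trans ?_
            have h3 : 1 / ((m : ℝ) + 1) ≤ 1 / (m : ℝ) := one_div_le_one_div_of_le hm0 (by linarith)
            exact mul_le_mul_of_nonneg_left h3 (by positivity)
          calc _ ≤ 2 * q * (1 / (m : ℝ)) * (δ / m) := mul_le_mul h2 g1 g0 (by positivity)
            _ = 2 * q * δ * (1 / (m : ℝ) ^ 2) := by field_simp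
      _ = 2 * q * δ * ∑ m ∈ Icc 1 N, 1 / (m : ℝ) ^ 2 := by rw [Finset.mul_sum]
      _ ≤ 2 * q * δ * ∑' m : ℕ, 1 / (m : ℝ) ^ 2 := by
          refine mul_le_mul_of_nonneg_left ?_ (by positivity)
          exact hs.sum_le_tsum _ (fun m _ => by positivity)

private theorem LF_bound {q : ℕ} [NeZero q] (χ : DirichletCharacter ℂ q) {l : ℂ}
    (hl : ∀ x : ℕ, ‖PP χ x - l‖ ≤ 2 * q * (1 / ((x : ℝ) + 1))) {δ : ℝ} (hδ : 0 < δ) :
    ‖DirichletCharacter.LFunction χ ((1 + δ : ℝ) : ℂ) - l‖ ≤ 2 * q * δ * ∑' m : ℕ, 1 / (m : ℝ) ^ 2 := by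
  have hre : 1 < (((1 + δ : ℝ) : ℂ)).re := by rw [Complex.ofReal_re]; linarith
  rw [DirichletCharacter.LFunction_eq_LSeries χ hre]
  have hsum : LSeriesSummable (fun n => χ (n : ZMod q)) ((1 + δ : ℝ) : ℂ) :=
    DirichletCharacter.LSeriesSummable_of_one_lt_re χ hre
  have h1 := hsum.hasSum.tendsto_sum_nat
  have h2 := (tendsto_add_atTop_iff_nat 1).2 h1
  have h3 : (fun N => ∑ i ∈ range (N + 1), LSeries.term (fun n => χ (n : ZMod q)) ((1 + δ : ℝ) : ℂ) i) =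
      fun N : ℕ => ∑ m ∈ Icc 1 N, χ (m : ZMod q) / (m : ℂ) * (((m : ℝ) ^ (-δ) : ℝ) : ℂ) := by
    funext N
    rw [Icc_eq, Finset.sum_range_eq_add_Ico _ (by omega), LSeries.term_zero, zero_add]
    refine Finset.sum_congr rfl fun m hm => ?_
    have hm1 := (Finset.mem_Ico.1 hm).1
    have hm0 : (m : ℂ) ≠ 0 := by exact_mod_cast (by omega : m ≠ 0)
    rw [LSeries.term_of_ne_zero (by omega)]
    have h4 : (m : ℂ) ^ (((1 + δ : ℝ) : ℂ)) = (m : ℂ) * (m : ℂ) ^ ((δ : ℝ) : ℂ) := by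
      rw [Complex.ofReal_add, Complex.cpow_add _ _ hm0, Complex.ofReal_one, Complex.cpow_one]
    have h5 : (((m : ℝ) ^ (-δ) : ℝ) : ℂ) = ((m : ℂ) ^ ((δ : ℝ) : ℂ))⁻¹ := by
      rw [Complex.ofReal_cpow (Nat.cast_nonneg m), Complex.ofReal_neg, Complex.cpow_neg,
        Complex.ofReal_natCast]
    rw [h4, h5, div_mul_eq_div_div, div_eq_mul_inv (χ (m : ZMod q) / (m : ℂ))]
  rw [h3] at h2
  have h6 : Tendsto (fun N : ℕ => 2 * (q : ℝ) * (1 / ((N : ℝ) + 1)) +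
      2 * q * δ * ∑' m : ℕ, 1 / (m : ℝ) ^ 2) atTop (𝓝 (2 * (q : ℝ) * 0 +
      2 * q * δ * ∑' m : ℕ, 1 / (m : ℝ) ^ 2)) :=
    ((tendsto_one_div_add_atTop_nhds_zero_nat (𝕜 := ℝ)).const_mul (2 * (q : ℝ))).add_const _
  rw [mul_zero, zero_add] at h6
  exact le_of_tendsto_of_tendsto' ((h2.sub_const l).norm) h6 (fun N => pbnd χ hl hδ N)

theorem lone {q : ℕ} [NeZero q] (χ : DirichletCharacter ℂ q) (hχ : χ ≠ 1) : ∃ l : ℂ, l ≠ 0 ∧
    ∃ C : ℝ, ∀ x : ℕ, 1 ≤ x → ‖∑ m ∈ Icc 1 x, χ (m : ZMod q) / (m : ℂ) - l‖ ≤ C / x := by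
  obtain ⟨l, hl⟩ := exists_lim χ hχ
  refine ⟨l, ?_, 2 * q, fun x hx => ?_⟩
  · have hcont : Continuous (DirichletCharacter.LFunction χ) :=
      (DirichletCharacter.differentiable_LFunction hχ).continuous
    have h1 : Tendsto (fun n : ℕ => ‖DirichletCharacter.LFunction χ ((1 + 1 / ((n : ℝ) + 1) : ℝ) : ℂ) - l‖)
        atTop (𝓝 ‖DirichletCharacter.LFunction χ 1 - l‖) := by
      have h2 : Tendsto (fun n : ℕ => ((1 + 1 / ((n : ℝ) + 1) : ℝ) : ℂ)) atTop (𝓝 1) := by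
        have h3 : Tendsto (fun n : ℕ => (1 + 1 / ((n : ℝ) + 1) : ℝ)) atTop (𝓝 (1 + 0)) :=
          tendsto_const_nhds.add (tendsto_one_div_add_atTop_nhds_zero_nat (𝕜 := ℝ))
        rw [add_zero] at h3
        have h4 := (Complex.continuous_ofReal.tendsto 1).comp h3
        rw [Complex.ofReal_one] at h4
        exact h4
      exact (((hcont.tendsto 1).comp h2).sub_const l).norm
    have h5 : Tendsto (fun n : ℕ => 2 * (q : ℝ) * (1 / ((n : ℝ) + 1)) * ∑' m : ℕ, 1 / (m : ℝ) ^ 2)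
        atTop (𝓝 (2 * (q : ℝ) * 0 * ∑' m : ℕ, 1 / (m : ℝ) ^ 2)) :=
      ((tendsto_one_div_add_atTop_nhds_zero_nat (𝕜 := ℝ)).const_mul (2 * (q : ℝ))).mul_const _
    rw [mul_zero, zero_mul] at h5
    have h6 := le_of_tendsto_of_tendsto' h1 h5 (fun n => LF_bound χ hl (by positivity))
    have h7 : DirichletCharacter.LFunction χ 1 = l :=
      sub_eq_zero.1 (norm_le_zero_iff.1 h6)
    rw [← h7]
    exact DirichletCharacter.LFunction_apply_one_ne_zero hχ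
  · have hx0 : (0 : ℝ) < x := by exact_mod_cast hx
    refine (hl x).trans ?_
    rw [mul_one_div]
    exact div_le_div_of_nonneg_left (by positivity) hx0 (by linarith)

theorem clog {q : ℕ} [NeZero q] (χ : DirichletCharacter ℂ q) (hχ : χ ≠ 1) :
    ∃ C : ℝ, ∀ x : ℕ, ‖∑ m ∈ Icc 1 x, χ (m : ZMod q) * ((Real.log m / m : ℝ) : ℂ)‖ ≤ C := by
  set F : ℕ → ℂ := fun m => χ (m : ZMod q) * ((Real.log m / m : ℝ) : ℂ) with hF
  have hf3 : 0 ≤ Real.log (3 : ℕ) / ((3 : ℕ) : ℝ) := by positivity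
  refine ⟨∑ m ∈ Ico 1 3, ‖F m‖ + 2 * q * (Real.log (3 : ℕ) / ((3 : ℕ) : ℝ)), fun x => ?_⟩
  rw [Icc_eq]
  rcases le_or_gt (x + 1) 3 with h | h
  · have h1 : ‖∑ m ∈ Ico 1 (x + 1), F m‖ ≤ ∑ m ∈ Ico 1 3, ‖F m‖ :=
      (norm_sum_le _ _).trans (Finset.sum_le_sum_of_subset_of_nonneg
        (Finset.Ico_subset_Ico_right h) (fun _ _ _ => norm_nonneg _))
    have h2 : 0 ≤ 2 * (q : ℝ) * (Real.log (3 : ℕ) / ((3 : ℕ) : ℝ)) := by positivity
    exact h1.trans (by linarith)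
  · rw [← Finset.sum_Ico_consecutive _ (show 1 ≤ 3 by norm_num) h.le]
    refine (norm_add_le _ _).trans (add_le_add (norm_sum_le _ _) ?_)
    refine abel_bound χ hχ (fun m => Real.log m / m) 3 (x + 1) h.le ?_ ?_
    · intro m hm
      have he : Real.exp 1 ≤ 3 := by linarith [Real.exp_one_lt_d9]
      have hm3 : (3 : ℝ) ≤ m := by exact_mod_cast hm
      have := Real.log_div_self_antitoneOn (show Real.exp 1 ≤ (m : ℝ) by linarith)
        (show Real.exp 1 ≤ ((m + 1 : ℕ) : ℝ) by push_cast; linarith) (by push_cast; linarith)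
      exact this
    · intro m hm
      positivity

end Pool.Agent.BDT
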