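import Pool.Agent.BDT.HSum
import Pool.Agent.BDN.Defs

/-!
# BDT-Mom1: weighted first moment

Write `XX N m` as a sum over the primes `p`, put `m = (p-1) n`, bound the sum over `n` by `wsum` with `C = ∅` and the
sum over `p` by `hsum` with `C = {1}`.
-/

open Finset Pool.Agent.BDN

namespace Pool.Agent.BDT

/-- the multiples of `d` -/
private theorem sum_mult (y N d : ℕ) (hd : 1 ≤ d) (z : ℝ) :
    ∑ m ∈ (Icc 1 N).filter (fun m => d ∣ m), z ^ Om y m =
      z ^ Om y d * ∑ n ∈ Icc 1 (N / d), z ^ Om y n := by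
  rw [mul_sum]
  symm
  apply Finset.sum_bij (fun n _ => d * n)
  · intro n hn
    rw [mem_Icc] at hn
    rw [mem_filter, mem_Icc]
    refine ⟨⟨?_, ?_⟩, dvd_mul_right d n⟩
    · exact Nat.mul_pos hd hn.1
    · calc d * n ≤ d * (N / d) := Nat.mul_le_mul_left d hn.2
        _ ≤ N := Nat.mul_div_le N d
  · intro a _ b _ hab
    exact Nat.eq_of_mul_eq_mul_left hd hab
  · intro m hm
    rw [mem_filter, mem_Icc] at hm
    obtain ⟨⟨h1, h2⟩, n, rfl⟩ := hm
    refine ⟨n, ?_, rfl⟩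
    rw [mem_Icc]
    constructor
    · by_contra hc
      have : n = 0 := by omega
      rw [this, mul_zero] at h1
      omega
    · rw [Nat.le_div_iff_mul_le hd, mul_comm]
      exact h2
  · intro n hn
    rw [mem_Icc] at hn
    rw [Om_mul y (by omega) (by omega), pow_add]

theorem mom1 : ∃ N₀ : ℕ, ∀ N : ℕ, N₀ ≤ N →
    ∑ m ∈ Icc 1 N, (XX N m : ℝ) * (51 / 50 : ℝ) ^ Om (yy N) m ≤
      N * (Real.log N) ^ (1 / 25 + 1 / 10000 : ℝ) := by
  obtain ⟨N1, hN1⟩ := wsum (51 / 50) (by norm_num) (by norm_num)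
  obtain ⟨N2, hN2⟩ := hsum (51 / 50) (by norm_num) (by norm_num)
  obtain ⟨N3, hN3⟩ := yy_pow
  have ev : ∀ᶠ N : ℕ in Filter.atTop, 3 ≤ (N : ℝ) ^ (1 / 1000 : ℝ) :=
    ((tendsto_rpow_atTop (by norm_num)).comp tendsto_natCast_atTop_atTop).eventually_ge_atTop 3
  obtain ⟨N4, hN4⟩ := Filter.eventually_atTop.mp ev
  refine ⟨max (max N1 N2) (max (max N3 N4) 3), fun N hN => ?_⟩
  have hNN1 : N1 ≤ N := by omega
  have hNN2 : N2 ≤ N := by omega
  have hNN3 : N3 ≤ N := by omega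
  have hNN4 : N4 ≤ N := by omega
  have hNge : 3 ≤ N := by omega
  have hN0 : (0 : ℝ) < N := by
    have : 0 < N := by omega
    exact_mod_cast this
  have hN1' : (1 : ℝ) ≤ N := by
    have : 1 ≤ N := by omega
    exact_mod_cast this
  have hlog : 1 ≤ Real.log N := by
    rw [Real.le_log_iff_exp_le hN0]
    have h1 := Real.exp_one_lt_three
    have h2 : (3 : ℝ) ≤ N := by exact_mod_cast hNge
    linarith
  have hlog0 : 0 < Real.log N := by linarith
  obtain ⟨x, hx⟩ : ∃ x : ℝ, x = (N : ℝ) ^ (1 / 1000 : ℝ) := ⟨_, rfl⟩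
  have hx3 : 3 ≤ x := by rw [hx]; exact hN4 N hNN4
  have hx2 : x + 2 ≤ (N : ℝ) ^ (1 / 500 : ℝ) := by
    have h1 : (N : ℝ) ^ (1 / 500 : ℝ) = x * x := by
      rw [hx, ← Real.rpow_add hN0]
      norm_num
    rw [h1]
    nlinarith
  have hle : ∀ a : ℝ, 1 / 500 ≤ a → x + 2 ≤ (N : ℝ) ^ a := fun a ha =>
    hx2.trans (Real.rpow_le_rpow_of_exponent_le hN1' ha)
  -- facts on the primes of the range
  have hRg : ∀ p ∈ Rg N (1 / 100) (495 / 1000), p.Prime ∧ x + 2 ≤ (p : ℝ) ∧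
      (p : ℝ) ≤ (N : ℝ) ^ (495 / 1000 : ℝ) ∧ p ≤ N ∧ (N : ℝ) ^ (1 / 100 : ℝ) < p := by
    intro p hp
    unfold Rg at hp
    rw [mem_filter, mem_Icc] at hp
    obtain ⟨⟨_, h2⟩, h3, h4, h5⟩ := hp
    exact ⟨h3, (hle (1 / 100) (by norm_num)).trans h4.le, h5, h2, h4⟩
  -- swapping the sums
  have hswap : ∑ m ∈ Icc 1 N, (XX N m : ℝ) * (51 / 50 : ℝ) ^ Om (yy N) m =
      ∑ p ∈ Rg N (1 / 100) (495 / 1000),
        ∑ m ∈ (Icc 1 N).filter (fun m => (p - 1) ∣ m), (51 / 50 : ℝ) ^ Om (yy N) m := by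
    have h1 : ∀ m, (XX N m : ℝ) = ∑ p ∈ Rg N (1 / 100) (495 / 1000),
        if (p - 1) ∣ m then (1 : ℝ) else 0 := by
      intro m
      unfold XX
      rw [Finset.sum_boole]
    calc ∑ m ∈ Icc 1 N, (XX N m : ℝ) * (51 / 50 : ℝ) ^ Om (yy N) m =
        ∑ m ∈ Icc 1 N, ∑ p ∈ Rg N (1 / 100) (495 / 1000),
          if (p - 1) ∣ m then (51 / 50 : ℝ) ^ Om (yy N) m else 0 := by
          apply sum_congr rfl
          intro m _
          rw [h1, sum_mul]
          apply sum_congr rfl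
          intro p _
          split_ifs <;> simp
      _ = _ := by
          rw [sum_comm]
          apply sum_congr rfl
          intro p _
          rw [sum_filter]
  rw [hswap]
  -- one prime
  have hone : ∀ p ∈ Rg N (1 / 100) (495 / 1000),
      ∑ m ∈ (Icc 1 N).filter (fun m => (p - 1) ∣ m), (51 / 50 : ℝ) ^ Om (yy N) m ≤
        N * (Real.log N) ^ (51 / 50 - 1 - ((∅ : Finset ℕ).card : ℝ) + 4 / 100000 : ℝ) *
          ((51 / 50 : ℝ) ^ Om (yy N) (p - 1) / ((p - 1 : ℕ) : ℝ)) := by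
    intro p hp
    obtain ⟨hp1, hp2, hp3, hp4, _⟩ := hRg p hp
    have hp' : 1 ≤ p - 1 := by
      have := hp1.two_le
      omega
    have hpr : (0 : ℝ) < ((p - 1 : ℕ) : ℝ) := by exact_mod_cast hp'
    rw [sum_mult (yy N) N (p - 1) hp']
    have hX1 : (((N / (p - 1) : ℕ)) : ℝ) ≤ N / ((p - 1 : ℕ) : ℝ) := Nat.cast_div_le
    have hX2 : (N : ℝ) ^ (1 / 1000 : ℝ) ≤ ((N / (p - 1) : ℕ) : ℝ) := by
      rw [← hx]
      have h1 : N < (p - 1) * (N / (p - 1) + 1) := by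
        have h2 := Nat.div_add_mod N (p - 1)
        have h3 := Nat.mod_lt N hp'
        rw [mul_add, mul_one]
        omega
      have h2 : (N : ℝ) < ((p - 1 : ℕ) : ℝ) * (((N / (p - 1) : ℕ) : ℝ) + 1) := by exact_mod_cast h1
      have h3 : ((p - 1 : ℕ) : ℝ) ≤ (N : ℝ) ^ (495 / 1000 : ℝ) := by
        refine le_trans ?_ hp3
        exact_mod_cast Nat.sub_le p 1
      have h4 : (N : ℝ) ^ (495 / 1000 : ℝ) * (N : ℝ) ^ (505 / 1000 : ℝ) = N := by
        rw [← Real.rpow_add hN0]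
        norm_num
      have h5 : (0 : ℝ) < (N : ℝ) ^ (495 / 1000 : ℝ) := by positivity
      have h6 : (N : ℝ) ^ (495 / 1000 : ℝ) * (N : ℝ) ^ (505 / 1000 : ℝ) <
          (N : ℝ) ^ (495 / 1000 : ℝ) * (((N / (p - 1) : ℕ) : ℝ) + 1) := by
        rw [h4]
        refine lt_of_lt_of_le h2 ?_
        exact mul_le_mul_of_nonneg_right h3 (by positivity)
      have h7 := lt_of_mul_lt_mul_left h6 h5.le
      have h8 := hle (505 / 1000) (by norm_num)
      linarith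
    have hX3 : N / (p - 1) ≤ N := Nat.div_le_self _ _
    have hw := hN1 N hNN1 ∅ (by simp) (by simp) (N / (p - 1)) hX2 hX3
    have hfil : (Icc 1 (N / (p - 1))).filter (fun m => ok (yy N) ∅ m) = Icc 1 (N / (p - 1)) := by
      apply filter_true_of_mem
      intro m _ c hc
      exact absurd hc (Finset.notMem_empty c)
    rw [hfil] at hw
    have hL : 0 ≤ (Real.log N) ^ (51 / 50 - 1 - ((∅ : Finset ℕ).card : ℝ) + 4 / 100000 : ℝ) :=
      Real.rpow_nonneg hlog0.le _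
    calc (51 / 50 : ℝ) ^ Om (yy N) (p - 1) * ∑ n ∈ Icc 1 (N / (p - 1)), (51 / 50 : ℝ) ^ Om (yy N) n ≤
        (51 / 50 : ℝ) ^ Om (yy N) (p - 1) * (((N / (p - 1) : ℕ) : ℝ) *
          (Real.log N) ^ (51 / 50 - 1 - ((∅ : Finset ℕ).card : ℝ) + 4 / 100000 : ℝ)) :=
          mul_le_mul_of_nonneg_left hw (by positivity)
      _ ≤ (51 / 50 : ℝ) ^ Om (yy N) (p - 1) * (N / ((p - 1 : ℕ) : ℝ) *
          (Real.log N) ^ (51 / 50 - 1 - ((∅ : Finset ℕ).card : ℝ) + 4 / 100000 : ℝ)) :=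
          mul_le_mul_of_nonneg_left (mul_le_mul_of_nonneg_right hX1 hL) (by positivity)
      _ = _ := by ring
  refine (sum_le_sum hone).trans ?_
  rw [← mul_sum]
  -- the sum over the primes
  have hsum' := hN2 N hNN2 {1} (by simp) (by
    intro c hc
    rw [mem_singleton] at hc
    rw [hc]
    exact ⟨le_rfl, Nat.one_le_pow _ _ (by omega)⟩) ⌈(N : ℝ) ^ (1 / 1000 : ℝ)⌉₊ (Nat.le_ceil _)
  have hps : ∑ p ∈ Rg N (1 / 100) (495 / 1000),
      (51 / 50 : ℝ) ^ Om (yy N) (p - 1) / ((p - 1 : ℕ) : ℝ) ≤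
      ∑ m ∈ (Ioc ⌈(N : ℝ) ^ (1 / 1000 : ℝ)⌉₊ N).filter (fun m => ok (yy N) {1} m),
        (51 / 50 : ℝ) ^ Om (yy N) m / m := by
    have hinj : Set.InjOn (fun p : ℕ => p - 1) (Rg N (1 / 100) (495 / 1000) : Set ℕ) := by
      intro a ha b hb hab
      have h1 := (hRg a ha).1.two_le
      have h2 := (hRg b hb).1.two_le
      simp only at hab
      omega
    have him := Finset.sum_image (f := fun m : ℕ => (51 / 50 : ℝ) ^ Om (yy N) m / (m : ℝ)) hinj
    rw [← him]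
    apply sum_le_sum_of_subset_of_nonneg
    · intro m hm
      rw [mem_image] at hm
      obtain ⟨p, hp, rfl⟩ := hm
      obtain ⟨hp1, hp2, hp3, hp4, hp5⟩ := hRg p hp
      have h2le := hp1.two_le
      rw [mem_filter, mem_Ioc]
      refine ⟨⟨?_, by omega⟩, ?_⟩
      · have h1 : ((⌈(N : ℝ) ^ (1 / 1000 : ℝ)⌉₊ : ℕ) : ℝ) < (N : ℝ) ^ (1 / 1000 : ℝ) + 1 :=
          Nat.ceil_lt_add_one (by positivity)
        rw [← hx] at h1
        have h2 : ((⌈(N : ℝ) ^ (1 / 1000 : ℝ)⌉₊ + 1 : ℕ) : ℝ) < (p : ℝ) := by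
          push_cast
          rw [← hx]
          linarith
        have h3 : ⌈(N : ℝ) ^ (1 / 1000 : ℝ)⌉₊ + 1 < p := by exact_mod_cast h2
        omega
      · intro c hc q hq _ hqy hdvd
        rw [mem_singleton] at hc
        rw [hc, one_mul, Nat.sub_add_cancel (by omega)] at hdvd
        have h1 : q = p := (Nat.prime_dvd_prime_iff_eq hq hp1).mp hdvd
        have h2 := hN3 N hNN3
        have h3 : (N : ℝ) ^ (1 / 1000000 : ℝ) ≤ (N : ℝ) ^ (1 / 100 : ℝ) :=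
          Real.rpow_le_rpow_of_exponent_le hN1' (by norm_num)
        have h4 : (q : ℝ) ≤ (yy N : ℝ) := by exact_mod_cast hqy
        rw [h1] at h4
        linarith
    · intro m _ _
      positivity
  have hL4 : 0 ≤ (Real.log N) ^ (51 / 50 - 1 - ((∅ : Finset ℕ).card : ℝ) + 4 / 100000 : ℝ) :=
    Real.rpow_nonneg hlog0.le _
  calc N * (Real.log N) ^ (51 / 50 - 1 - ((∅ : Finset ℕ).card : ℝ) + 4 / 100000 : ℝ) *
        ∑ p ∈ Rg N (1 / 100) (495 / 1000),
          (51 / 50 : ℝ) ^ Om (yy N) (p - 1) / ((p - 1 : ℕ) : ℝ) ≤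
      N * (Real.log N) ^ (51 / 50 - 1 - ((∅ : Finset ℕ).card : ℝ) + 4 / 100000 : ℝ) *
        (Real.log N) ^ (51 / 50 - (({1} : Finset ℕ).card : ℝ) + 5 / 100000 : ℝ) :=
        mul_le_mul_of_nonneg_left (hps.trans hsum') (by positivity)
    _ = N * (Real.log N) ^ (1 / 25 + 9 / 100000 : ℝ) := by
        rw [mul_assoc, ← Real.rpow_add hlog0]
        congr 2
        simp only [card_empty, card_singleton]
        norm_num
    _ ≤ N * (Real.log N) ^ (1 / 25 + 1 / 10000 : ℝ) := by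
        apply mul_le_mul_of_nonneg_left _ hN0.le
        exact Real.rpow_le_rpow_of_exponent_le hlog (by norm_num)

end Pool.Agent.BDT
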