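import Pool.Agent.BDT.WSum
import Pool.Agent.BDN.Defs

/-!
# BDT-Mom2 (1.0h): weighted second moment, reduction to pairs

`XX N m ^ 2 = ∑_{p, p' ∈ Rg} 1[lcm(p-1, p'-1) ∣ m]`. For a pair with `l = lcm(p-1, p'-1) ≤ N^(99/100)`: `m = l n`, `n ≤ X = N/l` (nat division), `N^(1/1000) ≤ X ≤ N`;
`wsum` with `z = 1/2`, `C = ∅`: `∑_{n ≤ X} (1/2)^Om(n) ≤ X (log N)^(-1/2+4δ) ≤ (N/l) (log N)^(-1/2+1/10000)`. `Om_mul`.
-/

open Finset Pool.Agent.BDN

namespace Pool.Agent.BDT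

/-- the sum over pairs -/
noncomputable def PP (N : ℕ) : ℝ :=
  ∑ p ∈ Rg N (1 / 100) (495 / 1000), ∑ q ∈ Rg N (1 / 100) (495 / 1000),
    (1 / 2 : ℝ) ^ Om (yy N) ((p - 1).lcm (q - 1)) / ((p - 1).lcm (q - 1) : ℕ)

/-- the multiples of `d` -/
private theorem sum_mult (y N d : ℕ) (hd : 1 ≤ d) (z : ℝ) :
    ∑ m ∈ (Icc 1 N).filter (fun m => d ∣ m), z ^ Om y m =
      z ^ Om y d * ∑ n ∈ Icc 1 (N / d), z ^ Om y n := by
  rw [mul_sum]
  symm
  apply Finset.sum_bij (fun n _ => d * n)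
  · intro n hn
    rw [mem_Icc] at hn
    rw [mem_filter, mem_Icc]
    refine ⟨⟨?_, ?_⟩, dvd_mul_right d n⟩
    · exact Nat.mul_pos hd hn.1
    · calc d * n ≤ d * (N / d) := Nat.mul_le_mul_left d hn.2
        _ ≤ N := Nat.mul_div_le N d
  · intro a _ b _ hab
    exact Nat.eq_of_mul_eq_mul_left hd hab
  · intro m hm
    rw [mem_filter, mem_Icc] at hm
    obtain ⟨⟨h1, h2⟩, n, rfl⟩ := hm
    refine ⟨n, ?_, rfl⟩
    rw [mem_Icc]
    constructor
    · by_contra hc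
      have : n = 0 := by omega
      rw [this, mul_zero] at h1
      omega
    · rw [Nat.le_div_iff_mul_le hd, mul_comm]
      exact h2
  · intro n hn
    rw [mem_Icc] at hn
    rw [Om_mul y (by omega) (by omega), pow_add]

theorem mom2 : ∃ N₀ : ℕ, ∀ N : ℕ, N₀ ≤ N →
    ∑ m ∈ Icc 1 N, (XX N m : ℝ) ^ 2 * (1 / 2 : ℝ) ^ Om (yy N) m ≤
      N * (Real.log N) ^ (-(1 / 2) + 1 / 10000 : ℝ) * PP N := by
  obtain ⟨N1, hN1⟩ := wsum (1 / 2) (by norm_num) (by norm_num)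
  have ev : ∀ᶠ N : ℕ in Filter.atTop, 3 ≤ (N : ℝ) ^ (1 / 1000 : ℝ) :=
    ((tendsto_rpow_atTop (by norm_num)).comp tendsto_natCast_atTop_atTop).eventually_ge_atTop 3
  obtain ⟨N4, hN4⟩ := Filter.eventually_atTop.mp ev
  refine ⟨max N1 (max N4 3), fun N hN => ?_⟩
  have hNN1 : N1 ≤ N := by omega
  have hNN4 : N4 ≤ N := by omega
  have hNge : 3 ≤ N := by omega
  have hN0 : (0 : ℝ) < N := by
    have : 0 < N := by omega
    exact_mod_cast this
  have hN1' : (1 : ℝ) ≤ N := by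
    have : 1 ≤ N := by omega
    exact_mod_cast this
  have hlog : 1 ≤ Real.log N := by
    rw [Real.le_log_iff_exp_le hN0]
    have h1 := Real.exp_one_lt_three
    have h2 : (3 : ℝ) ≤ N := by exact_mod_cast hNge
    linarith
  have hlog0 : 0 < Real.log N := by linarith
  obtain ⟨x, hx⟩ : ∃ x : ℝ, x = (N : ℝ) ^ (1 / 1000 : ℝ) := ⟨_, rfl⟩
  have hx3 : 3 ≤ x := by rw [hx]; exact hN4 N hNN4
  have hx2 : x + 2 ≤ (N : ℝ) ^ (1 / 500 : ℝ) := by
    have h1 : (N : ℝ) ^ (1 / 500 : ℝ) = x * x := by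
      rw [hx, ← Real.rpow_add hN0]
      norm_num
    rw [h1]
    nlinarith
  have hle : ∀ a : ℝ, 1 / 500 ≤ a → x + 2 ≤ (N : ℝ) ^ a := fun a ha =>
    hx2.trans (Real.rpow_le_rpow_of_exponent_le hN1' ha)
  -- facts on the primes of the range
  have hRg : ∀ p ∈ Rg N (1 / 100) (495 / 1000), p.Prime ∧ (p : ℝ) ≤ (N : ℝ) ^ (495 / 1000 : ℝ) := by
    intro p hp
    unfold Rg at hp
    rw [mem_filter, mem_Icc] at hp
    obtain ⟨⟨_, h2⟩, h3, h4, h5⟩ := hp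
    exact ⟨h3, h5⟩
  -- swapping the sums
  have hswap : ∑ m ∈ Icc 1 N, (XX N m : ℝ) ^ 2 * (1 / 2 : ℝ) ^ Om (yy N) m =
      ∑ p ∈ Rg N (1 / 100) (495 / 1000), ∑ q ∈ Rg N (1 / 100) (495 / 1000),
        ∑ m ∈ (Icc 1 N).filter (fun m => ((p - 1).lcm (q - 1)) ∣ m), (1 / 2 : ℝ) ^ Om (yy N) m := by
    have h1 : ∀ m, (XX N m : ℝ) = ∑ p ∈ Rg N (1 / 100) (495 / 1000),
        if (p - 1) ∣ m then (1 : ℝ) else 0 := by
      intro m
      unfold XX
      rw [Finset.sum_boole]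
    have h2 : ∀ m, (XX N m : ℝ) ^ 2 * (1 / 2 : ℝ) ^ Om (yy N) m =
        ∑ p ∈ Rg N (1 / 100) (495 / 1000), ∑ q ∈ Rg N (1 / 100) (495 / 1000),
          if ((p - 1).lcm (q - 1)) ∣ m then (1 / 2 : ℝ) ^ Om (yy N) m else 0 := by
      intro m
      rw [sq, h1, Finset.sum_mul_sum, sum_mul]
      apply sum_congr rfl
      intro p _
      rw [sum_mul]
      apply sum_congr rfl
      intro q _
      have h3 : (p - 1).lcm (q - 1) ∣ m ↔ (p - 1) ∣ m ∧ (q - 1) ∣ m := Nat.lcm_dvd_iff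
      by_cases a : (p - 1) ∣ m
      · by_cases b : (q - 1) ∣ m
        · rw [if_pos a, if_pos b, if_pos (h3.2 ⟨a, b⟩)]
          ring
        · rw [if_neg b, if_neg (fun h => b (h3.1 h).2)]
          ring
      · rw [if_neg a, if_neg (fun h => a (h3.1 h).1)]
        ring
    calc ∑ m ∈ Icc 1 N, (XX N m : ℝ) ^ 2 * (1 / 2 : ℝ) ^ Om (yy N) m =
        ∑ m ∈ Icc 1 N, ∑ p ∈ Rg N (1 / 100) (495 / 1000), ∑ q ∈ Rg N (1 / 100) (495 / 1000),
          (if ((p - 1).lcm (q - 1)) ∣ m then (1 / 2 : ℝ) ^ Om (yy N) m else 0) :=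
          sum_congr rfl fun m _ => h2 m
      _ = _ := by
          rw [sum_comm]
          apply sum_congr rfl
          intro p _
          rw [sum_comm]
          apply sum_congr rfl
          intro q _
          rw [sum_filter]
  rw [hswap]
  -- one pair
  have hone : ∀ p ∈ Rg N (1 / 100) (495 / 1000), ∀ q ∈ Rg N (1 / 100) (495 / 1000),
      ∑ m ∈ (Icc 1 N).filter (fun m => ((p - 1).lcm (q - 1)) ∣ m), (1 / 2 : ℝ) ^ Om (yy N) m ≤
        N * (Real.log N) ^ (-(1 / 2) + 1 / 10000 : ℝ) *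
          ((1 / 2 : ℝ) ^ Om (yy N) ((p - 1).lcm (q - 1)) / ((p - 1).lcm (q - 1) : ℕ)) := by
    intro p hp q hq
    obtain ⟨hp1, hp3⟩ := hRg p hp
    obtain ⟨hq1, hq3⟩ := hRg q hq
    have hp' : 0 < p - 1 := by
      have := hp1.two_le
      omega
    have hq' : 0 < q - 1 := by
      have := hq1.two_le
      omega
    have hl : (p - 1).lcm (q - 1) ≤ (p - 1) * (q - 1) :=
      Nat.le_of_dvd (Nat.mul_pos hp' hq') (Nat.lcm_dvd_mul _ _)
    have hl' : 1 ≤ (p - 1).lcm (q - 1) := Nat.lcm_pos hp' hq'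
    have hlN : (((p - 1).lcm (q - 1) : ℕ) : ℝ) ≤ (N : ℝ) ^ (99 / 100 : ℝ) := by
      have h1 : (((p - 1).lcm (q - 1) : ℕ) : ℝ) ≤ (((p - 1) * (q - 1) : ℕ) : ℝ) := by
        exact_mod_cast hl
      have h2 : ((p - 1 : ℕ) : ℝ) ≤ (N : ℝ) ^ (495 / 1000 : ℝ) := by
        refine le_trans ?_ hp3
        exact_mod_cast Nat.sub_le p 1
      have h3 : ((q - 1 : ℕ) : ℝ) ≤ (N : ℝ) ^ (495 / 1000 : ℝ) := by
        refine le_trans ?_ hq3
        exact_mod_cast Nat.sub_le q 1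
      have h4 : (N : ℝ) ^ (495 / 1000 : ℝ) * (N : ℝ) ^ (495 / 1000 : ℝ) =
          (N : ℝ) ^ (99 / 100 : ℝ) := by
        rw [← Real.rpow_add hN0]
        norm_num
      rw [← h4]
      refine h1.trans ?_
      rw [Nat.cast_mul]
      exact mul_le_mul h2 h3 (Nat.cast_nonneg _) (by positivity)
    obtain ⟨l, hldef⟩ : ∃ l : ℕ, l = (p - 1).lcm (q - 1) := ⟨_, rfl⟩
    rw [← hldef] at hl' hlN ⊢
    have hpr : (0 : ℝ) < (l : ℝ) := by exact_mod_cast hl'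
    rw [sum_mult (yy N) N l hl']
    have hX1 : ((N / l : ℕ) : ℝ) ≤ N / (l : ℝ) := Nat.cast_div_le
    have hX2 : (N : ℝ) ^ (1 / 1000 : ℝ) ≤ ((N / l : ℕ) : ℝ) := by
      rw [← hx]
      have h1 : N < l * (N / l + 1) := by
        have h2 := Nat.div_add_mod N l
        have h3 := Nat.mod_lt N hl'
        rw [mul_add, mul_one]
        omega
      have h2 : (N : ℝ) < (l : ℝ) * (((N / l : ℕ) : ℝ) + 1) := by exact_mod_cast h1
      have h4 : (N : ℝ) ^ (99 / 100 : ℝ) * (N : ℝ) ^ (1 / 100 : ℝ) = N := by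
        rw [← Real.rpow_add hN0]
        norm_num
      have h5 : (0 : ℝ) < (N : ℝ) ^ (99 / 100 : ℝ) := by positivity
      have h6 : (N : ℝ) ^ (99 / 100 : ℝ) * (N : ℝ) ^ (1 / 100 : ℝ) <
          (N : ℝ) ^ (99 / 100 : ℝ) * (((N / l : ℕ) : ℝ) + 1) := by
        rw [h4]
        refine lt_of_lt_of_le h2 ?_
        exact mul_le_mul_of_nonneg_right hlN (by positivity)
      have h7 := lt_of_mul_lt_mul_left h6 h5.le
      have h8 := hle (1 / 100) (by norm_num)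
      linarith
    have hX3 : N / l ≤ N := Nat.div_le_self _ _
    have hw := hN1 N hNN1 ∅ (by simp) (by simp) (N / l) hX2 hX3
    have hfil : (Icc 1 (N / l)).filter (fun m => ok (yy N) ∅ m) = Icc 1 (N / l) := by
      apply filter_true_of_mem
      intro m _ c hc
      exact absurd hc (Finset.notMem_empty c)
    rw [hfil] at hw
    have hexp : (Real.log N) ^ ((1 : ℝ) / 2 - 1 - ((∅ : Finset ℕ).card : ℝ) + 4 / 100000 : ℝ) ≤
        (Real.log N) ^ (-(1 / 2) + 1 / 10000 : ℝ) := by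
      apply Real.rpow_le_rpow_of_exponent_le hlog
      rw [card_empty, Nat.cast_zero]
      norm_num
    have hL : 0 ≤ (Real.log N) ^ (-(1 / 2) + 1 / 10000 : ℝ) := Real.rpow_nonneg hlog0.le _
    calc (1 / 2 : ℝ) ^ Om (yy N) l * ∑ n ∈ Icc 1 (N / l), (1 / 2 : ℝ) ^ Om (yy N) n ≤
        (1 / 2 : ℝ) ^ Om (yy N) l * (((N / l : ℕ) : ℝ) *
          (Real.log N) ^ ((1 : ℝ) / 2 - 1 - ((∅ : Finset ℕ).card : ℝ) + 4 / 100000 : ℝ)) :=
          mul_le_mul_of_nonneg_left hw (by positivity)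
      _ ≤ (1 / 2 : ℝ) ^ Om (yy N) l * (N / (l : ℝ) *
          (Real.log N) ^ (-(1 / 2) + 1 / 10000 : ℝ)) :=
          mul_le_mul_of_nonneg_left (mul_le_mul hX1 hexp (Real.rpow_nonneg hlog0.le _)
            (by positivity)) (by positivity)
      _ = _ := by ring
  unfold PP
  rw [mul_sum]
  refine sum_le_sum fun p hp => ?_
  rw [mul_sum]
  exact sum_le_sum fun q hq => hone p hp q hq

end Pool.Agent.BDT
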