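import Pool.Agent.Bern2.FIN
import Pool.Agent.Helper24.Mertens

/-!
# BDL-RBad (1.0h): the primes `l` with `B_{2l}` reducible have small logarithmic mass

`Bern2.irreducible_almost_all`: for `η > 0` and `x ≥ x₀(η)` at most `η π(x)` primes `l ≤ x` are bad. Dyadic: the bad primes in `(2^j, 2^(j+1)]`, `2^(j+1) ≥ x₀`, contribute at most `η π(2^(j+1)) (log 2^(j+1))/2^j ≤ C η` (Chebyshev: `π(y) ≤ C y/log y`; Mathlib or the files used in Pool/Agent/Bern2/FIN.lean, `cheb`); at most
`2 log x` blocks; the primes below `x₀` contribute `O(1)`. So the sum is `≤ 2 C η log x + C(η) ≤ ε log x` for `η = ε/(4C)` and `x` large.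
-/

open Finset

namespace Pool.Agent.BDT

private theorem log_div_le_one (l : ℕ) : Real.log l / l ≤ 1 := by
  rcases Nat.eq_zero_or_pos l with rfl | hl
  · simp
  have h0 : (0 : ℝ) < l := by exact_mod_cast hl
  rw [div_le_one h0]
  have := Real.log_le_sub_one_of_pos h0
  linarith

open Classical in
/-- One dyadic block. -/
private theorem block_mass (η : ℝ) (hη : 0 < η) : ∃ N0 : ℕ, ∀ N : ℕ, N0 ≤ N → 2 ≤ N →
    ∑ l ∈ (Ioc (N / 2) N).filter
      (fun l => l.Prime ∧ ¬ Irreducible (Polynomial.bernoulli (2 * l))),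
      Real.log l / l ≤ 4 * η := by
  obtain ⟨N0, h⟩ := Pool.Agent.Bern2.dyadic η hη
  refine ⟨N0, fun N hN hN2 => ?_⟩
  have hNpos : (0 : ℝ) < N := by exact_mod_cast (by omega : 0 < N)
  have hlog : 0 < Real.log N := Real.log_pos (by exact_mod_cast (by omega : 1 < N))
  have hd := h (2 * N) (by omega)
  set S := (Ioc (N / 2) N).filter
      (fun l => l.Prime ∧ ¬ Irreducible (Polynomial.bernoulli (2 * l))) with hS
  have hcard : (S.card : ℝ) ≤ 2 * η * N / Real.log N := by
    have h1 : S.card ≤ ((Ioc (2 * N / 2) (2 * N)).filter (fun n => ∃ l : ℕ, l.Prime ∧ n = 2 * l ∧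
      ¬ Irreducible (Polynomial.bernoulli n))).card := by
      apply card_le_card_of_injOn (fun l => 2 * l)
      · intro l hl
        simp only [hS, coe_filter, mem_Ioc, Set.mem_ofPred_eq] at hl ⊢
        exact ⟨by omega, l, hl.2.1, rfl, hl.2.2⟩
      · intro a _ b _ hab
        simpa using hab
    have h2 : (S.card : ℝ) ≤ η * ((2 * N : ℕ) : ℝ) / Real.log ((2 * N : ℕ) : ℝ) :=
      le_trans (by exact_mod_cast h1) hd
    refine h2.trans ?_
    have h3 : η * ((2 * N : ℕ) : ℝ) = 2 * η * N := by push_cast; ring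
    rw [h3]
    apply div_le_div_of_nonneg_left (by positivity) hlog
    apply Real.log_le_log hNpos
    exact_mod_cast (by omega : N ≤ 2 * N)
  have hterm : ∀ l ∈ S, Real.log l / l ≤ 2 * Real.log N / N := by
    intro l hl
    simp only [hS, mem_filter, mem_Ioc] at hl
    have hl0 : 0 < l := by omega
    have hl1 : (0 : ℝ) < l := by exact_mod_cast hl0
    have hl2 : Real.log l ≤ Real.log N := Real.log_le_log hl1 (by exact_mod_cast hl.1.2)
    have hl3 : (N : ℝ) ≤ 2 * l := by exact_mod_cast (by omega : N ≤ 2 * l)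
    rw [div_le_div_iff₀ hl1 hNpos]
    calc Real.log l * N ≤ Real.log N * (2 * l) :=
          mul_le_mul hl2 hl3 hNpos.le hlog.le
      _ = 2 * Real.log N * l := by ring
  calc ∑ l ∈ S, Real.log l / l ≤ ∑ l ∈ S, 2 * Real.log N / N := sum_le_sum hterm
    _ = S.card * (2 * Real.log N / N) := by rw [sum_const, nsmul_eq_mul]
    _ ≤ (2 * η * N / Real.log N) * (2 * Real.log N / N) :=
        mul_le_mul_of_nonneg_right hcard (by positivity)
    _ = 4 * η := by field_simp; ring

open Classical in
/-- All blocks. -/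
private theorem all_blocks (η : ℝ) (hη : 0 < η) (M : ℕ) (hM2 : 2 ≤ M)
    (h : ∀ N : ℕ, M ≤ N → 2 ≤ N →
      ∑ l ∈ (Ioc (N / 2) N).filter
        (fun l => l.Prime ∧ ¬ Irreducible (Polynomial.bernoulli (2 * l))),
        Real.log l / l ≤ 4 * η) (N : ℕ) :
    ∑ l ∈ (Ioc 0 N).filter
      (fun l => l.Prime ∧ ¬ Irreducible (Polynomial.bernoulli (2 * l))),
      Real.log l / l ≤ M + 6 * η * Real.log N := by
  induction N using Nat.strong_induction_on with
  | _ N ih =>
    rcases lt_or_ge N M with hNM | hNM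
    · have h1 : ∑ l ∈ (Ioc 0 N).filter
          (fun l => l.Prime ∧ ¬ Irreducible (Polynomial.bernoulli (2 * l))),
          Real.log l / l ≤ ∑ l ∈ (Ioc 0 N).filter
          (fun l => l.Prime ∧ ¬ Irreducible (Polynomial.bernoulli (2 * l))), (1 : ℝ) :=
        sum_le_sum (fun l _ => log_div_le_one l)
      rw [sum_const, nsmul_eq_mul, mul_one] at h1
      have h2 : ((Ioc 0 N).filter
          (fun l => l.Prime ∧ ¬ Irreducible (Polynomial.bernoulli (2 * l)))).card ≤ N := by
        refine (card_filter_le _ _).trans ?_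
        rw [Nat.card_Ioc]
        omega
      have h3 : (((Ioc 0 N).filter
          (fun l => l.Prime ∧ ¬ Irreducible (Polynomial.bernoulli (2 * l)))).card : ℝ) ≤ M := by
        exact_mod_cast h2.trans hNM.le
      have h4 : 0 ≤ Real.log N := Real.log_natCast_nonneg N
      have h5 : 0 ≤ 6 * η * Real.log N := by positivity
      linarith
    · have h1 := ih (N / 2) (by omega)
      have h2 := h N hNM (by omega)
      have h3 : (Ioc 0 N).filter
          (fun l => l.Prime ∧ ¬ Irreducible (Polynomial.bernoulli (2 * l))) =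
          (Ioc 0 (N / 2)).filter
          (fun l => l.Prime ∧ ¬ Irreducible (Polynomial.bernoulli (2 * l))) ∪
          (Ioc (N / 2) N).filter
          (fun l => l.Prime ∧ ¬ Irreducible (Polynomial.bernoulli (2 * l))) := by
        rw [← filter_union]
        congr 1
        ext x
        simp only [mem_union, mem_Ioc]
        omega
      have hdisj : Disjoint ((Ioc 0 (N / 2)).filter
          (fun l => l.Prime ∧ ¬ Irreducible (Polynomial.bernoulli (2 * l))))
          ((Ioc (N / 2) N).filter
          (fun l => l.Prime ∧ ¬ Irreducible (Polynomial.bernoulli (2 * l)))) := by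
        rw [Finset.disjoint_left]
        intro x hx hx'
        simp only [mem_filter, mem_Ioc] at hx hx'
        omega
      rw [h3, sum_union hdisj]
      have h4 : Real.log ((N / 2 : ℕ) : ℝ) ≤ Real.log N - Real.log 2 := by
        rw [← Real.log_div (by exact_mod_cast (by omega : N ≠ 0)) (by norm_num)]
        apply Real.log_le_log
        · exact_mod_cast (by omega : 0 < N / 2)
        · exact Nat.cast_div_le
      have h5 : (0.69 : ℝ) < Real.log 2 := by
        have := Real.log_two_gt_d9
        linarith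
      have h6 : 6 * η * Real.log ((N / 2 : ℕ) : ℝ) ≤ 6 * η * (Real.log N - Real.log 2) :=
        mul_le_mul_of_nonneg_left h4 (by positivity)
      nlinarith

open Classical in
theorem bad_mass (ε : ℝ) (hε : 0 < ε) : ∃ x0 : ℕ, ∀ x : ℕ, x0 ≤ x →
    ∑ l ∈ (Icc 1 x).filter (fun l => l.Prime ∧ ¬ Irreducible (Polynomial.bernoulli (2 * l))),
      Real.log l / l ≤ ε * Real.log x := by
  obtain ⟨N0, hN0⟩ := block_mass (ε / 12) (by positivity)
  set M := max N0 2 with hM
  have hall := all_blocks (ε / 12) (by positivity) M (le_max_right _ _)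
    (fun N hN hN2 => hN0 N ((le_max_left _ _).trans hN) hN2)
  obtain ⟨X, hX⟩ := Filter.eventually_atTop.1
    (Real.tendsto_log_atTop.eventually_ge_atTop ((M : ℝ) / (ε / 2)))
  refine ⟨⌈X⌉₊, fun x hx => ?_⟩
  have hxX : X ≤ (x : ℝ) := le_trans (Nat.le_ceil X) (by exact_mod_cast hx)
  have h1 := hX x hxX
  rw [div_le_iff₀ (by positivity)] at h1
  have h2 := hall x
  have h3 : (Icc 1 x) = Ioc 0 x := by
    ext y
    simp only [mem_Icc, mem_Ioc]
    omega
  rw [h3]
  refine h2.trans ?_
  have h4 : 6 * (ε / 12) * Real.log (x : ℝ) = Real.log (x : ℝ) * (ε / 2) := by ring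
  have h5 : ε * Real.log (x : ℝ) = Real.log (x : ℝ) * (ε / 2) + Real.log (x : ℝ) * (ε / 2) := by
    ring
  linarith

end Pool.Agent.BDT
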