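import Pool.Agent.BDT.RMass
import Pool.Agent.BDN.BT

/-!
# BDL-REq (1.3h): the base family in residue classes

`g > 1` odd, coprime to `m`; `2 l % g = r` puts `l` into at most one class modulo `g` (2 is invertible), together with `l = a` modulo `m` into at most one class modulo `m g` (Chinese remainder; if two such `l` exist they are congruent modulo `m g`, so take the class of one of them).
Case `(m g)² ≤ X^0.445`: dyadic intervals `(y, 2y]`, `y = 2^j ⌊X^0.445⌋`, at most `log X` of them; `brun_titchmarsh` for the modulus `m g`: each contributes at most `C y/(φ(m)φ(g) log y) log(2y)/y ≤ 2C/(φ(m) φ(g))` (`(m g)² ≤ y` since it is an integer `≤ X^0.445`).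
Case `(m g)² > X^0.445`: then `g > X^0.2225/m ≥ X^0.22`; drop primality: integers `l > X^0.445` in one class modulo `g`: the first one contributes `≤ log X/X^0.445`, the others `l ≥ g k` (`k = 1, 2, ..`): `≤ (log X/g)(1 + log X)`; total `≤ X^(-1/10)` for `X ≥ X₀(m)`.
-/

open Finset

namespace Pool.Agent.BDT

private theorem req_cong {m g l l0 : ℕ} (hg : Odd g) (hgm : Nat.Coprime g m)
    (h1 : l % m = l0 % m) (h2 : (2 * l) % g = (2 * l0) % g) : l % (m * g) = l0 % (m * g) := by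
  have h3 : 2 * l ≡ 2 * l0 [MOD g] := h2
  have h4 : l ≡ l0 [MOD g] := by
    refine Nat.ModEq.cancel_left_of_coprime ?_ h3
    exact Nat.Coprime.symm ((Nat.coprime_two_left).2 hg)
  have h5 : l ≡ l0 [MOD m] := h1
  exact (Nat.modEq_and_modEq_iff_modEq_mul hgm.symm).1 ⟨h5, h4⟩

/-- contribution of a dyadic interval -/
private theorem req_dyad {C0 : ℝ} (hC0 : 0 < C0)
    (hBT : ∀ q a y : ℕ, 0 < q → 2 ≤ y → q ^ 2 ≤ y →
      (((Ioc y (2 * y)).filter (fun p => p.Prime ∧ p % q = a % q)).card : ℝ) ≤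
        C0 * y / ((Nat.totient q : ℝ) * Real.log y)) {Q b y : ℕ} (hQ : 0 < Q) (hy : 2 ≤ y)
    (hQy : Q ^ 2 ≤ y) (G : Finset ℕ)
    (hG : ∀ l ∈ G, y < l ∧ l ≤ 2 * y ∧ l.Prime ∧ l % Q = b % Q) :
    ∑ l ∈ G, Real.log l / l ≤ 2 * C0 / (Nat.totient Q : ℝ) := by
  have hy2 : (2 : ℝ) ≤ y := by exact_mod_cast hy
  have hy0 : (0 : ℝ) < y := by linarith
  have hlogy : 0 < Real.log y := Real.log_pos (by linarith)
  have hφ : (0 : ℝ) < Nat.totient Q := by exact_mod_cast Nat.totient_pos.2 hQ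
  have h1 : ∀ l ∈ G, Real.log (l : ℝ) / l ≤ 2 * Real.log y / y := by
    intro l hl
    obtain ⟨h2, h3, _, _⟩ := hG l hl
    have h2' : (y : ℝ) < l := by exact_mod_cast h2
    have h3' : (l : ℝ) ≤ 2 * y := by exact_mod_cast h3
    have hl0 : (0 : ℝ) < l := by linarith
    have h4 : Real.log l ≤ 2 * Real.log y := by
      have h5 : (l : ℝ) ≤ (y : ℝ) ^ 2 := by nlinarith
      have h6 := Real.log_le_log hl0 h5
      rwa [Real.log_pow, Nat.cast_ofNat] at h6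
    have h5 : 0 ≤ 2 * Real.log y := by linarith
    exact div_le_div₀ h5 h4 hy0 h2'.le
  have h2 := Finset.sum_le_card_nsmul G (fun l : ℕ => Real.log (l : ℝ) / l) _ h1
  have h3 : (G.card : ℝ) ≤ C0 * y / ((Nat.totient Q : ℝ) * Real.log y) := by
    refine le_trans ?_ (hBT Q b y hQ hy hQy)
    have h4 : G ⊆ (Ioc y (2 * y)).filter (fun p => p.Prime ∧ p % Q = b % Q) := by
      intro l hl
      obtain ⟨h2, h3, h4, h5⟩ := hG l hl
      rw [mem_filter, mem_Ioc]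
      exact ⟨⟨h2, h3⟩, h4, h5⟩
    exact_mod_cast card_le_card h4
  refine h2.trans ?_
  rw [nsmul_eq_mul]
  calc (G.card : ℝ) * (2 * Real.log y / y)
      ≤ C0 * y / ((Nat.totient Q : ℝ) * Real.log y) * (2 * Real.log y / y) := by
        refine mul_le_mul_of_nonneg_right h3 ?_
        positivity
    _ = 2 * C0 / (Nat.totient Q : ℝ) := by
        field_simp

private theorem req_caseA {C0 : ℝ} (hC0 : 0 < C0)
    (hBT : ∀ q a y : ℕ, 0 < q → 2 ≤ y → q ^ 2 ≤ y →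
      (((Ioc y (2 * y)).filter (fun p => p.Prime ∧ p % q = a % q)).card : ℝ) ≤
        C0 * y / ((Nat.totient q : ℝ) * Real.log y)) {X : ℝ} (hX : 32 ≤ X) {Q b : ℕ} (hQ : 0 < Q)
    (hQX : (Q : ℝ) ^ 2 ≤ X ^ (445 / 1000 : ℝ)) (F : Finset ℕ)
    (hF : ∀ l ∈ F, X ^ (445 / 1000 : ℝ) < (l : ℝ) ∧ (l : ℝ) ≤ X ^ (485 / 1000 : ℝ) ∧ l.Prime ∧
      l % Q = b % Q) :
    ∑ l ∈ F, Real.log l / l ≤ 4 * C0 * (Real.log X / (Nat.totient Q : ℝ)) := by
  have hX0 : (0 : ℝ) < X := by linarith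
  have hφ : (0 : ℝ) < Nat.totient Q := by exact_mod_cast Nat.totient_pos.2 hQ
  set y0 : ℕ := ⌊X ^ (445 / 1000 : ℝ)⌋₊ with hy0
  have hu0 : (0 : ℝ) ≤ X ^ (445 / 1000 : ℝ) := Real.rpow_nonneg hX0.le _
  have hy02 : 2 ≤ y0 := by
    apply Nat.le_floor
    have h1 : ((32 : ℝ)) ^ (445 / 1000 : ℝ) ≤ X ^ (445 / 1000 : ℝ) :=
      Real.rpow_le_rpow (by norm_num) hX (by norm_num)
    have h2 : (32 : ℝ) ^ (1 / 5 : ℝ) ≤ (32 : ℝ) ^ (445 / 1000 : ℝ) :=
      Real.rpow_le_rpow_of_exponent_le (by norm_num) (by norm_num)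
    have h3 : (32 : ℝ) ^ (1 / 5 : ℝ) = 2 := by
      rw [show (32 : ℝ) = (2 : ℝ) ^ (5 : ℝ) by norm_num, ← Real.rpow_mul (by norm_num)]
      norm_num
    push_cast
    linarith
  have hQy : Q ^ 2 ≤ y0 := by
    apply Nat.le_floor
    push_cast
    exact hQX
  have hlogX : 1 ≤ Real.log X := by
    have h1 : Real.log (Real.exp 1) ≤ Real.log X :=
      Real.log_le_log (Real.exp_pos 1) (by linarith [Real.exp_one_lt_d9])
    rwa [Real.log_exp] at h1
  set N : ℕ := ⌈Real.log X⌉₊ with hN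
  have hN1 : (N : ℝ) ≤ 2 * Real.log X := by
    have h1 := Nat.ceil_lt_add_one (a := Real.log X) (by linarith)
    linarith
  have hlog2 : (0.69 : ℝ) < Real.log 2 := by linarith [Real.log_two_gt_d9]
  set J : ℕ → ℕ := fun l => Nat.log 2 ((l - 1) / y0) with hJ
  have hy0pos : 0 < y0 := by omega
  have hmem : ∀ l ∈ F, y0 < l := by
    intro l hl
    have h1 := (hF l hl).1
    have h2 : (y0 : ℝ) ≤ X ^ (445 / 1000 : ℝ) := Nat.floor_le hu0
    exact_mod_cast h2.trans_lt h1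
  have hJ1 : ∀ l ∈ F, 2 ^ (J l) * y0 < l ∧ l ≤ 2 * (2 ^ (J l) * y0) := by
    intro l hl
    have h1 := hmem l hl
    have h2 : (l - 1) / y0 ≠ 0 := by
      have : 0 < (l - 1) / y0 := Nat.div_pos (by omega) hy0pos
      omega
    have h3 : 2 ^ (J l) ≤ (l - 1) / y0 := Nat.pow_log_le_self 2 h2
    have h4 : (l - 1) / y0 < 2 ^ (J l + 1) := Nat.lt_pow_succ_log_self (by norm_num) _
    have h5 : 2 ^ (J l) * y0 ≤ l - 1 := (Nat.le_div_iff_mul_le hy0pos).1 h3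
    have h6 : l - 1 < 2 ^ (J l + 1) * y0 := (Nat.div_lt_iff_lt_mul hy0pos).1 h4
    have h7 : 2 ^ (J l + 1) * y0 = 2 * (2 ^ (J l) * y0) := by ring
    rw [h7] at h6
    omega
  have hJN : ∀ l ∈ F, J l ∈ range N := by
    intro l hl
    rw [mem_range]
    have h1 := (hJ1 l hl).1
    have h2 : 2 ^ (J l) ≤ l := by
      have : 2 ^ (J l) * 1 ≤ 2 ^ (J l) * y0 := Nat.mul_le_mul_left _ (by omega)
      omega
    have h3 : (2 : ℝ) ^ (J l) ≤ X ^ (485 / 1000 : ℝ) := by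
      have h4 : ((2 ^ (J l) : ℕ) : ℝ) ≤ l := by exact_mod_cast h2
      push_cast at h4
      exact h4.trans (hF l hl).2.1
    have h4 := Real.log_le_log (by positivity) h3
    rw [Real.log_pow, Real.log_rpow hX0] at h4
    have h5 : (J l : ℝ) < Real.log X := by
      by_contra hcon
      push Not at hcon
      have h6 : Real.log X * 0.69 ≤ (J l : ℝ) * Real.log 2 :=
        mul_le_mul hcon hlog2.le (by norm_num) (Nat.cast_nonneg _)
      linarith
    have h6 : Real.log X ≤ N := Nat.le_ceil _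
    exact_mod_cast h5.trans_le h6
  rw [← Finset.sum_fiberwise_of_maps_to hJN]
  have hfib : ∀ j ∈ range N, ∑ l ∈ F.filter (fun l => J l = j), Real.log (l : ℝ) / l ≤
      2 * C0 / (Nat.totient Q : ℝ) := by
    intro j _
    have h2j : 1 ≤ 2 ^ j := Nat.one_le_two_pow
    have hle : y0 ≤ 2 ^ j * y0 := Nat.le_mul_of_pos_left _ (by omega)
    refine req_dyad hC0 hBT (b := b) (y := 2 ^ j * y0) hQ (hy02.trans hle) (hQy.trans hle) _ ?_
    intro l hl
    rw [mem_filter] at hl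
    have h1 := hJ1 l hl.1
    rw [hl.2] at h1
    exact ⟨h1.1, h1.2, (hF l hl.1).2.2.1, (hF l hl.1).2.2.2⟩
  have h1 := Finset.sum_le_card_nsmul (range N) _ _ hfib
  refine h1.trans ?_
  rw [card_range, nsmul_eq_mul]
  calc (N : ℝ) * (2 * C0 / (Nat.totient Q : ℝ))
      ≤ (2 * Real.log X) * (2 * C0 / (Nat.totient Q : ℝ)) :=
        mul_le_mul_of_nonneg_right hN1 (by positivity)
    _ = 4 * C0 * (Real.log X / (Nat.totient Q : ℝ)) := by ring

private theorem req_caseB {X : ℝ} {m g b : ℕ} (hm : 0 < m) (hg : 0 < g)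
    (hX : (25 * ((m : ℝ) + 1)) ^ 24 ≤ X)
    (hQX : X ^ (445 / 1000 : ℝ) < ((m * g : ℕ) : ℝ) ^ 2) (F : Finset ℕ)
    (hF : ∀ l ∈ F, X ^ (445 / 1000 : ℝ) < (l : ℝ) ∧ (l : ℝ) ≤ X ^ (485 / 1000 : ℝ) ∧
      l % g = b % g) :
    ∑ l ∈ F, Real.log l / l ≤ X ^ (-(1 / 10) : ℝ) := by
  have hm1 : (1 : ℝ) ≤ m := by exact_mod_cast hm
  have hA1 : (1 : ℝ) ≤ 25 * ((m : ℝ) + 1) := by linarith
  have hX1 : 1 ≤ X := (one_le_pow₀ hA1).trans hX
  have hX0 : 0 < X := by linarith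
  have hg0 : (0 : ℝ) < g := by exact_mod_cast hg
  have hlog0 : 0 ≤ Real.log X := Real.log_nonneg hX1
  -- the number of elements
  have hcard : (F.card : ℝ) ≤ X ^ (485 / 1000 : ℝ) / g + 1 := by
    have hinj : Set.InjOn (fun l : ℕ => l / g) (F : Set ℕ) := by
      intro x hx y hy hxy
      have h1 := (hF x hx).2.2
      have h2 := (hF y hy).2.2
      have e1 := Nat.div_add_mod x g
      have e2 := Nat.div_add_mod y g
      have h3 : x / g = y / g := hxy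
      rw [h1] at e1
      rw [h2] at e2
      rw [← e1, ← e2, h3]
    have h1 : F.card ≤ (range (⌊X ^ (485 / 1000 : ℝ)⌋₊ / g + 1)).card := by
      refine Finset.card_le_card_of_injOn _ ?_ hinj
      intro l hl
      rw [mem_coe, mem_range]
      have h2 : l ≤ ⌊X ^ (485 / 1000 : ℝ)⌋₊ := Nat.le_floor (hF l hl).2.1
      exact Nat.lt_succ_of_le (Nat.div_le_div_right h2)
    rw [card_range] at h1
    have h2 : (F.card : ℝ) ≤ ((⌊X ^ (485 / 1000 : ℝ)⌋₊ / g : ℕ) : ℝ) + 1 := by exact_mod_cast h1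
    refine h2.trans (add_le_add_left ?_ 1)
    refine (Nat.cast_div_le).trans ?_
    exact div_le_div_of_nonneg_right (Nat.floor_le (Real.rpow_nonneg hX0.le _)) hg0.le
  have hterm : ∀ l ∈ F, Real.log (l : ℝ) / l ≤ Real.log X / X ^ (445 / 1000 : ℝ) := by
    intro l hl
    obtain ⟨h1, h2, _⟩ := hF l hl
    have hu : (0 : ℝ) < X ^ (445 / 1000 : ℝ) := Real.rpow_pos_of_pos hX0 _
    have hl0 : (0 : ℝ) < l := by linarith
    have h3 : X ^ (485 / 1000 : ℝ) ≤ X := by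
      conv_rhs => rw [← Real.rpow_one X]
      exact Real.rpow_le_rpow_of_exponent_le hX1 (by norm_num)
    exact div_le_div₀ hlog0 (Real.log_le_log hl0 (h2.trans h3)) hu h1.le
  have hs := Finset.sum_le_card_nsmul F (fun l : ℕ => Real.log (l : ℝ) / l) _ hterm
  refine hs.trans ?_
  rw [nsmul_eq_mul]
  -- bound for 1 / g
  have hQ : X ^ (2225 / 10000 : ℝ) ≤ (m : ℝ) * g := by
    have h1 : (X ^ (2225 / 10000 : ℝ)) ^ 2 ≤ ((m : ℝ) * g) ^ 2 := by
      rw [← Real.rpow_natCast, ← Real.rpow_mul hX0.le]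
      push_cast at hQX
      have e : (2225 / 10000 : ℝ) * ((2 : ℕ) : ℝ) = 445 / 1000 := by norm_num
      rw [e]
      exact hQX.le
    exact le_of_sq_le_sq h1 (by positivity)
  have hg1 : 1 / (g : ℝ) ≤ m * X ^ (-(2225 / 10000) : ℝ) := by
    rw [Real.rpow_neg hX0.le, ← div_eq_mul_inv, div_le_div_iff₀ hg0 (Real.rpow_pos_of_pos hX0 _)]
    linarith
  have hlog : Real.log X ≤ 25 * X ^ (4 / 100 : ℝ) := by
    have h1 := Real.log_le_rpow_div hX0.le (ε := 4 / 100) (by norm_num)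
    have e : X ^ (4 / 100 : ℝ) / (4 / 100) = 25 * X ^ (4 / 100 : ℝ) := by ring
    rwa [e] at h1
  have hbig : 25 * ((m : ℝ) + 1) ≤ X ^ (425 / 10000 : ℝ) := by
    have h1 : ((25 * ((m : ℝ) + 1)) ^ 24) ^ (425 / 10000 : ℝ) ≤ X ^ (425 / 10000 : ℝ) :=
      Real.rpow_le_rpow (by positivity) hX (by norm_num)
    have h2 : ((25 * ((m : ℝ) + 1)) ^ 24) ^ (425 / 10000 : ℝ) =
        (25 * ((m : ℝ) + 1)) ^ (102 / 100 : ℝ) := by
      rw [← Real.rpow_natCast, ← Real.rpow_mul (by positivity)]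
      norm_num
    have h3 : (25 * ((m : ℝ) + 1)) ^ (1 : ℝ) ≤ (25 * ((m : ℝ) + 1)) ^ (102 / 100 : ℝ) :=
      Real.rpow_le_rpow_of_exponent_le hA1 (by norm_num)
    rw [Real.rpow_one] at h3
    linarith
  -- assembly
  have hL : (F.card : ℝ) * (Real.log X / X ^ (445 / 1000 : ℝ)) ≤
      (m * X ^ (-(2225 / 10000) : ℝ) * X ^ (485 / 1000 : ℝ) + 1) *
        (25 * X ^ (4 / 100 : ℝ) * X ^ (-(445 / 1000) : ℝ)) := by
    have h1 : Real.log X / X ^ (445 / 1000 : ℝ) ≤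
        25 * X ^ (4 / 100 : ℝ) * X ^ (-(445 / 1000) : ℝ) := by
      rw [Real.rpow_neg hX0.le, div_eq_mul_inv]
      exact mul_le_mul_of_nonneg_right hlog (by positivity)
    have h2 : (F.card : ℝ) ≤ m * X ^ (-(2225 / 10000) : ℝ) * X ^ (485 / 1000 : ℝ) + 1 := by
      refine hcard.trans (add_le_add_left ?_ 1)
      rw [div_eq_mul_one_div, mul_comm]
      exact mul_le_mul_of_nonneg_right hg1 (by positivity)
    exact mul_le_mul h2 h1 (by positivity) (by positivity)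
  refine hL.trans ?_
  have e1 : (m * X ^ (-(2225 / 10000) : ℝ) * X ^ (485 / 1000 : ℝ) + 1) *
        (25 * X ^ (4 / 100 : ℝ) * X ^ (-(445 / 1000) : ℝ)) =
      25 * m * (X ^ (-(1425 / 10000) : ℝ)) + 25 * X ^ (-(405 / 1000) : ℝ) := by
    have a1 : X ^ (-(2225 / 10000) : ℝ) * X ^ (485 / 1000 : ℝ) * X ^ (4 / 100 : ℝ) *
        X ^ (-(445 / 1000) : ℝ) = X ^ (-(1425 / 10000) : ℝ) := by
      rw [← Real.rpow_add hX0, ← Real.rpow_add hX0, ← Real.rpow_add hX0]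
      norm_num
    have a2 : X ^ (4 / 100 : ℝ) * X ^ (-(445 / 1000) : ℝ) = X ^ (-(405 / 1000) : ℝ) := by
      rw [← Real.rpow_add hX0]
      norm_num
    rw [← a1, ← a2]
    ring
  rw [e1]
  have h5 : X ^ (-(405 / 1000) : ℝ) ≤ X ^ (-(1425 / 10000) : ℝ) :=
    Real.rpow_le_rpow_of_exponent_le hX1 (by norm_num)
  have h6 : X ^ (425 / 10000 : ℝ) * X ^ (-(1425 / 10000) : ℝ) = X ^ (-(1 / 10) : ℝ) := by
    rw [← Real.rpow_add hX0]
    norm_num
  rw [← h6]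
  have h7 : 0 ≤ X ^ (-(1425 / 10000) : ℝ) := Real.rpow_nonneg hX0.le _
  calc 25 * m * (X ^ (-(1425 / 10000) : ℝ)) + 25 * X ^ (-(405 / 1000) : ℝ)
      ≤ 25 * ((m : ℝ) + 1) * X ^ (-(1425 / 10000) : ℝ) := by nlinarith
    _ ≤ X ^ (425 / 10000 : ℝ) * X ^ (-(1425 / 10000) : ℝ) :=
        mul_le_mul_of_nonneg_right hbig h7

theorem base_eq : ∃ C : ℝ, 0 < C ∧ ∀ m a : ℕ, 0 < m → ∃ X0 : ℝ, ∀ X : ℝ, X0 ≤ X → ∀ g r : ℕ, 1 < g → Odd g →
    Nat.Coprime g m → (g : ℝ) ≤ 2 * X ^ (1 / 2 : ℝ) →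
      ∑ l ∈ (bs X m a).filter (fun l => (2 * l) % g = r), Real.log l / l ≤
        C * (Real.log X / ((Nat.totient m : ℝ) * (Nat.totient g : ℝ))) + X ^ (-(1 / 10) : ℝ) := by
  obtain ⟨C0, hC0, hBT⟩ := Pool.Agent.BDN.brun_titchmarsh
  refine ⟨4 * C0, by positivity, fun m a hm => ⟨(25 * ((m : ℝ) + 1)) ^ 24, fun X hX g r hg1 hgo hgm _ => ?_⟩⟩
  have hm1 : (1 : ℝ) ≤ m := by exact_mod_cast hm
  have hA1 : (32 : ℝ) ≤ 25 * ((m : ℝ) + 1) := by linarith
  have hX32 : 32 ≤ X := by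
    have h1 : (25 * ((m : ℝ) + 1)) ≤ (25 * ((m : ℝ) + 1)) ^ 24 :=
      le_self_pow₀ (by linarith) (by norm_num)
    linarith
  have hX0 : 0 < X := by linarith
  have hφm : (0 : ℝ) < Nat.totient m := by exact_mod_cast Nat.totient_pos.2 hm
  have hg0 : 0 < g := by omega
  have hφg : (0 : ℝ) < Nat.totient g := by exact_mod_cast Nat.totient_pos.2 hg0
  have hlog0 : 0 ≤ Real.log X := Real.log_nonneg (by linarith)
  have hp0 : 0 ≤ X ^ (-(1 / 10) : ℝ) := Real.rpow_nonneg hX0.le _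
  have hmain0 : 0 ≤ 4 * C0 * (Real.log X / ((Nat.totient m : ℝ) * (Nat.totient g : ℝ))) := by
    positivity
  set F := (bs X m a).filter (fun l => (2 * l) % g = r) with hFd
  rcases F.eq_empty_or_nonempty with hFe | ⟨l0, hl0⟩
  · rw [hFe, sum_empty]
    linarith
  · have hF : ∀ l ∈ F, X ^ (445 / 1000 : ℝ) < (l : ℝ) ∧ (l : ℝ) ≤ X ^ (485 / 1000 : ℝ) ∧
        l.Prime ∧ l % m = a % m ∧ (2 * l) % g = r := by
      intro l hl
      rw [hFd, mem_filter] at hl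
      obtain ⟨hl1, hl2⟩ := hl
      unfold bs at hl1
      classical
      have hl3 := Finset.mem_filter.1 hl1
      rw [mem_Icc] at hl3
      obtain ⟨⟨_, h1⟩, h2, h3, h4, _⟩ := hl3
      have h5 : (l : ℝ) ≤ X ^ (485 / 1000 : ℝ) :=
        (Nat.cast_le.2 h1).trans (Nat.floor_le (Real.rpow_nonneg hX0.le _))
      exact ⟨h3, h5, h2, h4, hl2⟩
    have hcong : ∀ l ∈ F, l % (m * g) = l0 % (m * g) := by
      intro l hl
      obtain ⟨_, _, _, h4, h5⟩ := hF l hl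
      obtain ⟨_, _, _, h4', h5'⟩ := hF l0 hl0
      exact req_cong hgo hgm (h4.trans h4'.symm) (h5.trans h5'.symm)
    by_cases hQ : (((m * g : ℕ)) : ℝ) ^ 2 ≤ X ^ (445 / 1000 : ℝ)
    · have h1 := req_caseA hC0 hBT hX32 (Q := m * g) (b := l0) (Nat.mul_pos hm hg0) hQ F
        (fun l hl => ⟨(hF l hl).1, (hF l hl).2.1, (hF l hl).2.2.1, hcong l hl⟩)
      rw [Nat.totient_mul hgm.symm] at h1
      push_cast at h1
      linarith
    · push Not at hQ
      have h1 := req_caseB (b := l0) hm hg0 hX hQ F (fun l hl => ⟨(hF l hl).1, (hF l hl).2.1, by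
        have h2 := hcong l hl
        have h3 : l ≡ l0 [MOD m * g] := h2
        exact Nat.ModEq.of_mul_left m h3⟩)
      linarith

end Pool.Agent.BDT
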