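import Pool.Agent.BDT.RBad
import Pool.Agent.BDN.MAP

/-!
# BDL-RMass (1.0h): lower bound for the mass of the base family

`mertens_ap m a` at `⌊X^0.485⌋` and `⌊X^0.445⌋`, `log l / l ≥ 0.99 log l / (l - 1)` for `l > 100`, and `bad_mass`.
-/

open Finset

namespace Pool.Agent.BDT

open Classical in
/-- the base primes: `X^0.445 < l ≤ X^0.485`, `l = a` modulo `m`, `B_{2l}` irreducible -/
noncomputable def bs (X : ℝ) (m a : ℕ) : Finset ℕ :=
  (Icc 1 ⌊X ^ (485 / 1000 : ℝ)⌋₊).filter (fun l => l.Prime ∧ X ^ (445 / 1000 : ℝ) < (l : ℝ) ∧ l % m = a % m ∧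
    Irreducible (Polynomial.bernoulli (2 * l)))

theorem base_mass (m a : ℕ) (hm : 0 < m) (ha : Nat.Coprime a m) : ∃ X0 : ℝ, ∀ X : ℝ, X0 ≤ X →
    3 / 100 * (Real.log X / (Nat.totient m : ℝ)) ≤ ∑ l ∈ bs X m a, Real.log l / l := by
  classical
  obtain ⟨C, hC⟩ := Pool.Agent.BDN.mertens_ap m a hm ha
  have hφ0 : 0 < Nat.totient m := Nat.totient_pos.2 hm
  obtain ⟨φ, hφ⟩ : ∃ φ : ℝ, φ = (Nat.totient m : ℝ) := ⟨_, rfl⟩
  rw [← hφ] at hC ⊢
  have hφp : 0 < φ := by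
    rw [hφ]
    exact_mod_cast hφ0
  obtain ⟨x0, hx0⟩ := bad_mass (1 / (200 * φ)) (by positivity)
  have hC0 : 0 ≤ C := (abs_nonneg _).trans (hC 1 le_rfl)
  have ev : ∀ᶠ X : ℝ in Filter.atTop, 1 ≤ X ∧ 100 ≤ X ^ (445 / 1000 : ℝ) ∧
      (x0 : ℝ) + 2 ≤ X ^ (485 / 1000 : ℝ) ∧ 1000 * φ * (1 / φ + 2 * C) ≤ Real.log X := by
    refine (Filter.eventually_ge_atTop 1).and ?_
    refine ((tendsto_rpow_atTop (by norm_num)).eventually_ge_atTop 100).and ?_
    refine ((tendsto_rpow_atTop (by norm_num)).eventually_ge_atTop _).and ?_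
    exact Real.tendsto_log_atTop.eventually_ge_atTop _
  obtain ⟨X0, hX0⟩ := Filter.eventually_atTop.1 ev
  refine ⟨X0, fun X hX => ?_⟩
  obtain ⟨h1, h2, h3, h4⟩ := hX0 X hX
  have hXp : 0 < X := by linarith
  have hx0n : (0 : ℝ) ≤ x0 := Nat.cast_nonneg _
  obtain ⟨U, hU⟩ : ∃ U : ℕ, U = ⌊X ^ (485 / 1000 : ℝ)⌋₊ := ⟨_, rfl⟩
  obtain ⟨V, hV⟩ : ∃ V : ℕ, V = ⌊X ^ (445 / 1000 : ℝ)⌋₊ := ⟨_, rfl⟩
  have hUle : (U : ℝ) ≤ X ^ (485 / 1000 : ℝ) := by
    rw [hU]
    exact Nat.floor_le (by linarith)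
  have hUge : X ^ (485 / 1000 : ℝ) < U + 1 := by
    rw [hU]
    exact Nat.lt_floor_add_one _
  have hVle : (V : ℝ) ≤ X ^ (445 / 1000 : ℝ) := by
    rw [hV]
    exact Nat.floor_le (by linarith)
  have hVge : X ^ (445 / 1000 : ℝ) < V + 1 := by
    rw [hV]
    exact Nat.lt_floor_add_one _
  have hV1 : (0 : ℝ) < V := by linarith
  have hU1 : (0 : ℝ) < U := by linarith
  have hU1' : 1 ≤ U := by
    have : 0 < U := by exact_mod_cast hU1
    exact this
  have hV1' : 1 ≤ V := by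
    have : 0 < V := by exact_mod_cast hV1
    exact this
  have hUx : x0 ≤ U := by
    have : (x0 : ℝ) ≤ U := by linarith
    exact_mod_cast this
  have lU1 : Real.log U ≤ 485 / 1000 * Real.log X := by
    rw [← Real.log_rpow hXp]
    exact Real.log_le_log hU1 hUle
  have lV1 : Real.log V ≤ 445 / 1000 * Real.log X := by
    rw [← Real.log_rpow hXp]
    exact Real.log_le_log hV1 hVle
  have lU2 : 485 / 1000 * Real.log X - Real.log 2 ≤ Real.log U := by
    rw [← Real.log_rpow hXp, ← Real.log_div (by linarith) (by norm_num)]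
    refine Real.log_le_log (by linarith) ?_
    linarith
  have hlog2 : Real.log 2 ≤ 1 := by
    have := Real.log_two_lt_d9
    linarith
  -- the two sums
  obtain ⟨G, hG⟩ : ∃ G : Finset ℕ, G = (Icc 1 U).filter (fun l : ℕ => l.Prime ∧
      X ^ (445 / 1000 : ℝ) < (l : ℝ) ∧ l % m = a % m) := ⟨_, rfl⟩
  have hAU := (abs_le.1 (hC U hU1')).1
  have hAV := (abs_le.1 (hC V hV1')).2
  obtain ⟨FU, hFU⟩ : ∃ F : Finset ℕ, F = (Icc 1 U).filter (fun p => p.Prime ∧ p % m = a % m) :=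
    ⟨_, rfl⟩
  obtain ⟨FV, hFV⟩ : ∃ F : Finset ℕ, F = (Icc 1 V).filter (fun p => p.Prime ∧ p % m = a % m) :=
    ⟨_, rfl⟩
  have hnn : ∀ l : ℕ, l.Prime → 0 ≤ Real.log l / ((l : ℝ) - 1) := by
    intro l hl
    have h5 : (2 : ℝ) ≤ l := by exact_mod_cast hl.two_le
    exact div_nonneg (Real.log_nonneg (by linarith)) (by linarith)
  have hnn' : ∀ l : ℕ, 0 ≤ Real.log l / (l : ℝ) := by
    intro l
    rcases Nat.eq_zero_or_pos l with h5 | h5
    · rw [h5, Nat.cast_zero, div_zero]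
    · have h6 : (1 : ℝ) ≤ l := by exact_mod_cast h5
      exact div_nonneg (Real.log_nonneg h6) (by linarith)
  have hsub : FU ⊆ G ∪ FV := by
    intro l hl
    rw [hFU, mem_filter, mem_Icc] at hl
    rw [mem_union, hG, hFV, mem_filter, mem_filter, mem_Icc, mem_Icc]
    by_cases h5 : X ^ (445 / 1000 : ℝ) < (l : ℝ)
    · exact Or.inl ⟨hl.1, hl.2.1, h5, hl.2.2⟩
    · refine Or.inr ⟨⟨hl.1.1, ?_⟩, hl.2⟩
      rw [hV]
      exact Nat.le_floor (by linarith)
  have hsum1 : ∑ l ∈ FU, Real.log l / ((l : ℝ) - 1) ≤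
      ∑ l ∈ G, Real.log l / ((l : ℝ) - 1) + ∑ l ∈ FV, Real.log l / ((l : ℝ) - 1) := by
    have hGp : ∀ l ∈ G, l.Prime := by
      intro l hl
      rw [hG, mem_filter] at hl
      exact hl.2.1
    have hFp : ∀ l ∈ FV, l.Prime := by
      intro l hl
      rw [hFV, mem_filter] at hl
      exact hl.2.1
    have h6 : ∑ l ∈ G ∪ FV, Real.log l / ((l : ℝ) - 1) ≤
        ∑ l ∈ G, Real.log l / ((l : ℝ) - 1) + ∑ l ∈ FV, Real.log l / ((l : ℝ) - 1) := by
      rw [← sum_union_inter]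
      have : 0 ≤ ∑ l ∈ G ∩ FV, Real.log l / ((l : ℝ) - 1) :=
        sum_nonneg fun l hl => hnn l (hGp l (mem_inter.1 hl).1)
      linarith
    refine le_trans ?_ h6
    refine sum_le_sum_of_subset_of_nonneg hsub fun l hl _ => hnn l ?_
    rcases mem_union.1 hl with h7 | h7
    · exact hGp l h7
    · exact hFp l h7
  have hsum2 : 99 / 100 * ∑ l ∈ G, Real.log l / ((l : ℝ) - 1) ≤ ∑ l ∈ G, Real.log l / l := by
    rw [mul_sum]
    refine sum_le_sum fun l hl => ?_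
    rw [hG, mem_filter] at hl
    have h5 : (100 : ℝ) < l := by linarith [hl.2.2.1]
    have h6 : 0 < Real.log l := Real.log_pos (by linarith)
    rw [← mul_div_assoc, div_le_div_iff₀ (by linarith) (by linarith)]
    nlinarith
  have hbad := hx0 U hUx
  have hsum3 : ∑ l ∈ G, Real.log l / l ≤ ∑ l ∈ bs X m a, Real.log l / l +
      ∑ l ∈ (Icc 1 U).filter (fun l : ℕ => l.Prime ∧ ¬ Irreducible (Polynomial.bernoulli (2 * l))),
        Real.log l / l := by
    have h6 : G ⊆ bs X m a ∪ (Icc 1 U).filter (fun l : ℕ => l.Prime ∧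
        ¬ Irreducible (Polynomial.bernoulli (2 * l))) := by
      intro l hl
      rw [hG, mem_filter] at hl
      rw [mem_union, bs, ← hU, mem_filter, mem_filter]
      by_cases h5 : Irreducible (Polynomial.bernoulli (2 * l))
      · exact Or.inl ⟨hl.1, hl.2.1, hl.2.2.1, hl.2.2.2, h5⟩
      · exact Or.inr ⟨hl.1, hl.2.1, h5⟩
    refine (sum_le_sum_of_subset_of_nonneg h6 fun l _ _ => hnn' l).trans ?_
    rw [← sum_union_inter]
    exact le_add_of_nonneg_right (sum_nonneg fun l _ => hnn' l)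
  rw [← hFU] at hAU
  rw [← hFV] at hAV
  -- numbers
  obtain ⟨T, hT⟩ : ∃ T : ℝ, T = Real.log X / φ := ⟨_, rfl⟩
  have hT0 : 0 ≤ T := by
    rw [hT]
    exact div_nonneg (Real.log_nonneg h1) hφp.le
  have hK : 1 / φ + 2 * C ≤ T / 1000 := by
    rw [hT, div_div, le_div_iff₀ (by positivity)]
    linarith
  have e1 : 485 / 1000 * T - 1 / φ ≤ Real.log U / φ := by
    rw [hT, le_div_iff₀ hφp]
    have : (485 / 1000 * (Real.log X / φ) - 1 / φ) * φ = 485 / 1000 * Real.log X - 1 := by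
      field_simp
    rw [this]
    linarith
  have e2 : Real.log V / φ ≤ 445 / 1000 * T := by
    rw [hT, div_le_iff₀ hφp]
    have : 445 / 1000 * (Real.log X / φ) * φ = 445 / 1000 * Real.log X := by
      field_simp
    rw [this]
    exact lV1
  have e3 : 1 / (200 * φ) * Real.log U ≤ 485 / 200000 * T := by
    have h7 : 1 / (200 * φ) * Real.log U ≤ 1 / (200 * φ) * (485 / 1000 * Real.log X) :=
      mul_le_mul_of_nonneg_left lU1 (by positivity)
    refine h7.trans (le_of_eq ?_)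
    rw [hT]
    field_simp
    ring
  rw [← hT]
  linarith

end Pool.Agent.BDT
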