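import Mathlib

/-!
# BDL-Res (1.5h): a resultant bound with common zeros

`R = resultant f g` (Mathlib `Polynomial.resultant`, degrees `m = natDegree f`, `n = natDegree g`; see also Pool/Agent/Helper27/GP/Res.lean `vecMul_sylvester` and
Pool/Agent/GP/Gelfond.lean `one_le_norm_resultant` for the API). Nonzero: `f` is irreducible over `ℚ` and `deg g < deg f`, `g ≠ 0`, so the two are coprime over `ℚ` (`resultant_map_map`).
Size: `|det M| ≤ ∏_j ∑_i |M i j|` (expand the product of the column sums, it contains all permutations: `Finset.prod_univ_sum`), the columns (rows) of the Sylvester matrix are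
shifted coefficient vectors: `|R| ≤ l1(f)^n l1(g)^m`, `n ≤ m - 1` and `l1 f ≥ 1`.
Divisibility: let `k = card S`, `k ≤ m ≤ m + n` (a nonzero polynomial of degree `m` modulo `p` has at most `m` zeros; the leading coefficient of `f` is not divisible by `p`). With the square matrix `V`
whose first `k` rows are `(a^0, a^1, ..)`, `a ∈ S` (ordered), and whose other rows are the unit vectors `e_k, e_{k+1}, ..` the product `V * sylvester` has its first `k` rows divisible by `p`
(`vecMul_sylvester`: entries `a^j g(a)` or `a^j f(a)`), so `p^k ∣ det V * R`; `det V` is the Vandermonde determinant of `S` (block triangular matrix), prime to `p` because the elements of `S` are distinct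
and in `[0, p)`. (Alternative: modulo `p`, `∏_{a ∈ S} (X - a)` divides both, so the rank of the Sylvester matrix mod `p` is at most `m + n - k`.)
-/

open Polynomial Finset

namespace Pool.Agent.BDT

/-- the `l¹` norm of the coefficients -/
noncomputable def l1 (f : ℤ[X]) : ℝ := ∑ i ∈ range (f.natDegree + 1), |(f.coeff i : ℝ)|

section sylv

variable {R : Type*} [CommRing R]

private theorem sum_shift (N j n : ℕ) (hjn : j + n < N) (a : ℕ → R) (z : R) :
    ∑ i ∈ Finset.range N, z ^ i * (if i ∈ Set.Icc j (j + n) then a (i - j) else 0) =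
      z ^ j * ∑ k ∈ Finset.range (n + 1), a k * z ^ k := by
  have h1 : ∑ i ∈ Finset.range N, z ^ i * (if i ∈ Set.Icc j (j + n) then a (i - j) else 0) =
      ∑ i ∈ Finset.Ico j (j + n + 1), z ^ i * a (i - j) := by
    rw [← Finset.sum_subset (s₁ := Finset.Ico j (j + n + 1)) (s₂ := Finset.range N)]
    · refine Finset.sum_congr rfl fun i hi => ?_
      rw [Finset.mem_Ico] at hi
      rw [if_pos (Set.mem_Icc.2 ⟨hi.1, by omega⟩)]
    · intro i hi
      rw [Finset.mem_Ico] at hi
      rw [Finset.mem_range]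
      omega
    · intro i _ hi
      rw [Finset.mem_Ico] at hi
      rw [if_neg, mul_zero]
      intro h
      rw [Set.mem_Icc] at h
      exact hi ⟨h.1, by omega⟩
  rw [h1, Finset.sum_Ico_eq_sum_range, Finset.mul_sum]
  have h2 : j + n + 1 - j = n + 1 := by omega
  rw [h2]
  refine Finset.sum_congr rfl fun k _ => ?_
  rw [Nat.add_sub_cancel_left, pow_add]
  ring

/-- the row vector of powers times the Sylvester matrix -/
private theorem vecMul_syl (F G : R[X]) (m n : ℕ) (hF : F.natDegree ≤ m) (hG : G.natDegree ≤ n)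
    (z : R) (j : Fin (m + n)) :
    ∑ i : Fin (m + n), z ^ (i : ℕ) * sylvester F G m n i j =
      Fin.addCases (fun j₁ : Fin m => z ^ (j₁ : ℕ) * G.eval z)
        (fun j₁ : Fin n => z ^ (j₁ : ℕ) * F.eval z) j := by
  induction j using Fin.addCases with
  | left j =>
    rw [Fin.addCases_left]
    have h1 : ∀ i : Fin (m + n), z ^ (i : ℕ) * sylvester F G m n i (Fin.castAdd n j) =
        (fun i : ℕ => z ^ i * (if i ∈ Set.Icc (j : ℕ) (j + n) then G.coeff (i - j) else 0)) i := by
      intro i
      rw [sylvester, Matrix.of_apply, Fin.addCases_left]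
    rw [Finset.sum_congr rfl (fun i _ => h1 i), Fin.sum_univ_eq_sum_range
      (fun i : ℕ => z ^ i * (if i ∈ Set.Icc (j : ℕ) (j + n) then G.coeff (i - j) else 0)),
      sum_shift (m + n) j n (by omega), eval_eq_sum_range' (Nat.lt_succ_of_le hG)]
  | right j =>
    rw [Fin.addCases_right]
    have h1 : ∀ i : Fin (m + n), z ^ (i : ℕ) * sylvester F G m n i (Fin.natAdd m j) =
        (fun i : ℕ => z ^ i * (if i ∈ Set.Icc (j : ℕ) (j + m) then F.coeff (i - j) else 0)) i := by
      intro i
      rw [sylvester, Matrix.of_apply, Fin.addCases_right]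
    rw [Finset.sum_congr rfl (fun i _ => h1 i), Fin.sum_univ_eq_sum_range
      (fun i : ℕ => z ^ i * (if i ∈ Set.Icc (j : ℕ) (j + m) then F.coeff (i - j) else 0)),
      sum_shift (m + n) j m (by omega), eval_eq_sum_range' (Nat.lt_succ_of_le hF)]

end sylv

/-- a determinant is at most the product of the column sums -/
private theorem det_le_cols {N : ℕ} (A : Matrix (Fin N) (Fin N) ℤ) :
    |A.det| ≤ ∏ j, ∑ i, |A i j| := by
  rw [Matrix.det_apply]
  refine (Finset.abs_sum_le_sum_abs _ _).trans ?_
  have h1 : ∀ σ ∈ (Finset.univ : Finset (Equiv.Perm (Fin N))),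
      |Equiv.Perm.sign σ • ∏ i, A (σ i) i| = ∏ i, |A (σ i) i| := by
    intro σ _
    rw [Units.smul_def, smul_eq_mul, abs_mul, Finset.abs_prod]
    have : |((Equiv.Perm.sign σ : ℤˣ) : ℤ)| = 1 := by
      rcases Int.units_eq_one_or (Equiv.Perm.sign σ) with h | h <;> simp [h]
    rw [this, one_mul]
  rw [Finset.sum_congr rfl h1, Finset.prod_univ_sum, Fintype.piFinset_univ]
  have h2 : ∑ σ : Equiv.Perm (Fin N), ∏ i, |A (σ i) i| =
      ∑ x ∈ (Finset.univ : Finset (Equiv.Perm (Fin N))).image
        (fun σ : Equiv.Perm (Fin N) => (σ : Fin N → Fin N)), ∏ i, |A (x i) i| := by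
    rw [Finset.sum_image]
    intro σ _ τ _ h
    exact Equiv.coe_fn_injective h
  rw [h2]
  exact Finset.sum_le_sum_of_subset_of_nonneg (Finset.subset_univ _) fun x _ _ =>
    Finset.prod_nonneg fun i _ => abs_nonneg _

/-- the sum of the absolute values of the coefficients -/
private def L (f : ℤ[X]) : ℤ := ∑ i ∈ range (f.natDegree + 1), |f.coeff i|

private theorem L_cast (f : ℤ[X]) : ((L f : ℤ) : ℝ) = l1 f := by
  unfold L l1
  push_cast
  rfl

private theorem one_le_L {f : ℤ[X]} (hf : f ≠ 0) : 1 ≤ L f := by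
  have h1 : 1 ≤ |f.coeff f.natDegree| := Int.one_le_abs (by
    rw [coeff_natDegree]; exact leadingCoeff_ne_zero.2 hf)
  exact h1.trans (Finset.single_le_sum (f := fun i => |f.coeff i|) (fun i _ => abs_nonneg _)
    (Finset.self_mem_range_succ _))

private theorem res_le (f g : ℤ[X]) :
    |resultant f g| ≤ L f ^ g.natDegree * L g ^ f.natDegree := by
  refine (det_le_cols _).trans (le_of_eq ?_)
  rw [Fin.prod_univ_add]
  have e1 : ∀ j : Fin f.natDegree, ∑ i, |sylvester f g f.natDegree g.natDegree i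
      (Fin.castAdd g.natDegree j)| = L g := fun j => by
    have h1 : ∀ i : Fin (f.natDegree + g.natDegree),
        |sylvester f g f.natDegree g.natDegree i (Fin.castAdd g.natDegree j)| =
        (fun i : ℕ => (1 : ℤ) ^ i * (if i ∈ Set.Icc (j : ℕ) (j + g.natDegree) then
          (fun k => |g.coeff k|) (i - j) else 0)) i := by
      intro i
      rw [sylvester, Matrix.of_apply, Fin.addCases_left]
      simp only [one_pow, one_mul]
      split_ifs
      · rfl
      · exact abs_zero
    rw [Finset.sum_congr rfl (fun i _ => h1 i), Fin.sum_univ_eq_sum_range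
      (fun i : ℕ => (1 : ℤ) ^ i * (if i ∈ Set.Icc (j : ℕ) (j + g.natDegree) then
          (fun k => |g.coeff k|) (i - j) else 0)), sum_shift (f.natDegree + g.natDegree) j
      g.natDegree (by omega) (fun k => |g.coeff k|) 1]
    simp only [one_pow, one_mul, mul_one]
    rfl
  have e2 : ∀ j : Fin g.natDegree, ∑ i, |sylvester f g f.natDegree g.natDegree i
      (Fin.natAdd f.natDegree j)| = L f := fun j => by
    have h1 : ∀ i : Fin (f.natDegree + g.natDegree),
        |sylvester f g f.natDegree g.natDegree i (Fin.natAdd f.natDegree j)| =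
        (fun i : ℕ => (1 : ℤ) ^ i * (if i ∈ Set.Icc (j : ℕ) (j + f.natDegree) then
          (fun k => |f.coeff k|) (i - j) else 0)) i := by
      intro i
      rw [sylvester, Matrix.of_apply, Fin.addCases_right]
      simp only [one_pow, one_mul]
      split_ifs
      · rfl
      · exact abs_zero
    rw [Finset.sum_congr rfl (fun i _ => h1 i), Fin.sum_univ_eq_sum_range
      (fun i : ℕ => (1 : ℤ) ^ i * (if i ∈ Set.Icc (j : ℕ) (j + f.natDegree) then
          (fun k => |f.coeff k|) (i - j) else 0)), sum_shift (f.natDegree + g.natDegree) j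
      f.natDegree (by omega) (fun k => |f.coeff k|) 1]
    simp only [one_pow, one_mul, mul_one]
    rfl
  rw [Finset.prod_congr rfl (fun j _ => e1 j), Finset.prod_congr rfl (fun j _ => e2 j),
    Finset.prod_const, Finset.prod_const, Finset.card_univ, Finset.card_univ, Fintype.card_fin,
    Fintype.card_fin]
  ring

private theorem res_ne (f g : ℤ[X]) (hf : Irreducible (f.map (Int.castRingHom ℚ))) (hg : g ≠ 0)
    (hdeg : g.natDegree < f.natDegree) : resultant f g ≠ 0 := by
  have hinj : Function.Injective (Int.castRingHom ℚ) := RingHom.injective_int _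
  have hf1 : (f.map (Int.castRingHom ℚ)).natDegree = f.natDegree :=
    natDegree_map_eq_of_injective hinj f
  have hg1 : (g.map (Int.castRingHom ℚ)).natDegree = g.natDegree :=
    natDegree_map_eq_of_injective hinj g
  have hg0 : g.map (Int.castRingHom ℚ) ≠ 0 := (Polynomial.map_ne_zero_iff hinj).2 hg
  have hco : IsCoprime (f.map (Int.castRingHom ℚ)) (g.map (Int.castRingHom ℚ)) := by
    refine (Irreducible.coprime_iff_not_dvd hf).2 fun hd => ?_
    have h := natDegree_le_of_dvd hd hg0
    omega
  have h1 := resultant_ne_zero _ _ hco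
  rw [hf1, hg1, resultant_map_map] at h1
  intro h
  rw [h, map_zero] at h1
  exact h1 rfl

private theorem Vdet {N k p : ℕ} [Fact p.Prime] (hk : k ≤ N) (a : Fin k → ℕ)
    (ha : Function.Injective fun i => ((a i : ℕ) : ZMod p)) (V : Matrix (Fin N) (Fin N) ℤ)
    (hV : ∀ i j : Fin N, V i j = if h : (i : ℕ) < k then ((a ⟨i, h⟩ : ℕ) : ℤ) ^ (j : ℕ) else
      if i = j then 1 else 0) : ¬ (p : ℤ) ∣ V.det := by
  classical
  intro hdvd
  have h1 : (V.map (Int.castRingHom (ZMod p))).det = 0 := by
    rw [← RingHom.mapMatrix_apply, ← RingHom.map_det, eq_intCast]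
    exact (ZMod.intCast_zmod_eq_zero_iff_dvd _ _).2 hdvd
  obtain ⟨x, hx0, hx⟩ := Matrix.exists_mulVec_eq_zero_iff.2 h1
  apply hx0
  have hxi : ∀ i : Fin N, ∑ j, ((V i j : ℤ) : ZMod p) * x j = 0 := fun i => by
    have h2 := congrFun hx i
    simpa [Matrix.mulVec, dotProduct] using h2
  have hlarge : ∀ i : Fin N, k ≤ (i : ℕ) → x i = 0 := fun i hi => by
    have h2 := hxi i
    have h3 : ∀ j : Fin N, ((V i j : ℤ) : ZMod p) * x j = if i = j then x j else 0 := fun j => by
      rw [hV, dif_neg (not_lt.2 hi)]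
      split_ifs
      · rw [Int.cast_one, one_mul]
      · rw [Int.cast_zero, zero_mul]
    rw [Finset.sum_congr rfl fun j _ => h3 j, Finset.sum_ite_eq, if_pos (Finset.mem_univ _)] at h2
    exact h2
  let y : ℕ → ZMod p := fun j => if h : j < N then x ⟨j, h⟩ else 0
  let P : (ZMod p)[X] := ∑ j ∈ range N, C (y j) * X ^ j
  have hcoef : ∀ j, P.coeff j = y j := fun j => by
    simp only [P, finsetSum_coeff, coeff_C_mul, coeff_X_pow]
    by_cases h : j < N
    · rw [Finset.sum_eq_single j]
      · rw [if_pos rfl, mul_one]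
      · intro b _ hb
        rw [if_neg (Ne.symm hb), mul_zero]
      · intro hj
        exact absurd (Finset.mem_range.2 h) hj
    · rw [Finset.sum_eq_zero]
      · simp only [y, dif_neg h]
      · intro b hb
        have := Finset.mem_range.1 hb
        rw [if_neg (by omega), mul_zero]
  have hdegP : P.degree < ((Finset.univ : Finset (Fin k)).image
      (fun i => ((a i : ℕ) : ZMod p))).card := by
    rw [Finset.card_image_of_injective _ ha, Finset.card_univ, Fintype.card_fin,
      degree_lt_iff_coeff_zero]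
    intro j hj
    rw [hcoef]
    by_cases h : j < N
    · simp only [y, dif_pos h]
      exact hlarge ⟨j, h⟩ hj
    · simp only [y, dif_neg h]
  have hP : P = 0 := by
    refine eq_zero_of_degree_lt_of_eval_finset_eq_zero _ hdegP ?_
    intro z hz
    obtain ⟨i, _, rfl⟩ := Finset.mem_image.1 hz
    have h2 := hxi ⟨i, lt_of_lt_of_le i.2 hk⟩
    have h3 : ∀ j : Fin N, ((V ⟨i, lt_of_lt_of_le i.2 hk⟩ j : ℤ) : ZMod p) * x j =
        (fun j : ℕ => y j * ((a i : ℕ) : ZMod p) ^ j) j := fun j => by
      rw [hV, dif_pos i.2]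
      simp only [y, dif_pos j.2]
      push_cast
      rw [mul_comm]
    rw [Finset.sum_congr rfl fun j _ => h3 j, Fin.sum_univ_eq_sum_range
      (fun j : ℕ => y j * ((a i : ℕ) : ZMod p) ^ j)] at h2
    rw [← h2]
    simp only [P, eval_finsetSum, eval_mul, eval_C, eval_pow, eval_X]
  funext j
  have h2 := hcoef j
  rw [hP, coeff_zero] at h2
  simp only [y, dif_pos j.2] at h2
  exact h2.symm

private theorem res_dvd (f g : ℤ[X]) (p : ℕ) (hp : p.Prime) (hlc : ¬ (p : ℤ) ∣ f.leadingCoeff)
    (S : Finset ℕ)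
    (hS : ∀ a ∈ S, a < p ∧ (p : ℤ) ∣ f.eval (a : ℤ) ∧ (p : ℤ) ∣ g.eval (a : ℤ)) :
    (p : ℤ) ^ S.card ∣ resultant f g := by
  classical
  have : Fact p.Prime := ⟨hp⟩
  set m := f.natDegree with hm
  set n := g.natDegree with hn
  have hcast : Set.InjOn (fun a : ℕ => (a : ZMod p)) (S : Set ℕ) := fun a ha b hb hab => by
    have h1 : a ≡ b [MOD p] := (ZMod.natCast_eq_natCast_iff a b p).1 hab
    exact Nat.ModEq.eq_of_lt_of_lt h1 (hS a ha).1 (hS b hb).1
  have hk : S.card ≤ m + n := by
    have hf0 : f.map (Int.castRingHom (ZMod p)) ≠ 0 := fun h => by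
      have h1 : (f.map (Int.castRingHom (ZMod p))).coeff f.natDegree = 0 := by rw [h, coeff_zero]
      rw [coeff_map, coeff_natDegree, eq_intCast] at h1
      exact hlc ((ZMod.intCast_zmod_eq_zero_iff_dvd _ _).1 h1)
    have h1 : (S.image (fun a : ℕ => (a : ZMod p))).card ≤
        (f.map (Int.castRingHom (ZMod p))).natDegree := by
      refine card_le_degree_of_subset_roots fun z hz => ?_
      obtain ⟨a, ha, rfl⟩ := Finset.mem_image.1 (show z ∈ S.image (fun a : ℕ => (a : ZMod p)) from hz)
      rw [mem_roots hf0, IsRoot.def]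
      have h2 : ((f.eval (a : ℤ) : ℤ) : ZMod p) = 0 :=
        (ZMod.intCast_zmod_eq_zero_iff_dvd _ _).2 (hS a ha).2.1
      have h3 : (f.map (Int.castRingHom (ZMod p))).eval ((Int.castRingHom (ZMod p)) (a : ℤ)) =
          (Int.castRingHom (ZMod p)) (f.eval (a : ℤ)) := eval_map_apply _ _
      rw [eq_intCast, eq_intCast, Int.cast_natCast] at h3
      rw [h3, h2]
    rw [Finset.card_image_of_injOn hcast] at h1
    have h2 : (f.map (Int.castRingHom (ZMod p))).natDegree ≤ m := natDegree_map_le
    omega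
  set k := S.card with hkdef
  let a : Fin k → ℕ := fun i => S.orderEmbOfFin rfl i
  have haS : ∀ i, a i ∈ S := fun i => Finset.orderEmbOfFin_mem S rfl i
  have hainj : Function.Injective fun i => ((a i : ℕ) : ZMod p) := fun i j hij =>
    (S.orderEmbOfFin rfl).injective (hcast (haS i) (haS j) hij)
  let V : Matrix (Fin (m + n)) (Fin (m + n)) ℤ := Matrix.of fun i j =>
    if h : (i : ℕ) < k then ((a ⟨i, h⟩ : ℕ) : ℤ) ^ (j : ℕ) else if i = j then 1 else 0
  have hVdet := Vdet hk a hainj V fun i j => rfl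
  let M := sylvester f g m n
  have hrow : ∀ i j : Fin (m + n), (i : ℕ) < k → (p : ℤ) ∣ (V * M) i j := fun i j hi => by
    rw [Matrix.mul_apply]
    have h1 : ∀ l : Fin (m + n), V i l * M l j = ((a ⟨i, hi⟩ : ℕ) : ℤ) ^ (l : ℕ) *
        sylvester f g m n l j := fun l => by
      have h2 : V i l = ((a ⟨i, hi⟩ : ℕ) : ℤ) ^ (l : ℕ) := by
        simp only [V, Matrix.of_apply, dif_pos hi]
      rw [h2]
    rw [Finset.sum_congr rfl fun l _ => h1 l, vecMul_syl f g m n le_rfl le_rfl]
    induction j using Fin.addCases with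
    | left j =>
      rw [Fin.addCases_left]
      exact Dvd.dvd.mul_left (hS _ (haS _)).2.2 _
    | right j =>
      rw [Fin.addCases_right]
      exact Dvd.dvd.mul_left (hS _ (haS _)).2.1 _
  let d : Fin (m + n) → ℤ := fun i => if (i : ℕ) < k then (p : ℤ) else 1
  let M' : Matrix (Fin (m + n)) (Fin (m + n)) ℤ := Matrix.of fun i j =>
    if (i : ℕ) < k then (V * M) i j / (p : ℤ) else (V * M) i j
  have hVM : V * M = Matrix.diagonal d * M' := by
    ext i j
    rw [Matrix.diagonal_mul]
    simp only [d, M', Matrix.of_apply]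
    split_ifs with h
    · rw [Int.mul_ediv_cancel' (hrow i j h)]
    · rw [one_mul]
  have hd : ∏ i, d i = (p : ℤ) ^ k := by
    simp only [d]
    rw [Fin.prod_univ_eq_prod_range (fun i : ℕ => if i < k then (p : ℤ) else 1) (m + n),
      ← Finset.prod_filter, Finset.prod_const]
    congr 1
    have h2 : (range (m + n)).filter (fun i => i < k) = range k := by
      ext i
      rw [Finset.mem_filter, Finset.mem_range, Finset.mem_range]
      omega
    rw [h2, Finset.card_range]
  have hdet : V.det * M.det = (p : ℤ) ^ k * M'.det := by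
    rw [← Matrix.det_mul, hVM, Matrix.det_mul, Matrix.det_diagonal, hd]
  have hdvd : (p : ℤ) ^ k ∣ V.det * M.det := ⟨_, hdet⟩
  exact (Nat.prime_iff_prime_int.1 hp).pow_dvd_of_dvd_mul_left k hVdet hdvd

theorem res_bound (f g : ℤ[X]) (hf : Irreducible (f.map (Int.castRingHom ℚ))) (hg : g ≠ 0)
    (hdeg : g.natDegree < f.natDegree) :
    ∃ R : ℤ, R ≠ 0 ∧ |(R : ℝ)| ≤ l1 f ^ (f.natDegree - 1) * l1 g ^ f.natDegree ∧
      ∀ p : ℕ, p.Prime → ¬ (p : ℤ) ∣ f.leadingCoeff → ∀ S : Finset ℕ,
        (∀ a ∈ S, a < p ∧ (p : ℤ) ∣ f.eval (a : ℤ) ∧ (p : ℤ) ∣ g.eval (a : ℤ)) →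
          (p : ℤ) ^ S.card ∣ R := by
  refine ⟨resultant f g, res_ne f g hf hg hdeg, ?_, fun p hp hlc S hS => res_dvd f g p hp hlc S hS⟩
  have hf0 : f ≠ 0 := fun h => by
    rw [h, Polynomial.map_zero] at hf
    exact hf.ne_zero rfl
  have h1 : |resultant f g| ≤ L f ^ (f.natDegree - 1) * L g ^ f.natDegree := by
    refine (res_le f g).trans (mul_le_mul_of_nonneg_right ?_ ?_)
    · exact pow_le_pow_right₀ (one_le_L hf0) (by omega)
    · exact pow_nonneg (zero_le_one.trans (one_le_L hg)) _
  have h2 : ((|resultant f g| : ℤ) : ℝ) ≤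
      ((L f ^ (f.natDegree - 1) * L g ^ f.natDegree : ℤ) : ℝ) := by exact_mod_cast h1
  rw [Int.cast_abs, Int.cast_mul, Int.cast_pow, Int.cast_pow, L_cast, L_cast] at h2
  exact h2

end Pool.Agent.BDT
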