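import Pool.Agent.BDT.FPow

/-!
# BDT-Siev (1.4h): the sieve bound for the rough part

`Helper24.residue_sieve` with `A = 0`, `Y = y^3`, `B` = the set, `Ω p = ∅` for `p > y`; for `p ≤ y` the set `Ω p` consists of `0` and, if `p ≥ 5`,
of the residues `r` with `p ∣ c s r + 1` for some `c ∈ C`. So `|Ω p| ≤ 3 < p` for `p ≥ 5` and `|Ω p| = 1 < p` for
`p = 2, 3`. With `k = card C`, `h(p) = |Ω p|/(p - |Ω p|)`, `g(p) = (1 + 1/p)^(k+1) - 1` for `p ≤ y`, `0` for `p > y`:
* `p ≥ 5`, `p ≤ y`, `p ∤ s * tt C`: `|Ω p| = k + 1` (the residues are distinct since `p ∤ c - c'`), `g p ≤ (k+1)/(p-1-k) = h p` (`k ≤ 2`, `p ≥ 5`);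
* all other `p ≤ y`: `h p ≥ 1/p`, so `g p ≤ 3/p + 3/p² + 1/p³ ≤ h p + 4/p`.
`Helper24.Fsum_mono`, `Fsum_add_le` with the set `{2, 3} ∪ (s * tt C).primeFactors`, `u p = 4/p`, and `fsum_pow`.
-/

open Finset Pool.Agent.Helper24

namespace Pool.Agent.BDT

open Classical in
/-- the forbidden residues -/
private noncomputable def Om0 (y s : ℕ) (C : Finset ℕ) (p : ℕ) : Finset ℕ :=
  if p ≤ y then (range p).filter (fun r => r = 0 ∨ (5 ≤ p ∧ ∃ c ∈ C, p ∣ c * (s * r) + 1)) else ∅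

private theorem Om0_gt {y s : ℕ} {C : Finset ℕ} {p : ℕ} (h : ¬ p ≤ y) : Om0 y s C p = ∅ := by
  unfold Om0
  rw [if_neg h]

private theorem mem_Om0 {y s : ℕ} {C : Finset ℕ} {p r : ℕ} (h : p ≤ y) :
    r ∈ Om0 y s C p ↔ r < p ∧ (r = 0 ∨ (5 ≤ p ∧ ∃ c ∈ C, p ∣ c * (s * r) + 1)) := by
  unfold Om0
  rw [if_pos h, mem_filter, mem_range]

/-- at most one residue for each `c` -/
private theorem res_unique {p c s r r' : ℕ} (hp : p.Prime) (hr : r < p) (hr' : r' < p)
    (h : p ∣ c * (s * r) + 1) (h' : p ∣ c * (s * r') + 1) : r = r' := by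
  have hcs : ¬ p ∣ c * s := by
    intro hd
    have h1 : p ∣ c * (s * r) := by
      rw [← mul_assoc]
      exact hd.mul_right r
    have h2 := (Nat.dvd_add_right h1).1 h
    exact hp.one_lt.ne' (Nat.dvd_one.1 h2)
  have h1 : (p : ℤ) ∣ ((c * s : ℕ) : ℤ) * ((r : ℤ) - r') := by
    have h2 : (p : ℤ) ∣ ((c * (s * r) + 1 : ℕ) : ℤ) := by exact_mod_cast h
    have h3 : (p : ℤ) ∣ ((c * (s * r') + 1 : ℕ) : ℤ) := by exact_mod_cast h'
    have h4 := dvd_sub h2 h3
    have h5 : ((c * (s * r) + 1 : ℕ) : ℤ) - ((c * (s * r') + 1 : ℕ) : ℤ) =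
        ((c * s : ℕ) : ℤ) * ((r : ℤ) - r') := by
      push_cast
      ring
    rwa [h5] at h4
  have hpi : Prime (p : ℤ) := Nat.prime_iff_prime_int.1 hp
  rcases hpi.dvd_or_dvd h1 with h2 | h2
  · exact absurd (by exact_mod_cast h2) hcs
  · have h3 : (r : ℤ) - r' = 0 := by
      apply Int.eq_zero_of_abs_lt_dvd h2
      rw [abs_lt]
      constructor <;> omega
    omega

private theorem exists_res {p c s : ℕ} (hp : p.Prime) (hcs : ¬ p ∣ c * s) :
    ∃ r, r < p ∧ p ∣ c * (s * r) + 1 := by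
  have := Fact.mk hp
  have h0 : ((c * s : ℕ) : ZMod p) ≠ 0 := by
    rw [Ne, ZMod.natCast_eq_zero_iff]
    exact hcs
  refine ⟨(-((c * s : ℕ) : ZMod p)⁻¹).val, ZMod.val_lt _, ?_⟩
  rw [← ZMod.natCast_eq_zero_iff]
  push_cast
  rw [ZMod.natCast_val, ZMod.cast_id, ← mul_assoc]
  have h1 : (c : ZMod p) * s ≠ 0 := by
    push_cast at h0
    exact h0
  rw [mul_neg, mul_inv_cancel₀ h1]
  ring

private theorem card_le {y s : ℕ} {C : Finset ℕ} {p : ℕ} (hp : p.Prime) (h : p ≤ y) :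
    (Om0 y s C p).card ≤ C.card + 1 := by
  classical
  have h1 : Om0 y s C p ⊆ insert 0 (C.biUnion fun c =>
      (range p).filter (fun r => p ∣ c * (s * r) + 1)) := by
    intro r hr
    obtain ⟨h2, h3⟩ := (mem_Om0 h).1 hr
    rcases h3 with h3 | ⟨-, c, hc, h4⟩
    · exact mem_insert.2 (Or.inl h3)
    · exact mem_insert.2 (Or.inr (mem_biUnion.2 ⟨c, hc, mem_filter.2 ⟨mem_range.2 h2, h4⟩⟩))
  refine (card_le_card h1).trans ((card_insert_le _ _).trans (Nat.add_le_add_right ?_ 1))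
  have h2 : ∀ c ∈ C, ((range p).filter (fun r => p ∣ c * (s * r) + 1)).card ≤ 1 := by
    intro c _
    rw [card_le_one]
    intro a ha b hb
    rw [mem_filter, mem_range] at ha hb
    exact res_unique hp ha.1 hb.1 ha.2 hb.2
  calc _ ≤ C.card * 1 := card_biUnion_le_card_mul _ _ _ h2
    _ = C.card := mul_one _

private theorem zero_mem {y s : ℕ} {C : Finset ℕ} {p : ℕ} (hp : p.Prime) (h : p ≤ y) :
    0 ∈ Om0 y s C p := (mem_Om0 h).2 ⟨hp.pos, Or.inl rfl⟩

private theorem one_le_card {y s : ℕ} {C : Finset ℕ} {p : ℕ} (hp : p.Prime) (h : p ≤ y) :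
    1 ≤ (Om0 y s C p).card := card_pos.2 ⟨0, zero_mem hp h⟩

private theorem tt_ne {C : Finset ℕ} (hC : ∀ c ∈ C, 1 ≤ c) : tt C ≠ 0 := by
  unfold tt
  refine mul_ne_zero (prod_ne_zero_iff.2 fun c hc => ?_) (prod_ne_zero_iff.2 fun x hx => ?_)
  · have := hC c hc
    omega
  · have := (mem_offDiag.1 hx).2.2
    omega

private theorem le_card {y s : ℕ} {C : Finset ℕ} {p : ℕ} (hp : p.Prime) (h : p ≤ y) (h5 : 5 ≤ p)
    (hd : ¬ p ∣ s * tt C) : C.card + 1 ≤ (Om0 y s C p).card := by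
  classical
  have hs : ¬ p ∣ s := fun h1 => hd (h1.mul_right _)
  have ht : ¬ p ∣ tt C := fun h1 => hd (h1.mul_left _)
  have hc : ∀ c ∈ C, ¬ p ∣ c := by
    intro c hc h1
    apply ht
    unfold tt
    exact (h1.trans (dvd_prod_of_mem _ hc)).mul_right _
  have hcs : ∀ c ∈ C, ¬ p ∣ c * s := fun c hcC h1 =>
    ((Nat.Prime.dvd_mul hp).1 h1).elim (hc c hcC) hs
  choose! r hr1 hr2 using fun c (hcC : c ∈ C) => exists_res hp (hcs c hcC)
  have hinj : Set.InjOn r (C : Set ℕ) := by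
    intro c hcC c' hcC' he
    by_contra hne
    have h1 : (p : ℤ) ∣ ((c : ℤ) - c') * ((s * r c : ℕ) : ℤ) := by
      have h2 : (p : ℤ) ∣ ((c * (s * r c) + 1 : ℕ) : ℤ) := by exact_mod_cast hr2 c hcC
      have h3 : (p : ℤ) ∣ ((c' * (s * r c) + 1 : ℕ) : ℤ) := by
        rw [he]
        exact_mod_cast hr2 c' hcC'
      have h4 := dvd_sub h2 h3
      have h5 : ((c * (s * r c) + 1 : ℕ) : ℤ) - ((c' * (s * r c) + 1 : ℕ) : ℤ) =
          ((c : ℤ) - c') * ((s * r c : ℕ) : ℤ) := by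
        push_cast
        ring
      rwa [h5] at h4
    have hpi : Prime (p : ℤ) := Nat.prime_iff_prime_int.1 hp
    rcases hpi.dvd_or_dvd h1 with h2 | h2
    · apply ht
      have h3 : p ∣ (c - c') + (c' - c) := by
        have h4 : ((p : ℕ) : ℤ) ∣ (((c - c') + (c' - c) : ℕ) : ℤ) := by
          rcases le_total c c' with hle | hle
          · have h5 : (((c - c') + (c' - c) : ℕ) : ℤ) = -((c : ℤ) - c') := by omega
            rw [h5]
            exact (dvd_neg).2 h2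
          · have h5 : (((c - c') + (c' - c) : ℕ) : ℤ) = (c : ℤ) - c' := by omega
            rw [h5]
            exact h2
        exact_mod_cast h4
      unfold tt
      exact (h3.trans (dvd_prod_of_mem (fun x : ℕ × ℕ => (x.1 - x.2) + (x.2 - x.1))
        (mem_offDiag.2 ⟨hcC, hcC', hne⟩ : (c, c') ∈ C.offDiag))).mul_left _
    · have h3 : p ∣ s * r c := by exact_mod_cast h2
      have h4 := (Nat.dvd_add_right (h3.mul_left c)).1 (hr2 c hcC)
      exact hp.one_lt.ne' (Nat.dvd_one.1 h4)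
  have h0 : 0 ∉ C.image r := by
    intro h1
    obtain ⟨c, hcC, he⟩ := mem_image.1 h1
    have h2 := hr2 c hcC
    rw [he, mul_zero, mul_zero, zero_add] at h2
    exact hp.one_lt.ne' (Nat.dvd_one.1 h2)
  have hsub : insert 0 (C.image r) ⊆ Om0 y s C p := by
    intro x hx
    rcases mem_insert.1 hx with rfl | hx
    · exact zero_mem hp h
    · obtain ⟨c, hcC, rfl⟩ := mem_image.1 hx
      exact (mem_Om0 h).2 ⟨hr1 c hcC, Or.inr ⟨h5, c, hcC, hr2 c hcC⟩⟩
  have h1 := card_le_card hsub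
  rw [card_insert_of_notMem h0, card_image_of_injOn hinj] at h1
  exact h1

private theorem card_small {y s : ℕ} {C : Finset ℕ} {p : ℕ} (h : p ≤ y) (h5 : ¬ 5 ≤ p) :
    (Om0 y s C p).card ≤ 1 := by
  rw [card_le_one]
  intro a ha b hb
  rw [mem_Om0 h] at ha hb
  rcases ha.2 with h1 | h1
  · rcases hb.2 with h2 | h2
    · rw [h1, h2]
    · exact absurd h2.1 h5
  · exact absurd h1.1 h5

private theorem card_lt {y s : ℕ} {C : Finset ℕ} (hC : C.card ≤ 2) {p : ℕ} (hp : p.Prime) :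
    (Om0 y s C p).card < p := by
  by_cases h : p ≤ y
  · by_cases h5 : 5 ≤ p
    · have := card_le (s := s) (C := C) hp h
      omega
    · have := card_small (s := s) (C := C) h h5
      have := hp.two_le
      omega
  · rw [Om0_gt h, card_empty]
    exact hp.pos

/-- the inequality for the good primes -/
private theorem good_ineq {k : ℕ} (hk : k ≤ 2) {p : ℝ} (hp : 5 ≤ p) :
    (1 + 1 / p) ^ (k + 1) - 1 ≤ ((k + 1 : ℕ) : ℝ) / (p - ((k + 1 : ℕ) : ℝ)) := by
  have hp0 : (0 : ℝ) < p := by linarith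
  have hk' : k = 0 ∨ k = 1 ∨ k = 2 := by omega
  rcases hk' with rfl | rfl | rfl
  · have h1 : (0 : ℝ) < p - ((0 + 1 : ℕ) : ℝ) := by push_cast; linarith
    rw [le_div_iff₀ h1]
    have e : ((1 + 1 / p) ^ (0 + 1) - 1) * (p - ((0 + 1 : ℕ) : ℝ)) = 1 - 1 / p := by
      push_cast
      field_simp
      ring
    rw [e]
    have : 0 < 1 / p := by positivity
    push_cast
    linarith
  · have h1 : (0 : ℝ) < p - ((1 + 1 : ℕ) : ℝ) := by push_cast; linarith
    rw [le_div_iff₀ h1]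
    have e : ((1 + 1 / p) ^ (1 + 1) - 1) * (p - ((1 + 1 : ℕ) : ℝ)) =
        2 - (3 * p + 2) / p ^ 2 := by
      push_cast
      field_simp
      ring
    rw [e]
    have : 0 ≤ (3 * p + 2) / p ^ 2 := by positivity
    push_cast
    linarith
  · have h1 : (0 : ℝ) < p - ((2 + 1 : ℕ) : ℝ) := by push_cast; linarith
    rw [le_div_iff₀ h1]
    have e : ((1 + 1 / p) ^ (2 + 1) - 1) * (p - ((2 + 1 : ℕ) : ℝ)) =
        3 - (6 * p ^ 2 + 8 * p + 3) / p ^ 3 := by
      push_cast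
      field_simp
      ring
    rw [e]
    have : 0 ≤ (6 * p ^ 2 + 8 * p + 3) / p ^ 3 := by positivity
    push_cast
    linarith

/-- the inequality for the bad primes -/
private theorem bad_ineq {k w : ℕ} (hk : k ≤ 2) {p : ℝ} (hp : 2 ≤ p) (hw : 1 ≤ w)
    (hwp : (w : ℝ) < p) :
    (1 + 1 / p) ^ (k + 1) - 1 ≤ (w : ℝ) / (p - w) + 4 / p := by
  have hp0 : (0 : ℝ) < p := by linarith
  have hw' : (1 : ℝ) ≤ w := by exact_mod_cast hw
  have h1 : 1 / p ≤ (w : ℝ) / (p - w) := by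
    rw [div_le_div_iff₀ hp0 (by linarith)]
    nlinarith
  have h2 : (1 + 1 / p) ^ (k + 1) ≤ (1 + 1 / p) ^ 3 := by
    have h3 : (1 : ℝ) ≤ 1 + 1 / p := by
      have : 0 < 1 / p := by positivity
      linarith
    exact pow_le_pow_right₀ h3 (by omega)
  have h4 : (1 + 1 / p) ^ 3 - 1 ≤ 5 / p := by
    rw [le_div_iff₀ hp0]
    have e : ((1 + 1 / p) ^ 3 - 1) * p = 3 + (3 * p + 1) / p ^ 2 := by
      field_simp
      ring
    rw [e]
    have h5 : (3 * p + 1) / p ^ 2 ≤ 2 := by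
      rw [div_le_iff₀ (by positivity)]
      nlinarith
    linarith
  have h6 : 5 / p = 1 / p + 4 / p := by ring
  linarith

/-- `g` -/
private noncomputable def gg (y k p : ℕ) : ℝ :=
  if p ≤ y then (1 + 1 / (p : ℝ)) ^ (k + 1) - 1 else 0

private theorem gg_nonneg (y k p : ℕ) : 0 ≤ gg y k p := by
  unfold gg
  split_ifs
  · have h1 : (1 : ℝ) ≤ 1 + 1 / (p : ℝ) := by
      have : (0 : ℝ) ≤ 1 / (p : ℝ) := by positivity
      linarith
    linarith [one_le_pow₀ h1 (n := k + 1)]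
  · exact le_rfl

/-- `h` -/
private noncomputable def hh (y s : ℕ) (C : Finset ℕ) (p : ℕ) : ℝ :=
  ((Om0 y s C p).card : ℝ) / ((p : ℝ) - (Om0 y s C p).card)

private theorem hh_nonneg {y s : ℕ} {C : Finset ℕ} (hC : C.card ≤ 2) {p : ℕ} (hp : p.Prime) :
    0 ≤ hh y s C p := by
  have h1 : ((Om0 y s C p).card : ℝ) < p := by exact_mod_cast card_lt hC hp
  unfold hh
  exact div_nonneg (Nat.cast_nonneg _) (by linarith)

private theorem gg_le {y s : ℕ} {C : Finset ℕ} (hC : C.card ≤ 2) {p : ℕ} (hp : p.Prime)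
    (hs : 1 ≤ s) (hC1 : ∀ c ∈ C, 1 ≤ c) :
    gg y C.card p ≤ hh y s C p +
      if p ∈ ({2, 3} : Finset ℕ) ∪ (s * tt C).primeFactors then 4 / (p : ℝ) else 0 := by
  by_cases h : p ≤ y
  · unfold gg
    rw [if_pos h]
    have hlt : ((Om0 y s C p).card : ℝ) < p := by exact_mod_cast card_lt hC hp
    split_ifs with hm
    · exact bad_ineq hC (by exact_mod_cast hp.two_le) (one_le_card hp h) hlt
    · rw [mem_union, not_or] at hm
      have h23 : p ≠ 2 ∧ p ≠ 3 := by
        constructor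
        · intro h1
          exact hm.1 (by simp [h1])
        · intro h1
          exact hm.1 (by simp [h1])
      have h5 : 5 ≤ p := by
        have h2 := hp.two_le
        by_contra hcon
        have h4 : p = 4 := by omega
        rw [h4] at hp
        exact absurd hp (by norm_num)
      have hd : ¬ p ∣ s * tt C := by
        intro h1
        exact hm.2 (Nat.mem_primeFactors.2 ⟨hp, h1, mul_ne_zero (by omega) (tt_ne hC1)⟩)
      have hcard : (Om0 y s C p).card = C.card + 1 := le_antisymm (card_le hp h) (le_card hp h h5 hd)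
      rw [add_zero]
      unfold hh
      rw [hcard]
      exact good_ineq hC (by exact_mod_cast h5)
  · unfold gg
    rw [if_neg h]
    have h1 := hh_nonneg (y := y) (s := s) hC hp
    split_ifs
    · have : (0 : ℝ) ≤ 4 / (p : ℝ) := by positivity
      linarith
    · linarith

theorem siev : ∃ K : ℝ, 0 < K ∧ ∀ y : ℕ, 3 ≤ y → ∀ C : Finset ℕ, C.card ≤ 2 → (∀ c ∈ C, 1 ≤ c) →
    ∀ s M : ℕ, 1 ≤ s →
      (((Icc 1 M).filter (fun b => rgh y b ∧ ok y C (s * b))).card : ℝ) ≤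
        K * M / (Real.log y) ^ (C.card + 1) * FF (s * tt C) + (y : ℝ) ^ 18 := by
  classical
  refine ⟨56, by norm_num, fun y hy C hC hC1 s M hs => ?_⟩
  set k : ℕ := C.card with hk
  have hy1 : 1 ≤ y := by omega
  have hY : 1 ≤ y ^ 3 := Nat.one_le_pow _ _ hy1
  have hsieve := residue_sieve (A := 0) (M := M) (Y := y ^ 3) (Ω := Om0 y s C) hY (by
    intro p hp _
    refine ⟨fun c hc => ?_, card_lt hC hp⟩
    by_cases h : p ≤ y
    · exact ((mem_Om0 h).1 hc).1
    · rw [Om0_gt h] at hc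
      exact absurd hc (notMem_empty c)) ((Icc 1 M).filter (fun b => rgh y b ∧ ok y C (s * b))) (by
    intro b hb
    have h1 := mem_Icc.1 (mem_filter.1 hb).1
    rw [mem_Ioc]
    omega) (by
    intro b hb p hp _ hmem
    obtain ⟨-, hr, hok⟩ := mem_filter.1 hb
    by_cases h : p ≤ y
    · rcases ((mem_Om0 h).1 hmem).2 with h1 | ⟨h5, c, hc, hd⟩
      · exact hr p hp h (Nat.dvd_of_mod_eq_zero h1)
      · refine hok c hc p hp h5 h ?_
        have e : c * (s * b) + 1 = c * (s * (b % p)) + 1 + p * (c * (s * (b / p))) := by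
          conv_lhs => rw [← Nat.mod_add_div b p]
          ring
        rw [e]
        exact dvd_add hd (dvd_mul_right _ _)
    · rw [Om0_gt h] at hmem
      exact absurd hmem (notMem_empty _))
  have hFs : ∑ l ∈ (Icc 1 (y ^ 3)).filter Squarefree, hterm (Om0 y s C) l =
      Fsum (y ^ 3) (hh y s C) := rfl
  rw [hFs] at hsieve
  have hFF1 := one_le_FF (s * tt C)
  have hlog : 0 < Real.log y := Real.log_pos (by
    have : (3 : ℝ) ≤ y := by exact_mod_cast hy
    linarith)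
  -- the chain of inequalities
  have hS : ∀ p ∈ ({2, 3} : Finset ℕ) ∪ (s * tt C).primeFactors, p.Prime := by
    intro p hp
    rcases mem_union.1 hp with h1 | h1
    · rcases mem_insert.1 h1 with rfl | h2
      · exact Nat.prime_two
      · rw [mem_singleton.1 h2]
        exact Nat.prime_three
    · exact Nat.prime_of_mem_primeFactors h1
  have e1 : (Real.log y) ^ (k + 1) ≤ 2 ^ (k + 1) * Fsum (y ^ (k + 1)) (gg y k) := by
    have := fsum_pow y (k + 1) hy1
    exact this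
  have e2 : Fsum (y ^ (k + 1)) (gg y k) ≤ Fsum (y ^ 3) (gg y k) := by
    unfold Fsum
    refine sum_le_sum_of_subset_of_nonneg ?_ fun l _ _ => prod_nonneg fun p _ => gg_nonneg y k p
    intro l hl
    rw [mem_sqf] at hl ⊢
    exact ⟨⟨hl.1.1, hl.1.2.trans (Nat.pow_le_pow_right hy1 (by omega))⟩, hl.2⟩
  have e3 : Fsum (y ^ 3) (gg y k) ≤ Fsum (y ^ 3) (fun p => hh y s C p +
      if p ∈ ({2, 3} : Finset ℕ) ∪ (s * tt C).primeFactors then 4 / (p : ℝ) else 0) :=
    Fsum_mono _ (fun p _ _ => gg_nonneg y k p) fun p hp _ => gg_le hC hp hs hC1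
  have e4 := Fsum_add_le (y ^ 3) (g := hh y s C) (fun p hp _ => hh_nonneg hC hp)
    (({2, 3} : Finset ℕ) ∪ (s * tt C).primeFactors) hS (fun p => 4 / (p : ℝ))
    (fun p _ => by positivity)
  have hFnn : 0 ≤ Fsum (y ^ 3) (hh y s C) := by
    unfold Fsum
    exact sum_nonneg fun l _ => prod_nonneg fun p hp =>
      hh_nonneg hC (Nat.prime_of_mem_primeFactors hp)
  have e5 : ∏ p ∈ ({2, 3} : Finset ℕ) ∪ (s * tt C).primeFactors, (1 + 4 / (p : ℝ)) ≤
      7 * FF (s * tt C) := by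
    have hge : ∀ T : Finset ℕ, (1 : ℝ) ≤ ∏ p ∈ T, (1 + 4 / (p : ℝ)) := by
      intro T
      refine Finset.prod_induction _ (fun x : ℝ => 1 ≤ x)
        (fun a b ha hb => one_le_mul_of_one_le_of_one_le ha hb) le_rfl fun p _ => ?_
      have : (0 : ℝ) ≤ 4 / (p : ℝ) := by positivity
      linarith
    have h1 := Finset.prod_union_inter (s₁ := ({2, 3} : Finset ℕ)) (s₂ := (s * tt C).primeFactors)
      (f := fun p : ℕ => 1 + 4 / (p : ℝ))
    have h2 : ∏ p ∈ ({2, 3} : Finset ℕ), (1 + 4 / (p : ℝ)) = 7 := by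
      rw [prod_insert (by norm_num), prod_singleton]
      norm_num
    rw [h2] at h1
    have h3 := hge (({2, 3} : Finset ℕ) ∩ (s * tt C).primeFactors)
    have h4 := hge (({2, 3} : Finset ℕ) ∪ (s * tt C).primeFactors)
    calc _ ≤ (∏ p ∈ ({2, 3} : Finset ℕ) ∪ (s * tt C).primeFactors, (1 + 4 / (p : ℝ))) *
          ∏ p ∈ ({2, 3} : Finset ℕ) ∩ (s * tt C).primeFactors, (1 + 4 / (p : ℝ)) :=
          le_mul_of_one_le_right (by linarith) h3
      _ = _ := h1
  have e6 : (Real.log y) ^ (k + 1) ≤ 8 * (7 * FF (s * tt C) * Fsum (y ^ 3) (hh y s C)) := by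
    have h8 : (2 : ℝ) ^ (k + 1) ≤ 8 := by
      calc (2 : ℝ) ^ (k + 1) ≤ 2 ^ 3 := pow_le_pow_right₀ (by norm_num) (by omega)
        _ = 8 := by norm_num
    have h9 : Fsum (y ^ (k + 1)) (gg y k) ≤ 7 * FF (s * tt C) * Fsum (y ^ 3) (hh y s C) :=
      (e2.trans (e3.trans e4)).trans (mul_le_mul_of_nonneg_right e5 hFnn)
    have h10 : 0 ≤ Fsum (y ^ (k + 1)) (gg y k) := by
      unfold Fsum
      exact sum_nonneg fun l _ => prod_nonneg fun p _ => gg_nonneg y k p
    calc (Real.log y) ^ (k + 1) ≤ 2 ^ (k + 1) * Fsum (y ^ (k + 1)) (gg y k) := e1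
      _ ≤ 8 * Fsum (y ^ (k + 1)) (gg y k) := mul_le_mul_of_nonneg_right h8 h10
      _ ≤ _ := mul_le_mul_of_nonneg_left h9 (by norm_num)
  have hlk : 0 < (Real.log y) ^ (k + 1) := by positivity
  have hFpos : 0 < Fsum (y ^ 3) (hh y s C) := by
    rcases hFnn.lt_or_eq with h1 | h1
    · exact h1
    · rw [← h1, mul_zero, mul_zero] at e6
      linarith
  refine hsieve.trans (add_le_add ?_ (le_of_eq ?_))
  · rw [div_le_iff₀ hFpos, div_mul_eq_mul_div, div_mul_eq_mul_div, le_div_iff₀ hlk]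
    have hM : (0 : ℝ) ≤ M := Nat.cast_nonneg M
    calc (M : ℝ) * (Real.log y) ^ (k + 1) ≤
        M * (8 * (7 * FF (s * tt C) * Fsum (y ^ 3) (hh y s C))) :=
          mul_le_mul_of_nonneg_left e6 hM
      _ = 56 * M * FF (s * tt C) * Fsum (y ^ 3) (hh y s C) := by ring
  · push_cast
    ring

end Pool.Agent.BDT
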