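import Pool.Agent.BDT.Siev
import Pool.Agent.BDT.Eul

/-!
# BDT-Split (1.2h): smooth times rough

Every `m ≥ 1` is `s b`, `s` = product of the prime powers of the primes `≤ y` (for instance `s = ∏ p ∈ m.primeFactors.filter (· ≤ y), p ^ m.factorization p`),
`b = m/s` with `rgh y b`; `Om y m = Om y s` (`Om_mul`, `Om_rgh`); the map `m ↦ (s, b)` is injective. So the left side is at most
`∑_{s ≤ R, s smooth} z^Om(s) #{b ≤ X/s : rgh, ok(s b)} + ∑_{R < s ≤ X, smooth} z^Om(s) (X/s)`, `R = ⌊√X⌋`. First part: `siev` with `M = X/s` (nat division, `≤ X/s`),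
`FF(s * tt C) ≤ FF s * FF (tt C)`, `eul`; the error terms: `y^18 ∑_{s ≤ R} z^Om(s)` and `z^Om(s) ≤ (3/2)^Om(s) ≤ (2^Om(s))^(3/5) ≤ s^(3/5)` (`(3/2)^5 ≤ 2^3`), so it is
at most `y^18 R^(8/5) ≤ y^18 X^(4/5)`. Second part: `rank` with `Z = √X` (`s > R` means `s > √X`).
`tt C ≠ 0` because `c ≥ 1` and the differences of distinct elements are nonzero.
-/

open Finset

namespace Pool.Agent.BDT

/-- smooth part -/
private def smo (y m : ℕ) : ℕ := ∏ p ∈ m.primeFactors.filter (fun p => p ≤ y), p ^ m.factorization p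

/-- rough part -/
private def rou (y m : ℕ) : ℕ := ∏ p ∈ m.primeFactors.filter (fun p => ¬ p ≤ y), p ^ m.factorization p

private theorem smo_mul_rou (y : ℕ) {m : ℕ} (hm : m ≠ 0) : smo y m * rou y m = m := by
  unfold smo rou
  rw [prod_filter_mul_prod_filter_not]
  exact Nat.prod_factorization_pow_eq_self hm

private theorem smo_pos (y : ℕ) {m : ℕ} (hm : m ≠ 0) : 1 ≤ smo y m := by
  refine Nat.one_le_iff_ne_zero.2 fun h => ?_
  have := smo_mul_rou y hm
  rw [h, zero_mul] at this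
  exact hm this.symm

private theorem rou_pos (y : ℕ) {m : ℕ} (hm : m ≠ 0) : 1 ≤ rou y m := by
  refine Nat.one_le_iff_ne_zero.2 fun h => ?_
  have := smo_mul_rou y hm
  rw [h, mul_zero] at this
  exact hm this.symm

private theorem smo_smooth (y m : ℕ) {p : ℕ} (hp : p.Prime) (h : p ∣ smo y m) : p ≤ y := by
  unfold smo at h
  obtain ⟨q, hq, hd⟩ := (Prime.dvd_finsetProd_iff hp.prime _).1 h
  rw [mem_filter] at hq
  have h1 := hp.dvd_of_dvd_pow hd
  have h2 := (Nat.prime_dvd_prime_iff_eq hp (Nat.prime_of_mem_primeFactors hq.1)).1 h1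
  rw [h2]
  exact hq.2

private theorem rou_rgh (y m : ℕ) : rgh y (rou y m) := by
  intro p hp hpy h
  unfold rou at h
  obtain ⟨q, hq, hd⟩ := (Prime.dvd_finsetProd_iff hp.prime _).1 h
  rw [mem_filter] at hq
  have h1 := hp.dvd_of_dvd_pow hd
  have h2 := (Nat.prime_dvd_prime_iff_eq hp (Nat.prime_of_mem_primeFactors hq.1)).1 h1
  rw [h2] at hpy
  exact hq.2 hpy

private theorem Om_smo (y : ℕ) {m : ℕ} (hm : m ≠ 0) : Om y m = Om y (smo y m) := by
  have h1 := smo_pos y hm
  have h2 := rou_pos y hm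
  conv_lhs => rw [← smo_mul_rou y hm]
  rw [Om_mul y (by omega) (by omega), Om_rgh (rou_rgh y m), add_zero]

private theorem tt_ne' {C : Finset ℕ} (hC : ∀ c ∈ C, 1 ≤ c) : tt C ≠ 0 := by
  unfold tt
  refine mul_ne_zero (prod_ne_zero_iff.2 fun c hc => ?_) (prod_ne_zero_iff.2 fun x hx => ?_)
  · have := hC c hc
    omega
  · have := (mem_offDiag.1 hx).2.2
    omega

private theorem zpow_le {y s : ℕ} (hs : s ≠ 0) {z : ℝ} (hz : 0 ≤ z) (hz2 : z ≤ 3 / 2) :
    z ^ Om y s ≤ (s : ℝ) ^ (3 / 5 : ℝ) := by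
  have hs0 : (0 : ℝ) ≤ s := Nat.cast_nonneg s
  have h1 : z ^ Om y s ≤ (3 / 2 : ℝ) ^ Om y s := pow_le_pow_left₀ hz hz2 _
  have h2 : ((3 / 2 : ℝ) ^ Om y s) ^ 5 ≤ (s : ℝ) ^ 3 := by
    have h3 : ((2 : ℝ) ^ Om y s) ≤ s := by exact_mod_cast two_pow_Om_le y hs
    calc ((3 / 2 : ℝ) ^ Om y s) ^ 5 = ((3 / 2 : ℝ) ^ 5) ^ Om y s := by
          rw [← pow_mul, ← pow_mul, mul_comm]
      _ ≤ ((2 : ℝ) ^ 3) ^ Om y s := pow_le_pow_left₀ (by norm_num) (by norm_num) _
      _ = ((2 : ℝ) ^ Om y s) ^ 3 := by rw [← pow_mul, ← pow_mul, mul_comm]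
      _ ≤ (s : ℝ) ^ 3 := pow_le_pow_left₀ (by positivity) h3 _
  have h3 : ((s : ℝ) ^ (3 / 5 : ℝ)) ^ 5 = (s : ℝ) ^ 3 := by
    rw [← Real.rpow_natCast ((s : ℝ) ^ (3 / 5 : ℝ)) 5, ← Real.rpow_mul hs0, ← Real.rpow_natCast]
    norm_num
  rw [← h3] at h2
  exact h1.trans ((pow_le_pow_iff_left₀ (by positivity) (Real.rpow_nonneg hs0 _) (by norm_num)).1 h2)

theorem split : ∃ K : ℝ, 0 < K ∧ ∃ y₀ : ℕ, 3 ≤ y₀ ∧ ∀ z : ℝ, 1 / 2 ≤ z → z ≤ 3 / 2 → ∀ y : ℕ, y₀ ≤ y →
    ∀ C : Finset ℕ, C.card ≤ 2 → (∀ c ∈ C, 1 ≤ c) → ∀ X : ℕ, 1 ≤ X →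
      ∑ m ∈ (Icc 1 X).filter (fun m => ok y C m), z ^ Om y m ≤
        K * X * (Real.log y) ^ (z - 1 - C.card) * FF (tt C) + (y : ℝ) ^ 18 * (X : ℝ) ^ (4 / 5 : ℝ) +
          K * X * (Real.log y) ^ K * Real.exp (-(Real.log X / (2 * Real.log y))) := by
  classical
  obtain ⟨K1, hK1, hsiev⟩ := siev
  obtain ⟨K2, hK2, heul⟩ := eul
  obtain ⟨K3, hK3, y₀, hy₀, hrank⟩ := rank
  refine ⟨K1 * K2 + K3, by positivity, y₀, hy₀, fun z hz1 hz2 y hy C hC hC1 X hX => ?_⟩
  have hz0 : (0 : ℝ) < z := by linarith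
  have hy3 : 3 ≤ y := hy₀.trans hy
  have hL1 : 1 ≤ Real.log y := by
    rw [Real.le_log_iff_exp_le (by positivity)]
    have h1 : (3 : ℝ) ≤ y := by exact_mod_cast hy3
    linarith [Real.exp_one_lt_three]
  have hL0 : 0 < Real.log y := by linarith
  have hX1 : (1 : ℝ) ≤ X := by exact_mod_cast hX
  have hXpos : (0 : ℝ) < X := by linarith
  set T := (Icc 1 X).filter (fun m => ok y C m) with hT
  set S := T.image (smo y) with hS
  have hTm : ∀ m ∈ T, 1 ≤ m ∧ m ≤ X ∧ ok y C m := by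
    intro m hm
    rw [hT, mem_filter, mem_Icc] at hm
    exact ⟨hm.1.1, hm.1.2, hm.2⟩
  have hSs : ∀ s ∈ S, 1 ≤ s ∧ ∀ p : ℕ, p.Prime → p ∣ s → p ≤ y := by
    intro s hs
    rw [hS, mem_image] at hs
    obtain ⟨m, hm, rfl⟩ := hs
    have := hTm m hm
    exact ⟨smo_pos y (by omega), fun p hp hd => smo_smooth y m hp hd⟩
  -- fibre decomposition
  have hfib : ∑ m ∈ T, z ^ Om y m =
      ∑ s ∈ S, z ^ Om y s * ((T.filter (fun m => smo y m = s)).card : ℝ) := by
    rw [← sum_fiberwise_of_maps_to (g := smo y) (t := S) (fun m hm => mem_image_of_mem _ hm)]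
    refine sum_congr rfl fun s _ => ?_
    have h1 : ∀ m ∈ T.filter (fun m => smo y m = s), z ^ Om y m = z ^ Om y s := by
      intro m hm
      rw [mem_filter] at hm
      have := hTm m hm.1
      rw [Om_smo y (by omega : m ≠ 0), hm.2]
    rw [sum_congr rfl h1, sum_const, nsmul_eq_mul, mul_comm]
  have hcard : ∀ s ∈ S, (T.filter (fun m => smo y m = s)).card ≤
      ((Icc 1 (X / s)).filter (fun b => rgh y b ∧ ok y C (s * b))).card := by
    intro s hs
    refine card_le_card_of_injOn (rou y) ?_ ?_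
    · intro m hm
      rw [mem_coe, mem_filter] at hm
      obtain ⟨h1, h2, h3⟩ := hTm m hm.1
      have h4 : s * rou y m = m := by
        rw [← hm.2]
        exact smo_mul_rou y (by omega)
      rw [mem_coe, mem_filter, mem_Icc]
      refine ⟨⟨rou_pos y (by omega), ?_⟩, rou_rgh y m, ?_⟩
      · rw [Nat.le_div_iff_mul_le (by have := (hSs s hs).1; omega), mul_comm, h4]
        exact h2
      · rw [h4]
        exact h3
    · intro m hm m' hm' he
      rw [mem_coe, mem_filter] at hm hm'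
      have h1 := hTm m hm.1
      have h1' := hTm m' hm'.1
      rw [← smo_mul_rou y (by omega : m ≠ 0), ← smo_mul_rou y (by omega : m' ≠ 0), hm.2, hm'.2, he]
  set R := Nat.sqrt X with hR
  have hR2 : R * R ≤ X := Nat.sqrt_le X
  have hRlt : X < (R + 1) * (R + 1) := Nat.lt_succ_sqrt X
  rw [hfib, ← sum_filter_add_sum_filter_not S (fun s => s ≤ R)]
  -- first part
  have hA : ∑ s ∈ S.filter (fun s => s ≤ R),
        z ^ Om y s * ((T.filter (fun m => smo y m = s)).card : ℝ) ≤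
      K1 * K2 * X * (Real.log y) ^ (z - 1 - C.card) * FF (tt C) +
        (y : ℝ) ^ 18 * (X : ℝ) ^ (4 / 5 : ℝ) := by
    have h1 : ∀ s ∈ S.filter (fun s => s ≤ R),
        z ^ Om y s * ((T.filter (fun m => smo y m = s)).card : ℝ) ≤
          K1 * X / (Real.log y) ^ (C.card + 1) * FF (tt C) * (z ^ Om y s / s * FF s) +
            (y : ℝ) ^ 18 * (R : ℝ) ^ (3 / 5 : ℝ) := by
      intro s hs
      rw [mem_filter] at hs
      obtain ⟨hs1, hs2⟩ := hSs s hs.1
      have hs0 : (0 : ℝ) < s := by exact_mod_cast hs1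
      have h2 : ((T.filter (fun m => smo y m = s)).card : ℝ) ≤
          (((Icc 1 (X / s)).filter (fun b => rgh y b ∧ ok y C (s * b))).card : ℝ) := by
        exact_mod_cast hcard s hs.1
      have h3 := hsiev y hy3 C hC hC1 s (X / s) hs1
      have h4 : FF (s * tt C) ≤ FF s * FF (tt C) := FF_mul_le (by omega) (tt_ne' hC1)
      have h5 : ((X / s : ℕ) : ℝ) ≤ X / s := Nat.cast_div_le
      have hFs := one_le_FF s
      have hFt := one_le_FF (tt C)
      have hlk : 0 < (Real.log y) ^ (C.card + 1) := by positivity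
      have h6 : K1 * ((X / s : ℕ) : ℝ) / (Real.log y) ^ (C.card + 1) * FF (s * tt C) ≤
          K1 * (X / s) / (Real.log y) ^ (C.card + 1) * (FF s * FF (tt C)) := by
        refine mul_le_mul ?_ h4 (by linarith [one_le_FF (s * tt C)]) (by positivity)
        exact div_le_div_of_nonneg_right (mul_le_mul_of_nonneg_left h5 hK1.le) hlk.le
      have h7 : z ^ Om y s ≤ (R : ℝ) ^ (3 / 5 : ℝ) :=
        (zpow_le (by omega) hz0.le hz2).trans
          (Real.rpow_le_rpow hs0.le (by exact_mod_cast hs.2) (by norm_num))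
      have hzp : 0 < z ^ Om y s := by positivity
      calc z ^ Om y s * ((T.filter (fun m => smo y m = s)).card : ℝ)
          ≤ z ^ Om y s * (K1 * (X / s) / (Real.log y) ^ (C.card + 1) * (FF s * FF (tt C)) +
              (y : ℝ) ^ 18) :=
            mul_le_mul_of_nonneg_left (h2.trans (h3.trans (by linarith))) hzp.le
        _ = K1 * X / (Real.log y) ^ (C.card + 1) * FF (tt C) * (z ^ Om y s / s * FF s) +
              (y : ℝ) ^ 18 * z ^ Om y s := by
            field_simp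
        _ ≤ _ := by
            have := mul_le_mul_of_nonneg_left h7 (by positivity : (0 : ℝ) ≤ (y : ℝ) ^ 18)
            linarith
    refine (sum_le_sum h1).trans ?_
    rw [sum_add_distrib, ← mul_sum, sum_const, nsmul_eq_mul]
    refine add_le_add ?_ ?_
    · have h2 := heul z hz1 hz2 y hy3 (S.filter (fun s => s ≤ R))
        (fun s hs => hSs s (mem_filter.1 hs).1)
      have hFt := one_le_FF (tt C)
      have hlk : 0 < (Real.log y) ^ (C.card + 1) := by positivity
      calc _ ≤ K1 * X / (Real.log y) ^ (C.card + 1) * FF (tt C) * (K2 * (Real.log y) ^ z) :=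
            mul_le_mul_of_nonneg_left h2 (by positivity)
        _ = K1 * K2 * X * (Real.log y) ^ (z - 1 - C.card) * FF (tt C) := by
            have h3 : z - 1 - (C.card : ℝ) = z - ((C.card + 1 : ℕ) : ℝ) := by
              push_cast
              ring
            rw [h3, Real.rpow_sub hL0, Real.rpow_natCast]
            ring
    · have h2 : (S.filter (fun s => s ≤ R)).card ≤ R := by
        calc _ ≤ (Icc 1 R).card := by
              refine card_le_card fun s hs => ?_
              rw [mem_filter] at hs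
              rw [mem_Icc]
              exact ⟨(hSs s hs.1).1, hs.2⟩
          _ = R := by rw [Nat.card_Icc]; omega
      have h2' : ((S.filter (fun s => s ≤ R)).card : ℝ) ≤ R := by exact_mod_cast h2
      have hR0 : (0 : ℝ) ≤ R := Nat.cast_nonneg R
      have hRpos : (0 : ℝ) < R := by
        have : 0 < R := by
          rw [hR]
          exact Nat.sqrt_pos.2 (by omega)
        exact_mod_cast this
      have h3 : (R : ℝ) * (R : ℝ) ^ (3 / 5 : ℝ) ≤ (X : ℝ) ^ (4 / 5 : ℝ) := by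
        have h4 : (R : ℝ) * (R : ℝ) ^ (3 / 5 : ℝ) = ((R : ℝ) * R) ^ (4 / 5 : ℝ) := by
          rw [Real.mul_rpow hR0 hR0, ← Real.rpow_add hRpos]
          nth_rewrite 1 [← Real.rpow_one (R : ℝ)]
          rw [← Real.rpow_add hRpos]
          norm_num
        rw [h4]
        exact Real.rpow_le_rpow (by positivity) (by exact_mod_cast hR2) (by norm_num)
      have hRr : 0 ≤ (R : ℝ) ^ (3 / 5 : ℝ) := Real.rpow_nonneg hR0 _
      calc _ ≤ (R : ℝ) * ((y : ℝ) ^ 18 * (R : ℝ) ^ (3 / 5 : ℝ)) :=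
            mul_le_mul_of_nonneg_right h2' (by positivity)
        _ = (y : ℝ) ^ 18 * ((R : ℝ) * (R : ℝ) ^ (3 / 5 : ℝ)) := by ring
        _ ≤ _ := mul_le_mul_of_nonneg_left h3 (by positivity)
  -- second part
  have hB : ∑ s ∈ S.filter (fun s => ¬ s ≤ R),
        z ^ Om y s * ((T.filter (fun m => smo y m = s)).card : ℝ) ≤
      K3 * X * (Real.log y) ^ K3 * Real.exp (-(Real.log X / (2 * Real.log y))) := by
    have h1 : ∀ s ∈ S.filter (fun s => ¬ s ≤ R),
        z ^ Om y s * ((T.filter (fun m => smo y m = s)).card : ℝ) ≤ X * (z ^ Om y s / s) := by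
      intro s hs
      rw [mem_filter] at hs
      obtain ⟨hs1, hs2⟩ := hSs s hs.1
      have hs0 : (0 : ℝ) < s := by exact_mod_cast hs1
      have h2 : ((T.filter (fun m => smo y m = s)).card : ℝ) ≤ X / s := by
        have h3 : (T.filter (fun m => smo y m = s)).card ≤ X / s := by
          refine (hcard s hs.1).trans ((card_filter_le _ _).trans ?_)
          rw [Nat.card_Icc, Nat.add_sub_cancel]
        exact (by exact_mod_cast h3 : ((T.filter (fun m => smo y m = s)).card : ℝ) ≤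
          ((X / s : ℕ) : ℝ)).trans Nat.cast_div_le
      calc _ ≤ z ^ Om y s * (X / s) := mul_le_mul_of_nonneg_left h2 (by positivity)
        _ = _ := by ring
    refine (sum_le_sum h1).trans ?_
    rw [← mul_sum]
    have hZ1 : 1 ≤ Real.sqrt X := by
      rw [Real.one_le_sqrt]
      exact hX1
    have h2 := hrank z hz1 hz2 y hy (Real.sqrt X) hZ1 (S.filter (fun s => ¬ s ≤ R)) (by
      intro s hs
      rw [mem_filter] at hs
      refine ⟨?_, (hSs s hs.1).2⟩
      have h3 : R + 1 ≤ s := by omega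
      rw [Real.sqrt_lt' (by have := (hSs s hs.1).1; positivity)]
      have h4 : X < s * s := hRlt.trans_le (Nat.mul_le_mul h3 h3)
      rw [sq]
      exact_mod_cast h4)
    have h3 : Real.log (Real.sqrt X) / Real.log y = Real.log X / (2 * Real.log y) := by
      rw [Real.log_sqrt hXpos.le]
      field_simp
    rw [h3] at h2
    calc _ ≤ (X : ℝ) * (K3 * (Real.log y) ^ K3 * Real.exp (-(Real.log X / (2 * Real.log y)))) :=
          mul_le_mul_of_nonneg_left h2 hXpos.le
      _ = _ := by ring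
  have hE := Real.exp_pos (-(Real.log X / (2 * Real.log y)))
  have hFt := one_le_FF (tt C)
  have hC1' : K1 * K2 * X * (Real.log y) ^ (z - 1 - C.card) * FF (tt C) ≤
      (K1 * K2 + K3) * X * (Real.log y) ^ (z - 1 - C.card) * FF (tt C) := by
    have h1 : 0 < (Real.log y) ^ (z - 1 - C.card) := Real.rpow_pos_of_pos hL0 _
    have h2 : 0 ≤ K3 * X * (Real.log y) ^ (z - 1 - C.card) * FF (tt C) := by positivity
    linarith
  have hD1 : K3 * X * (Real.log y) ^ K3 * Real.exp (-(Real.log X / (2 * Real.log y))) ≤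
      (K1 * K2 + K3) * X * (Real.log y) ^ (K1 * K2 + K3) *
        Real.exp (-(Real.log X / (2 * Real.log y))) := by
    have h12 : 0 < K1 * K2 := by positivity
    have h1 : (Real.log y) ^ K3 ≤ (Real.log y) ^ (K1 * K2 + K3) :=
      Real.rpow_le_rpow_of_exponent_le hL1 (by linarith)
    have h0 : 0 < (Real.log y) ^ K3 := Real.rpow_pos_of_pos hL0 _
    have h2 : K3 * X ≤ (K1 * K2 + K3) * X := by
      have : 0 ≤ K1 * K2 * X := by positivity
      linarith
    refine mul_le_mul_of_nonneg_right ?_ hE.le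
    exact mul_le_mul h2 h1 h0.le (by positivity)
  linarith

end Pool.Agent.BDT
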