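import Pool.Agent.BDT.Split
import Pool.Agent.BDT.LL

/-!
# BDT-WSum (1.0h): the weighted sum (numerics)

`split` with `y = yy N`, `log y ∈ [(1/2) (log N)^(1-δ), (log N)^(1-δ)]`, `δ = 10^(-5)` (`yy_log`). First term: `(log y)^(z-1-k) ≤ 2^(5/2) (log N)^(z-1-k+δ*5/2)` for every
`z - 1 - k ∈ [-5/2, 1/2]` (for a negative exponent use the lower bound of `log y`, otherwise the upper one), `FF (tt C) ≤ (log N)^(10^(-6))` (`FF_small`: `1 ≤ tt C ≤ N^8`: at most two elements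
`≤ N²`, two differences `≤ N²`). Second term: `y^18 ≤ N^(0.000018)` (`yy_pow`), `X^(-1/5) ≤ N^(-1/5000)`, so it is `≤ X N^(-0.0001) ≤ X (log N)^(-3)`. Third term: `log X ≥ log N/1000`, so the exponential is
`≤ exp(-(log N)^δ/2000) ≤ (log N)^(-K-3)`. Exponent `z - 1 - k ≥ -5/2`, total loss `< 4 δ`.
-/

open Finset

namespace Pool.Agent.BDT

private theorem tt_bounds {N : ℕ} (hN : 1 ≤ N) {C : Finset ℕ} (hC : C.card ≤ 2)
    (h : ∀ c ∈ C, 1 ≤ c ∧ c ≤ N ^ 2) : 1 ≤ tt C ∧ tt C ≤ N ^ 10 := by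
  have hN2 : 1 ≤ N ^ 2 := Nat.one_le_pow _ _ hN
  constructor
  · unfold tt
    refine Nat.mul_pos (Finset.prod_pos fun c hc => (h c hc).1) (Finset.prod_pos fun x hx => ?_)
    rw [mem_offDiag] at hx
    have := hx.2.2
    omega
  · unfold tt
    have h1 : ∏ c ∈ C, c ≤ (N ^ 2) ^ C.card := by
      have := Finset.prod_le_pow_card C (fun c => c) (N ^ 2) (fun c hc => (h c hc).2)
      exact this
    have h2 : ∏ x ∈ C.offDiag, ((x.1 - x.2) + (x.2 - x.1)) ≤ (N ^ 2) ^ C.offDiag.card := by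
      refine Finset.prod_le_pow_card _ _ _ fun x hx => ?_
      rw [mem_offDiag] at hx
      have h3 := (h _ hx.1).2
      have h4 := (h _ hx.2.1).2
      omega
    have h3 : C.offDiag.card ≤ 2 := by
      rw [offDiag_card]
      have : C.card = 0 ∨ C.card = 1 ∨ C.card = 2 := by omega
      rcases this with h | h | h <;> rw [h]
      · norm_num
      · norm_num
    calc (∏ c ∈ C, c) * ∏ x ∈ C.offDiag, ((x.1 - x.2) + (x.2 - x.1))
        ≤ (N ^ 2) ^ 2 * (N ^ 2) ^ 2 :=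
          Nat.mul_le_mul (h1.trans (Nat.pow_le_pow_right hN2 hC))
            (h2.trans (Nat.pow_le_pow_right hN2 h3))
      _ = N ^ 8 := by ring
      _ ≤ N ^ 10 := Nat.pow_le_pow_right hN (by norm_num)

private theorem pow_bound {L Y a : ℝ} (hL : 1 ≤ L) (h1 : 1 / 2 * L ^ (1 - 1 / 100000 : ℝ) ≤ Y)
    (h2 : Y ≤ L ^ (1 - 1 / 100000 : ℝ)) (ha1 : -(5 / 2) ≤ a) :
    Y ^ a ≤ (2 : ℝ) ^ (5 / 2 : ℝ) * L ^ (a + 25 / 1000000 : ℝ) := by
  have hL0 : 0 < L := by linarith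
  have hP : 0 < L ^ (1 - 1 / 100000 : ℝ) := Real.rpow_pos_of_pos hL0 _
  have hY : 0 < Y := lt_of_lt_of_le (by positivity) h1
  have h25 : (1 : ℝ) ≤ (2 : ℝ) ^ (5 / 2 : ℝ) := Real.one_le_rpow (by norm_num) (by norm_num)
  by_cases ha : 0 ≤ a
  · have h3 : Y ^ a ≤ L ^ (a + 25 / 1000000 : ℝ) := by
      calc Y ^ a ≤ (L ^ (1 - 1 / 100000 : ℝ)) ^ a := Real.rpow_le_rpow hY.le h2 ha
        _ = L ^ ((1 - 1 / 100000 : ℝ) * a) := by rw [← Real.rpow_mul hL0.le]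
        _ ≤ L ^ (a + 25 / 1000000 : ℝ) := by
            apply Real.rpow_le_rpow_of_exponent_le hL
            nlinarith
    have h4 : (0 : ℝ) ≤ L ^ (a + 25 / 1000000 : ℝ) := Real.rpow_nonneg hL0.le _
    nlinarith
  · push Not at ha
    calc Y ^ a ≤ (1 / 2 * L ^ (1 - 1 / 100000 : ℝ)) ^ a :=
          Real.rpow_le_rpow_of_nonpos (by positivity) h1 ha.le
      _ = (2 : ℝ) ^ (-a) * L ^ ((1 - 1 / 100000 : ℝ) * a) := by
          rw [Real.mul_rpow (by norm_num) hP.le, ← Real.rpow_mul hL0.le, one_div,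
            Real.inv_rpow (by norm_num), ← Real.rpow_neg (by norm_num)]
      _ ≤ (2 : ℝ) ^ (5 / 2 : ℝ) * L ^ (a + 25 / 1000000 : ℝ) := by
          apply mul_le_mul
          · exact Real.rpow_le_rpow_of_exponent_le (by norm_num) (by linarith)
          · apply Real.rpow_le_rpow_of_exponent_le hL
            nlinarith
          · exact Real.rpow_nonneg hL0.le _
          · positivity

private theorem ev_small (K : ℝ) : ∀ᶠ N : ℕ in Filter.atTop,
    3 * K * ((Real.log N) ^ (K + 5 / 2 : ℝ) *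
      Real.exp (-((Real.log N) ^ (1 / 100000 : ℝ) / 2000))) ≤ 1 := by
  have h1 := tendsto_rpow_mul_exp_neg_mul_atTop_nhds_zero ((K + 5 / 2) * 100000) (1 / 2000)
    (by norm_num)
  have h2 : Filter.Tendsto (fun N : ℕ => (Real.log N) ^ (1 / 100000 : ℝ)) Filter.atTop
      Filter.atTop :=
    (tendsto_rpow_atTop (by norm_num)).comp
      (Real.tendsto_log_atTop.comp tendsto_natCast_atTop_atTop)
  have h3 := (h1.comp h2).const_mul (3 * K)
  rw [mul_zero] at h3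
  have h4 := h3.eventually (eventually_le_nhds (show (0 : ℝ) < 1 by norm_num))
  filter_upwards [h4, Filter.eventually_ge_atTop 1] with N hN hN1
  have hN1' : (1 : ℝ) ≤ N := by exact_mod_cast hN1
  have hlog : 0 ≤ Real.log N := Real.log_nonneg hN1'
  have h5 : ((Real.log N) ^ (1 / 100000 : ℝ)) ^ ((K + 5 / 2) * 100000) =
      (Real.log N) ^ (K + 5 / 2 : ℝ) := by
    rw [← Real.rpow_mul hlog]
    congr 1
    ring
  simp only [Function.comp] at hN
  rw [h5] at hN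
  have h6 : -(1 / 2000) * (Real.log N) ^ (1 / 100000 : ℝ) =
      -((Real.log N) ^ (1 / 100000 : ℝ) / 2000) := by ring
  rwa [h6] at hN

theorem wsum (z : ℝ) (hz : 1 / 2 ≤ z) (hz2 : z ≤ 3 / 2) : ∃ N₀ : ℕ, ∀ N : ℕ, N₀ ≤ N →
    ∀ C : Finset ℕ, C.card ≤ 2 → (∀ c ∈ C, 1 ≤ c ∧ c ≤ N ^ 2) → ∀ X : ℕ,
      (N : ℝ) ^ (1 / 1000 : ℝ) ≤ X → X ≤ N →
        ∑ m ∈ (Icc 1 X).filter (fun m => ok (yy N) C m), z ^ Om (yy N) m ≤
          X * (Real.log N) ^ (z - 1 - C.card + 4 / 100000 : ℝ) := by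
  obtain ⟨K, hK, y₀, hy₀, H⟩ := split
  obtain ⟨N1, F1⟩ := FF_small
  obtain ⟨N2, F2⟩ := yy_log
  obtain ⟨N3, F3⟩ := yy_pow
  obtain ⟨N4, F4⟩ := yy_large y₀
  have hlogt : Filter.Tendsto (fun N : ℕ => Real.log N) Filter.atTop Filter.atTop :=
    Real.tendsto_log_atTop.comp tendsto_natCast_atTop_atTop
  have ev1 : ∀ᶠ N : ℕ in Filter.atTop, (1 : ℝ) ≤ Real.log N := hlogt.eventually_ge_atTop 1
  have ev2 : ∀ᶠ N : ℕ in Filter.atTop,
      3 * K * (2 : ℝ) ^ (5 / 2 : ℝ) ≤ (Real.log N) ^ (14 / 1000000 : ℝ) :=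
    ((tendsto_rpow_atTop (show (0 : ℝ) < 14 / 1000000 by norm_num)).comp
      hlogt).eventually_ge_atTop _
  have ev3 : ∀ᶠ N : ℕ in Filter.atTop,
      3 * (Real.log N) ^ (5 / 2 : ℝ) ≤ (N : ℝ) ^ (182 / 1000000 : ℝ) := by
    have h1 := (isLittleO_log_rpow_rpow_atTop (5 / 2)
      (show (0 : ℝ) < 182 / 1000000 by norm_num)).bound (show (0 : ℝ) < 1 / 3 by norm_num)
    have h2 := tendsto_natCast_atTop_atTop (R := ℝ) |>.eventually h1
    filter_upwards [h2, Filter.eventually_ge_atTop 3] with N hN hN3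
    have hNR : (3 : ℝ) ≤ N := by exact_mod_cast hN3
    have hlog : 0 ≤ Real.log N := Real.log_nonneg (by linarith)
    rw [Real.norm_of_nonneg (Real.rpow_nonneg hlog _),
      Real.norm_of_nonneg (Real.rpow_nonneg (by linarith) _)] at hN
    linarith
  obtain ⟨N5, F5⟩ := Filter.eventually_atTop.mp (ev1.and (ev2.and (ev3.and (ev_small K))))
  refine ⟨N1 + N2 + N3 + N4 + N5 + 3, ?_⟩
  intro N hN C hC hC2 X hX1 hX2
  obtain ⟨e1, e2, e3, e4⟩ := F5 N (by omega)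
  have hN1 : 1 ≤ N := by omega
  have hNR : (1 : ℝ) ≤ N := by exact_mod_cast hN1
  have hN0 : (0 : ℝ) < N := by linarith
  have hXR : (1 : ℝ) ≤ X := le_trans (Real.one_le_rpow hNR (by norm_num)) hX1
  have hX : 1 ≤ X := by exact_mod_cast hXR
  have hX0 : (0 : ℝ) < X := by linarith
  have hsplit := H z hz hz2 (yy N) (F4 N (by omega)) C hC (fun c hc => (hC2 c hc).1) X hX
  obtain ⟨l1, l2⟩ := F2 N (by omega)
  have hL0 : 0 < Real.log N := by linarith
  have hk : ((C.card : ℕ) : ℝ) ≤ 2 := by exact_mod_cast hC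
  have hk0 : (0 : ℝ) ≤ ((C.card : ℕ) : ℝ) := Nat.cast_nonneg _
  obtain ⟨t1, t2⟩ := tt_bounds hN1 hC hC2
  have hFF := F1 N (by omega) (tt C) t1 t2
  have hFF1 := one_le_FF (tt C)
  have hlY : 0 < Real.log (yy N) := by
    have : 0 < (Real.log N) ^ (1 - 1 / 100000 : ℝ) := Real.rpow_pos_of_pos hL0 _
    linarith
  -- first term
  have T1 : K * X * (Real.log (yy N)) ^ (z - 1 - C.card) * FF (tt C) ≤
      1 / 3 * (X * (Real.log N) ^ (z - 1 - C.card + 4 / 100000 : ℝ)) := by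
    have h1 := pow_bound (a := z - 1 - C.card) e1 l1 l2 (by linarith)
    calc K * X * (Real.log (yy N)) ^ (z - 1 - C.card) * FF (tt C)
        ≤ K * X * ((2 : ℝ) ^ (5 / 2 : ℝ) * (Real.log N) ^ (z - 1 - C.card + 25 / 1000000 : ℝ)) *
          (Real.log N) ^ (1 / 1000000 : ℝ) := by
          gcongr
      _ = 1 / 3 * (X * ((3 * K * (2 : ℝ) ^ (5 / 2 : ℝ)) *
          ((Real.log N) ^ (z - 1 - C.card + 25 / 1000000 : ℝ) *
          (Real.log N) ^ (1 / 1000000 : ℝ)))) := by ring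
      _ ≤ 1 / 3 * (X * ((Real.log N) ^ (14 / 1000000 : ℝ) *
          ((Real.log N) ^ (z - 1 - C.card + 25 / 1000000 : ℝ) *
          (Real.log N) ^ (1 / 1000000 : ℝ)))) := by
          gcongr
      _ = 1 / 3 * (X * (Real.log N) ^ (z - 1 - C.card + 4 / 100000 : ℝ)) := by
          rw [← Real.rpow_add hL0, ← Real.rpow_add hL0]
          congr 3
          ring
  -- lower bound of the target
  have hlow : (Real.log N) ^ (-(5 / 2) : ℝ) ≤
      (Real.log N) ^ (z - 1 - C.card + 4 / 100000 : ℝ) :=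
    Real.rpow_le_rpow_of_exponent_le e1 (by linarith)
  have hneg : (Real.log N) ^ (-(5 / 2) : ℝ) * (Real.log N) ^ (5 / 2 : ℝ) = 1 := by
    rw [← Real.rpow_add hL0]
    norm_num
  have hP0 : 0 < (Real.log N) ^ (5 / 2 : ℝ) := Real.rpow_pos_of_pos hL0 _
  have hM0 : 0 < (Real.log N) ^ (-(5 / 2) : ℝ) := Real.rpow_pos_of_pos hL0 _
  -- second term
  have T2 : ((yy N : ℕ) : ℝ) ^ 18 * (X : ℝ) ^ (4 / 5 : ℝ) ≤
      1 / 3 * (X * (Real.log N) ^ (z - 1 - C.card + 4 / 100000 : ℝ)) := by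
    have h1 : ((yy N : ℕ) : ℝ) ^ 18 ≤ (N : ℝ) ^ (18 / 1000000 : ℝ) := by
      calc ((yy N : ℕ) : ℝ) ^ 18 ≤ ((N : ℝ) ^ (1 / 1000000 : ℝ)) ^ 18 :=
            pow_le_pow_left₀ (Nat.cast_nonneg _) (F3 N (by omega)) 18
        _ = (N : ℝ) ^ (18 / 1000000 : ℝ) := by
            rw [← Real.rpow_natCast, ← Real.rpow_mul hN0.le]
            norm_num
    have h2 : (X : ℝ) ^ (4 / 5 : ℝ) = X * (X : ℝ) ^ (-(1 / 5) : ℝ) := by
      nth_rewrite 2 [← Real.rpow_one (X : ℝ)]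
      rw [← Real.rpow_add hX0]
      norm_num
    have h3 : (X : ℝ) ^ (-(1 / 5) : ℝ) ≤ (N : ℝ) ^ (-(200 / 1000000) : ℝ) := by
      calc (X : ℝ) ^ (-(1 / 5) : ℝ) ≤ ((N : ℝ) ^ (1 / 1000 : ℝ)) ^ (-(1 / 5) : ℝ) :=
            Real.rpow_le_rpow_of_nonpos (Real.rpow_pos_of_pos hN0 _) hX1 (by norm_num)
        _ = (N : ℝ) ^ (-(200 / 1000000) : ℝ) := by
            rw [← Real.rpow_mul hN0.le]
            norm_num
    have h4 : (N : ℝ) ^ (18 / 1000000 : ℝ) * (N : ℝ) ^ (-(200 / 1000000) : ℝ) =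
        (N : ℝ) ^ (-(182 / 1000000) : ℝ) := by
      rw [← Real.rpow_add hN0]
      norm_num
    have h5 : (N : ℝ) ^ (-(182 / 1000000) : ℝ) * (N : ℝ) ^ (182 / 1000000 : ℝ) = 1 := by
      rw [← Real.rpow_add hN0]
      norm_num
    have h6 : (N : ℝ) ^ (-(182 / 1000000) : ℝ) ≤ 1 / 3 * (Real.log N) ^ (-(5 / 2) : ℝ) := by
      have hA : 0 < (N : ℝ) ^ (-(182 / 1000000) : ℝ) := Real.rpow_pos_of_pos hN0 _
      have h7 : (N : ℝ) ^ (-(182 / 1000000) : ℝ) * (3 * (Real.log N) ^ (5 / 2 : ℝ)) ≤ 1 := by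
        calc _ ≤ (N : ℝ) ^ (-(182 / 1000000) : ℝ) * (N : ℝ) ^ (182 / 1000000 : ℝ) := by gcongr
          _ = 1 := h5
      calc (N : ℝ) ^ (-(182 / 1000000) : ℝ)
          = (N : ℝ) ^ (-(182 / 1000000) : ℝ) *
            ((Real.log N) ^ (-(5 / 2) : ℝ) * (Real.log N) ^ (5 / 2 : ℝ)) := by
            rw [hneg, mul_one]
        _ = 1 / 3 * (((N : ℝ) ^ (-(182 / 1000000) : ℝ) * (3 * (Real.log N) ^ (5 / 2 : ℝ))) *
            (Real.log N) ^ (-(5 / 2) : ℝ)) := by ring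
        _ ≤ 1 / 3 * (1 * (Real.log N) ^ (-(5 / 2) : ℝ)) := by gcongr
        _ = _ := by ring
    calc ((yy N : ℕ) : ℝ) ^ 18 * (X : ℝ) ^ (4 / 5 : ℝ)
        ≤ (N : ℝ) ^ (18 / 1000000 : ℝ) * (X * (N : ℝ) ^ (-(200 / 1000000) : ℝ)) := by
          rw [h2]
          gcongr
      _ = X * ((N : ℝ) ^ (18 / 1000000 : ℝ) * (N : ℝ) ^ (-(200 / 1000000) : ℝ)) := by ring
      _ = X * (N : ℝ) ^ (-(182 / 1000000) : ℝ) := by rw [h4]
      _ ≤ X * (1 / 3 * (Real.log N) ^ (z - 1 - C.card + 4 / 100000 : ℝ)) := by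
          apply mul_le_mul_of_nonneg_left _ hX0.le
          linarith
      _ = _ := by ring
  -- third term
  have T3 : K * X * (Real.log (yy N)) ^ K * Real.exp (-(Real.log X / (2 * Real.log (yy N)))) ≤
      1 / 3 * (X * (Real.log N) ^ (z - 1 - C.card + 4 / 100000 : ℝ)) := by
    have h1 : (Real.log (yy N)) ^ K ≤ (Real.log N) ^ K := by
      apply Real.rpow_le_rpow hlY.le _ hK.le
      refine l2.trans ?_
      calc (Real.log N) ^ (1 - 1 / 100000 : ℝ) ≤ (Real.log N) ^ (1 : ℝ) :=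
            Real.rpow_le_rpow_of_exponent_le e1 (by norm_num)
        _ = Real.log N := Real.rpow_one _
    have h2 : 1 / 1000 * Real.log N ≤ Real.log X := by
      rw [← Real.log_rpow hN0]
      exact Real.log_le_log (Real.rpow_pos_of_pos hN0 _) hX1
    have h3 : (Real.log N) ^ (1 / 100000 : ℝ) / 2000 ≤ Real.log X / (2 * Real.log (yy N)) := by
      rw [le_div_iff₀ (by positivity)]
      have h4 : (Real.log N) ^ (1 / 100000 : ℝ) * (Real.log N) ^ (1 - 1 / 100000 : ℝ) =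
          Real.log N := by
        rw [← Real.rpow_add hL0]
        norm_num
      have h5 : (0 : ℝ) ≤ (Real.log N) ^ (1 / 100000 : ℝ) := Real.rpow_nonneg hL0.le _
      calc (Real.log N) ^ (1 / 100000 : ℝ) / 2000 * (2 * Real.log (yy N))
          ≤ (Real.log N) ^ (1 / 100000 : ℝ) / 2000 *
            (2 * (Real.log N) ^ (1 - 1 / 100000 : ℝ)) := by gcongr
        _ = 1 / 1000 * ((Real.log N) ^ (1 / 100000 : ℝ) *
            (Real.log N) ^ (1 - 1 / 100000 : ℝ)) := by ring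
        _ = 1 / 1000 * Real.log N := by rw [h4]
        _ ≤ Real.log X := h2
    have h4 : Real.exp (-(Real.log X / (2 * Real.log (yy N)))) ≤
        Real.exp (-((Real.log N) ^ (1 / 100000 : ℝ) / 2000)) := by
      apply Real.exp_le_exp.mpr
      linarith
    have h5 : (Real.log N) ^ K = (Real.log N) ^ (K + 5 / 2 : ℝ) *
        (Real.log N) ^ (-(5 / 2) : ℝ) := by
      rw [← Real.rpow_add hL0]
      congr 1
      ring
    have hLK : (0 : ℝ) ≤ (Real.log N) ^ (K + 5 / 2 : ℝ) := Real.rpow_nonneg hL0.le _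
    calc K * X * (Real.log (yy N)) ^ K * Real.exp (-(Real.log X / (2 * Real.log (yy N))))
        ≤ K * X * (Real.log N) ^ K *
          Real.exp (-((Real.log N) ^ (1 / 100000 : ℝ) / 2000)) := by
          gcongr
      _ = 1 / 3 * (X * ((3 * K * ((Real.log N) ^ (K + 5 / 2 : ℝ) *
          Real.exp (-((Real.log N) ^ (1 / 100000 : ℝ) / 2000)))) *
          (Real.log N) ^ (-(5 / 2) : ℝ))) := by
          rw [h5]
          ring
      _ ≤ 1 / 3 * (X * (1 * (Real.log N) ^ (z - 1 - C.card + 4 / 100000 : ℝ))) := by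
          gcongr
      _ = _ := by ring
  linarith

end Pool.Agent.BDT
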